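import Pool.Agent.Lib.MP_09cbbd_ndm.BHit

/-!
# Needles do not meet in dimension at least three

Row AE. For `d ≥ 3` two needles do not meet almost surely: if `pt y g s = pt y' g' t` then
`y' - y` is a linear combination of `g` and `g'`, so the determinant of the coordinates `0, 1, 2` of
`y' - y`, `g`, `g'` vanishes. For almost all `(g, g')` (for fixed `g` with `g 0 ≠ 0` the equation
`g 0 * g' 1 = g 1 * g' 0` defines a null set, a proper subspace:
`Measure.addHaar_submodule` or the graph of a function of one coordinate) this is a hyperplane in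
`y'` (fixed `y`), a null set. The set of the bad `(q i, q j)` is contained in the measurable set
`{det = 0}`, which is null by Fubini (`measure_prod_null`, `Measure.ae_prod_iff`); finitely many
pairs `i ≠ j` (`(q i, q j)` as a function of `q : Fin M → _` is quasi measure preserving). Then
the two sets in the theorem differ by a null set (`measureReal_congr`).
-/

set_option autoImplicit false

namespace Pool.Agent.Nbm

open MeasureTheory Finset Filter Topology Pool.Agent.SquareWellGas Pool.Agent.SquareWell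
  Pool.Agent.SquareWell.ModA Pool.Agent.ConfinedGas Pool.Agent.NeedleGas Pool.Agent.Ndl
open Pool.Agent.StableGas hiding tr
open Pool.Agent.Mix (Ct Sys Qr mem_Qr)
open Pool.Agent.Mix.ModX (tr mp_tr sq_tr)

variable {d : ℕ}

/-- Level sets of a nonzero linear functional are null. -/
private theorem null_level (f : (Fin d → ℝ) →ₗ[ℝ] ℝ) (w : Fin d → ℝ) (hw : f w ≠ 0) (b : ℝ) :
    ∀ᵐ x : Fin d → ℝ, f x ≠ b := by
  have h0 : volume {x : Fin d → ℝ | f x = b} = 0 := by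
    obtain ⟨x0, hx0⟩ : ∃ x0 : Fin d → ℝ, f x0 = b := by
      refine ⟨(b / f w) • w, ?_⟩
      rw [map_smul, smul_eq_mul, div_mul_cancel₀ _ hw]
    have e : {x : Fin d → ℝ | f x = b} =
        (AffineSubspace.mk' x0 (LinearMap.ker f) : Set (Fin d → ℝ)) := by
      ext x
      rw [SetLike.mem_coe, AffineSubspace.mem_mk', LinearMap.mem_ker, vsub_eq_sub, map_sub, hx0,
        sub_eq_zero]
      rfl
    rw [e]
    refine Measure.addHaar_affineSubspace volume _ ?_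
    intro htop
    have h1 : w +ᵥ x0 ∈ AffineSubspace.mk' x0 (LinearMap.ker f) := by
      rw [htop]
      exact AffineSubspace.mem_top _ _ _
    rw [AffineSubspace.mem_mk', vadd_vsub, LinearMap.mem_ker] at h1
    exact hw h1
  rw [ae_iff]
  simpa using h0

/-- The determinant of `y' - y`, `g`, `g'` in three coordinates. -/
private def Dt (i0 i1 i2 : Fin d) (q q' : (Fin d → ℝ) × (Fin d → ℝ)) : ℝ :=
  ((q'.1 i1 - q.1 i1) * q.2 i2 - (q'.1 i2 - q.1 i2) * q.2 i1) * q'.2 i0 -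
    ((q'.1 i0 - q.1 i0) * q.2 i2 - (q'.1 i2 - q.1 i2) * q.2 i0) * q'.2 i1 +
    ((q'.1 i0 - q.1 i0) * q.2 i1 - (q'.1 i1 - q.1 i1) * q.2 i0) * q'.2 i2

private theorem Dt_eq_zero (i0 i1 i2 : Fin d) {q q' : (Fin d → ℝ) × (Fin d → ℝ)} {s t : ℝ}
    (h : pt q.1 q.2 s = pt q'.1 q'.2 t) : Dt i0 i1 i2 q q' = 0 := by
  have key : ∀ k, q'.1 k - q.1 k = s / nrm q.2 * q.2 k - t / nrm q'.2 * q'.2 k := by
    intro k
    have h1 := congrFun h k
    simp only [pt] at h1
    have e1 : s * (q.2 k / nrm q.2) = s / nrm q.2 * q.2 k := by ring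
    have e2 : t * (q'.2 k / nrm q'.2) = t / nrm q'.2 * q'.2 k := by ring
    rw [e1, e2] at h1
    linarith
  unfold Dt
  rw [key i0, key i1, key i2]
  ring

private theorem measurable_Dt (i0 i1 i2 : Fin d) :
    Measurable fun p : ((Fin d → ℝ) × (Fin d → ℝ)) × ((Fin d → ℝ) × (Fin d → ℝ)) =>
      Dt i0 i1 i2 p.1 p.2 := by
  have h1 : ∀ k, Measurable fun p : ((Fin d → ℝ) × (Fin d → ℝ)) × ((Fin d → ℝ) × (Fin d → ℝ)) =>
      p.1.1 k := fun k => (measurable_pi_apply k).comp (measurable_fst.comp measurable_fst)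
  have h2 : ∀ k, Measurable fun p : ((Fin d → ℝ) × (Fin d → ℝ)) × ((Fin d → ℝ) × (Fin d → ℝ)) =>
      p.1.2 k := fun k => (measurable_pi_apply k).comp (measurable_snd.comp measurable_fst)
  have h3 : ∀ k, Measurable fun p : ((Fin d → ℝ) × (Fin d → ℝ)) × ((Fin d → ℝ) × (Fin d → ℝ)) =>
      p.2.1 k := fun k => (measurable_pi_apply k).comp (measurable_fst.comp measurable_snd)
  have h4 : ∀ k, Measurable fun p : ((Fin d → ℝ) × (Fin d → ℝ)) × ((Fin d → ℝ) × (Fin d → ℝ)) =>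
      p.2.2 k := fun k => (measurable_pi_apply k).comp (measurable_snd.comp measurable_snd)
  unfold Dt
  exact (((((h3 i1).sub (h1 i1)).mul (h2 i2)).sub (((h3 i2).sub (h1 i2)).mul (h2 i1))).mul
    (h4 i0)).sub (((((h3 i0).sub (h1 i0)).mul (h2 i2)).sub (((h3 i2).sub (h1 i2)).mul
    (h2 i0))).mul (h4 i1)) |>.add (((((h3 i0).sub (h1 i0)).mul (h2 i1)).sub
    (((h3 i1).sub (h1 i1)).mul (h2 i0))).mul (h4 i2))

private theorem Dt_ne (i0 i1 i2 : Fin d) (h01 : i0 ≠ i1) (h02 : i0 ≠ i2) (h12 : i1 ≠ i2) :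
    ∀ᵐ p : ((Fin d → ℝ) × (Fin d → ℝ)) × ((Fin d → ℝ) × (Fin d → ℝ)),
      Dt i0 i1 i2 p.1 p.2 ≠ 0 := by
  have hm : MeasurableSet {p : ((Fin d → ℝ) × (Fin d → ℝ)) × ((Fin d → ℝ) × (Fin d → ℝ)) |
      Dt i0 i1 i2 p.1 p.2 ≠ 0} := (measurable_Dt i0 i1 i2) (measurableSet_singleton 0).compl
  rw [Measure.volume_eq_prod, Measure.ae_prod_iff_ae_ae hm]
  have hg : ∀ᵐ g : Fin d → ℝ, g i0 ≠ 0 := by
    refine null_level (LinearMap.proj i0) (Pi.single i0 1) ?_ 0
    simp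
  have hq : ∀ᵐ q : (Fin d → ℝ) × (Fin d → ℝ), q.2 i0 ≠ 0 := by
    rw [Measure.volume_eq_prod]
    exact Measure.quasiMeasurePreserving_snd.ae hg
  filter_upwards [hq] with q hq0
  have hm2 : MeasurableSet {q' : (Fin d → ℝ) × (Fin d → ℝ) | Dt i0 i1 i2 q q' ≠ 0} :=
    measurable_prodMk_left hm
  rw [Measure.volume_eq_prod, Measure.ae_prod_iff_ae_ae hm2]
  have hy : ∀ᵐ y' : Fin d → ℝ,
      (y' i0 - q.1 i0) * q.2 i1 - (y' i1 - q.1 i1) * q.2 i0 ≠ 0 := by
    have h1 := null_level ((q.2 i1) • (LinearMap.proj i0 : (Fin d → ℝ) →ₗ[ℝ] ℝ) -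
      (q.2 i0) • (LinearMap.proj i1 : (Fin d → ℝ) →ₗ[ℝ] ℝ)) (Pi.single i1 1) (by
        simp only [LinearMap.sub_apply, LinearMap.smul_apply, LinearMap.proj_apply, smul_eq_mul,
          Pi.single_eq_same, Pi.single_eq_of_ne h01, mul_zero, mul_one, zero_sub]
        exact neg_ne_zero.2 hq0) (q.1 i0 * q.2 i1 - q.1 i1 * q.2 i0)
    filter_upwards [h1] with y' h2 h3
    apply h2
    simp only [LinearMap.sub_apply, LinearMap.smul_apply, LinearMap.proj_apply, smul_eq_mul]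
    linarith
  filter_upwards [hy] with y' hy0
  have h1 := null_level
    (((y' i1 - q.1 i1) * q.2 i2 - (y' i2 - q.1 i2) * q.2 i1) •
        (LinearMap.proj i0 : (Fin d → ℝ) →ₗ[ℝ] ℝ) -
      ((y' i0 - q.1 i0) * q.2 i2 - (y' i2 - q.1 i2) * q.2 i0) •
        (LinearMap.proj i1 : (Fin d → ℝ) →ₗ[ℝ] ℝ) +
      ((y' i0 - q.1 i0) * q.2 i1 - (y' i1 - q.1 i1) * q.2 i0) •
        (LinearMap.proj i2 : (Fin d → ℝ) →ₗ[ℝ] ℝ)) (Pi.single i2 1) (by
        simp only [LinearMap.add_apply, LinearMap.sub_apply, LinearMap.smul_apply,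
          LinearMap.proj_apply, smul_eq_mul, Pi.single_eq_same, Pi.single_eq_of_ne h02,
          Pi.single_eq_of_ne h12, mul_zero, mul_one, sub_zero, zero_add]
        simpa using hy0) 0
  filter_upwards [h1] with g' h2 h3
  apply h2
  simp only [LinearMap.add_apply, LinearMap.sub_apply, LinearMap.smul_apply, LinearMap.proj_apply,
    smul_eq_mul]
  exact h3

private theorem qmp_pair {M : ℕ} {i j : Fin M} (hij : i ≠ j) :
    Measure.QuasiMeasurePreserving
      (fun q : Fin M → (Fin d → ℝ) × (Fin d → ℝ) => (q i, q j)) volume volume := by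
  classical
  have h1 := (volume_preserving_piEquivPiSubtypeProd
    (fun _ : Fin M => (Fin d → ℝ) × (Fin d → ℝ)) (fun k => k = i)).quasiMeasurePreserving
  have h2 : Measure.QuasiMeasurePreserving
      (fun q : {k // k = i} → (Fin d → ℝ) × (Fin d → ℝ) => q ⟨i, rfl⟩) volume volume :=
    Measure.quasiMeasurePreserving_eval (fun _ => volume) (⟨i, rfl⟩ : {k // k = i})
  have h3 : Measure.QuasiMeasurePreserving
      (fun q : {k // ¬ k = i} → (Fin d → ℝ) × (Fin d → ℝ) => q ⟨j, hij.symm⟩) volume volume :=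
    Measure.quasiMeasurePreserving_eval (fun _ => volume) (⟨j, hij.symm⟩ : {k // ¬ k = i})
  have h4 := MeasureTheory.QuasiMeasurePreserving.prodMap h2 h3
  rw [← Measure.volume_eq_prod, ← Measure.volume_eq_prod] at h4
  have e : Fintype.subtypeEq i = (Subtype.fintype fun k : Fin M => k = i) := Subsingleton.elim _ _
  rw [e] at h4
  exact h4.comp h1

theorem Z_ae (hd : 3 ≤ d) (a L z ℓ : ℝ) (N : ℕ) :
    Z d a L z ℓ N = ((N.factorial : ℝ))⁻¹ * ∑' M : ℕ, (z / kap d) ^ M / M.factorial *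
      volume.real {p : (Fin N → Fin d → ℝ) × (Fin M → (Fin d → ℝ) × (Fin d → ℝ)) |
        (∀ i, p.1 i ∈ Box d ℓ) ∧ (∀ j, (p.2 j).1 ∈ Box d ℓ ∧ ∑ k, (p.2 j).2 k ^ 2 ≤ 1) ∧
        (∀ i j, i ≠ j → (2 * a) ^ 2 ≤ ∑ k, (p.1 i k - p.1 j k) ^ 2) ∧
        ∀ i j, ¬ Hit a L (p.1 i) (p.2 j).1 (p.2 j).2} := by
  obtain ⟨i0, hi0⟩ : ∃ i0 : Fin d, i0 = ⟨0, by omega⟩ := ⟨_, rfl⟩
  obtain ⟨i1, hi1⟩ : ∃ i1 : Fin d, i1 = ⟨1, by omega⟩ := ⟨_, rfl⟩
  obtain ⟨i2, hi2⟩ : ∃ i2 : Fin d, i2 = ⟨2, by omega⟩ := ⟨_, rfl⟩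
  have h01 : i0 ≠ i1 := by rw [hi0, hi1]; intro h; simp at h
  have h02 : i0 ≠ i2 := by rw [hi0, hi2]; intro h; simp at h
  have h12 : i1 ≠ i2 := by rw [hi1, hi2]; intro h; simp at h
  unfold Z
  congr 1
  refine tsum_congr fun M => ?_
  congr 1
  refine measureReal_congr ?_
  have hall : ∀ᵐ p : (Fin N → Fin d → ℝ) × (Fin M → (Fin d → ℝ) × (Fin d → ℝ)),
      ∀ i j : Fin M, i ≠ j → Dt i0 i1 i2 (p.2 i) (p.2 j) ≠ 0 := by
    rw [ae_all_iff]
    intro i
    rw [ae_all_iff]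
    intro j
    by_cases hij : i = j
    · exact Eventually.of_forall fun p h => absurd hij h
    · have h1 : ∀ᵐ q : Fin M → (Fin d → ℝ) × (Fin d → ℝ), Dt i0 i1 i2 (q i) (q j) ≠ 0 :=
        (qmp_pair hij).ae (Dt_ne i0 i1 i2 h01 h02 h12)
      have h2 : ∀ᵐ p : (Fin N → Fin d → ℝ) × (Fin M → (Fin d → ℝ) × (Fin d → ℝ)),
          Dt i0 i1 i2 (p.2 i) (p.2 j) ≠ 0 := by
        rw [Measure.volume_eq_prod]
        exact Measure.quasiMeasurePreserving_snd.ae h1
      filter_upwards [h2] with p hp _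
      exact hp
  filter_upwards [hall] with p hp
  apply propext
  constructor
  · rintro ⟨h1, h2, h3, h4, h5⟩
    exact ⟨h1, h2, h3, h4⟩
  · rintro ⟨h1, h2, h3, h4⟩
    refine ⟨h1, h2, h3, h4, ?_⟩
    intro i j hij s t _ _ heq
    exact hp i j hij (Dt_eq_zero i0 i1 i2 heq)

end Pool.Agent.Nbm
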