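import Pool.Agent.Lib.MP_09cbbd_ndm.BExp
import Pool.Agent.Lib.MP_09cbbd_ndm.BAe

/-!
# The link: the side of the spheres and needles

Row LKZ. From `Z_ae`: the volume is finite, bounded by `(ℓ ^ d) ^ N (ℓ ^ d kap) ^ M`, so the series
is summable and `ENNReal.ofReal` goes inside (`ENNReal.ofReal_tsum_of_nonneg`); the volume is the
integral of the indicator over the product, by Tonelli (`Measure.prod_apply_symm`,
`measurableSet_Hit2`) `∫⁻ q, (∏ j, chi (q j)) * ∫⁻ x in Cf .., ∏ i, mis q (x i)`; then exchange the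
two series.
-/

set_option autoImplicit false

namespace Pool.Agent.Nbm

open MeasureTheory Finset Filter Topology Pool.Agent.SquareWellGas Pool.Agent.SquareWell
  Pool.Agent.SquareWell.ModA Pool.Agent.ConfinedGas Pool.Agent.NeedleGas Pool.Agent.Ndl
open Pool.Agent.StableGas hiding tr
open Pool.Agent.Mix (Ct Sys Qr mem_Qr)
open Pool.Agent.Mix.ModX (tr mp_tr sq_tr)

variable {d : ℕ}

/-- the configurations of spheres and needles which do not meet -/
private def St (d : ℕ) (a L ℓ : ℝ) (N M : ℕ) :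
    Set ((Fin N → Fin d → ℝ) × (Fin M → (Fin d → ℝ) × (Fin d → ℝ))) :=
  {p | (∀ i, p.1 i ∈ Box d ℓ) ∧ (∀ j, (p.2 j).1 ∈ Box d ℓ ∧ ∑ k, (p.2 j).2 k ^ 2 ≤ 1) ∧
    (∀ i j, i ≠ j → (2 * a) ^ 2 ≤ ∑ k, (p.1 i k - p.1 j k) ^ 2) ∧
    ∀ i j, ¬ Hit a L (p.1 i) (p.2 j).1 (p.2 j).2}

private theorem meas_Cf (a ℓ : ℝ) (N : ℕ) :
    MeasurableSet (Cf (2 * a) (Fin N) (Box d ℓ) : Set (Fin N → Fin d → ℝ)) := by
  have e : (Cf (2 * a) (Fin N) (Box d ℓ) : Set (Fin N → Fin d → ℝ)) =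
      (⋂ i, {x | x i ∈ Box d ℓ}) ∩
        ⋂ i, ⋂ j, {x | i ≠ j → (2 * a) ^ 2 ≤ ConfinedGas.sq (x i) (x j)} := by
    ext x
    simp only [Cf, Set.mem_ofPred_eq, Set.mem_inter_iff, Set.mem_iInter]
  rw [e]
  refine (MeasurableSet.iInter fun i => (measurable_pi_apply i) (measurableSet_Box' ℓ)).inter
    (MeasurableSet.iInter fun i => MeasurableSet.iInter fun j => ?_)
  by_cases h : i = j
  · have : {x : Fin N → Fin d → ℝ | i ≠ j → (2 * a) ^ 2 ≤ ConfinedGas.sq (x i) (x j)} =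
        Set.univ := by
      ext x
      simp [h]
    rw [this]
    exact MeasurableSet.univ
  · have : {x : Fin N → Fin d → ℝ | i ≠ j → (2 * a) ^ 2 ≤ ConfinedGas.sq (x i) (x j)} =
        {x | (2 * a) ^ 2 ≤ ConfinedGas.sq (x i) (x j)} := by
      ext x
      simp [h]
    rw [this]
    refine measurableSet_le measurable_const ?_
    unfold ConfinedGas.sq
    fun_prop

/-- the indicator of the set -/
private noncomputable def Fn (d : ℕ) (a L ℓ : ℝ) (N M : ℕ)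
    (p : (Fin N → Fin d → ℝ) × (Fin M → (Fin d → ℝ) × (Fin d → ℝ))) : ENNReal :=
  (Cf (2 * a) (Fin N) (Box d ℓ)).indicator (1 : (Fin N → Fin d → ℝ) → ENNReal) p.1 *
    ((∏ j, chi d ℓ (p.2 j)) * ∏ i, mis a L p.2 (p.1 i))

private theorem meas_prodMis {L : ℝ} (hL : 0 < L) (a : ℝ) (N M : ℕ) :
    Measurable fun p : (Fin M → (Fin d → ℝ) × (Fin d → ℝ)) × (Fin N → Fin d → ℝ) =>
      ∏ i, mis a L p.1 (p.2 i) := by
  refine Finset.measurable_prod _ fun i _ => ?_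
  have h : Measurable fun p : (Fin M → (Fin d → ℝ) × (Fin d → ℝ)) × (Fin N → Fin d → ℝ) =>
      (p.1, p.2 i) := by fun_prop
  have h2 := (measurable_mis a hL M).comp h
  exact h2

private theorem meas_prodMis' {L : ℝ} (hL : 0 < L) (a : ℝ) (N M : ℕ) :
    Measurable fun p : (Fin N → Fin d → ℝ) × (Fin M → (Fin d → ℝ) × (Fin d → ℝ)) =>
      ∏ i, mis a L p.2 (p.1 i) := by
  have h : Measurable fun p : (Fin N → Fin d → ℝ) × (Fin M → (Fin d → ℝ) × (Fin d → ℝ)) =>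
      (p.2, p.1) := measurable_swap
  have h2 := (meas_prodMis hL a N M).comp h
  exact h2

private theorem meas_prodChi (d : ℕ) (ℓ : ℝ) (M : ℕ) :
    Measurable fun q : Fin M → (Fin d → ℝ) × (Fin d → ℝ) => ∏ j, chi d ℓ (q j) :=
  Finset.measurable_prod _ fun j _ => (measurable_chi d ℓ).comp (measurable_pi_apply j)

private theorem meas_Fn {L : ℝ} (hL : 0 < L) (a ℓ : ℝ) (N M : ℕ) :
    Measurable (Fn d a L ℓ N M) := by
  have h0 : Measurable ((Cf (2 * a) (Fin N) (Box d ℓ)).indicator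
      (1 : (Fin N → Fin d → ℝ) → ENNReal)) := measurable_one.indicator (meas_Cf a ℓ N)
  have h1 : Measurable fun p : (Fin N → Fin d → ℝ) × (Fin M → (Fin d → ℝ) × (Fin d → ℝ)) =>
      (Cf (2 * a) (Fin N) (Box d ℓ)).indicator (1 : (Fin N → Fin d → ℝ) → ENNReal) p.1 :=
    h0.comp measurable_fst
  have h2 : Measurable fun p : (Fin N → Fin d → ℝ) × (Fin M → (Fin d → ℝ) × (Fin d → ℝ)) =>
      ∏ j, chi d ℓ (p.2 j) := (meas_prodChi d ℓ M).comp measurable_snd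
  exact h1.mul (h2.mul (meas_prodMis' hL a N M))

private theorem Fn_eq (a L ℓ : ℝ) (N M : ℕ)
    (p : (Fin N → Fin d → ℝ) × (Fin M → (Fin d → ℝ) × (Fin d → ℝ))) :
    Fn d a L ℓ N M p = (St d a L ℓ N M).indicator 1 p := by
  classical
  by_cases hp : p ∈ St d a L ℓ N M
  · rw [Set.indicator_of_mem hp]
    obtain ⟨h1, h2, h3, h4⟩ := hp
    have e1 : (Cf (2 * a) (Fin N) (Box d ℓ)).indicator (1 : (Fin N → Fin d → ℝ) → ENNReal) p.1 = 1 :=
      Set.indicator_of_mem (show p.1 ∈ Cf (2 * a) (Fin N) (Box d ℓ) from ⟨h1, h3⟩) _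
    have e2 : ∏ j, chi d ℓ (p.2 j) = 1 := Finset.prod_eq_one fun j _ => by
      unfold chi
      rw [if_pos (h2 j)]
    have e3 : ∏ i, mis a L p.2 (p.1 i) = 1 := Finset.prod_eq_one fun i _ =>
      Finset.prod_eq_one fun j _ => if_neg (h4 i j)
    unfold Fn
    rw [e1, e2, e3]
    simp
  · rw [Set.indicator_of_notMem hp]
    by_contra hne
    refine hp ?_
    have h0 : (Cf (2 * a) (Fin N) (Box d ℓ)).indicator (1 : (Fin N → Fin d → ℝ) → ENNReal) p.1 ≠ 0 ∧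
        (∏ j, chi d ℓ (p.2 j)) ≠ 0 ∧ (∏ i, mis a L p.2 (p.1 i)) ≠ 0 := by
      unfold Fn at hne
      have h1 := left_ne_zero_of_mul hne
      have h2 := right_ne_zero_of_mul hne
      exact ⟨h1, left_ne_zero_of_mul h2, right_ne_zero_of_mul h2⟩
    obtain ⟨h1, h2, h3⟩ := h0
    have h1' : p.1 ∈ Cf (2 * a) (Fin N) (Box d ℓ) := by
      by_contra h
      exact h1 (Set.indicator_of_notMem h _)
    refine ⟨h1'.1, fun j => ?_, h1'.2, fun i j hij => ?_⟩
    · have h4 := Finset.prod_ne_zero_iff.1 h2 j (Finset.mem_univ j)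
      unfold chi at h4
      by_contra h
      exact h4 (if_neg h)
    · have h4 := Finset.prod_ne_zero_iff.1 (Finset.prod_ne_zero_iff.1 h3 i (Finset.mem_univ i)) j
        (Finset.mem_univ j)
      exact h4 (if_pos hij)

private theorem meas_St {L : ℝ} (hL : 0 < L) (a ℓ : ℝ) (N M : ℕ) :
    MeasurableSet (St d a L ℓ N M) := by
  have e : St d a L ℓ N M = Fn d a L ℓ N M ⁻¹' {0}ᶜ := by
    ext p
    rw [Set.mem_preimage, Set.mem_compl_singleton_iff, Fn_eq]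
    by_cases hp : p ∈ St d a L ℓ N M
    · simp [hp]
    · simp [hp]
  rw [e]
  exact meas_Fn hL a ℓ N M (measurableSet_singleton 0).compl

private theorem vol_eq_lint {L : ℝ} (hL : 0 < L) (a ℓ : ℝ) (N M : ℕ) :
    volume (St d a L ℓ N M) = ∫⁻ p, Fn d a L ℓ N M p := by
  rw [← lintegral_indicator_one (meas_St hL a ℓ N M)]
  exact lintegral_congr fun p => (Fn_eq a L ℓ N M p).symm

/-- the needles outside -/
private theorem vol_Q {L : ℝ} (hL : 0 < L) (a ℓ : ℝ) (N M : ℕ) :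
    volume (St d a L ℓ N M) = ∫⁻ q : Fin M → (Fin d → ℝ) × (Fin d → ℝ), (∏ j, chi d ℓ (q j)) *
      ∫⁻ x in Cf (2 * a) (Fin N) (Box d ℓ), ∏ i, mis a L q (x i) := by
  rw [vol_eq_lint hL, Measure.volume_eq_prod, lintegral_prod_symm' _ (meas_Fn hL a ℓ N M)]
  refine lintegral_congr fun q => ?_
  have hq : Measurable fun x : Fin N → Fin d → ℝ => (q, x) := measurable_prodMk_left
  have hm : Measurable fun x : Fin N → Fin d → ℝ => ∏ i, mis a L q (x i) := by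
    have h2 := (meas_prodMis hL a N M).comp hq
    exact h2
  rw [← lintegral_indicator (meas_Cf a ℓ N), ← lintegral_const_mul _
    (hm.indicator (meas_Cf a ℓ N))]
  refine lintegral_congr fun x => ?_
  unfold Fn
  by_cases hx : x ∈ (Cf (2 * a) (Fin N) (Box d ℓ) : Set (Fin N → Fin d → ℝ))
  · simp only [Set.indicator_of_mem hx, Pi.one_apply, one_mul]
  · simp only [Set.indicator_of_notMem hx, zero_mul, mul_zero]

open Classical in
private theorem prod_eq (a L ℓ : ℝ) {N M : ℕ} (x : Fin N → Fin d → ℝ)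
    (q : Fin M → (Fin d → ℝ) × (Fin d → ℝ)) :
    (∏ j, chi d ℓ (q j)) * ∏ i, mis a L q (x i) = ∏ j,
      (chi d ℓ (q j) * if ∃ y ∈ Set.range x, Hit a L y (q j).1 (q j).2 then 0 else 1) := by
  rw [Finset.prod_mul_distrib]
  congr 1
  unfold mis
  rw [Finset.prod_comm]
  refine Finset.prod_congr rfl fun j _ => ?_
  by_cases h : ∃ y ∈ Set.range x, Hit a L y (q j).1 (q j).2
  · rw [if_pos h]
    obtain ⟨_, ⟨i, rfl⟩, hi⟩ := h
    exact Finset.prod_eq_zero (Finset.mem_univ i) (if_pos hi)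
  · rw [if_neg h]
    refine Finset.prod_eq_one fun i _ => if_neg fun hi => h ⟨_, ⟨i, rfl⟩, hi⟩

open Classical in
/-- the spheres outside -/
private theorem vol_X {L : ℝ} (hL : 0 < L) (a ℓ : ℝ) (N M : ℕ) :
    volume (St d a L ℓ N M) = ∫⁻ x in Cf (2 * a) (Fin N) (Box d ℓ),
      ∫⁻ q : Fin M → (Fin d → ℝ) × (Fin d → ℝ), ∏ j,
        (chi d ℓ (q j) * if ∃ y ∈ Set.range x, Hit a L y (q j).1 (q j).2 then 0 else 1) := by
  rw [vol_eq_lint hL, Measure.volume_eq_prod,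
    lintegral_prod _ (meas_Fn hL a ℓ N M).aemeasurable, ← lintegral_indicator (meas_Cf a ℓ N)]
  refine lintegral_congr fun x => ?_
  by_cases hx : x ∈ (Cf (2 * a) (Fin N) (Box d ℓ) : Set (Fin N → Fin d → ℝ))
  · rw [Set.indicator_of_mem hx]
    refine lintegral_congr fun q => ?_
    unfold Fn
    simp only [Set.indicator_of_mem hx, Pi.one_apply, one_mul]
    exact prod_eq a L ℓ x q
  · rw [Set.indicator_of_notMem hx]
    have h0 : ∀ q, Fn d a L ℓ N M (x, q) = 0 := fun q => by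
      unfold Fn
      simp only [Set.indicator_of_notMem hx, zero_mul]
    simp only [h0, lintegral_zero]

/-- the volume of the positions of one needle -/
private theorem vol_le (a L ℓ : ℝ) (N M : ℕ) :
    volume (St d a L ℓ N M) ≤ volume (Cf (2 * a) (Fin N) (Box d ℓ) : Set (Fin N → Fin d → ℝ)) *
      (volume {q : (Fin d → ℝ) × (Fin d → ℝ) | q.1 ∈ Box d ℓ ∧ ∑ k, q.2 k ^ 2 ≤ 1}) ^ M := by
  have h1 : St d a L ℓ N M ⊆ (Cf (2 * a) (Fin N) (Box d ℓ)) ×ˢ (Set.pi Set.univ fun _ : Fin M =>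
      {q : (Fin d → ℝ) × (Fin d → ℝ) | q.1 ∈ Box d ℓ ∧ ∑ k, q.2 k ^ 2 ≤ 1}) := by
    rintro p ⟨h1, h2, h3, -⟩
    exact ⟨⟨h1, h3⟩, fun j _ => h2 j⟩
  refine (measure_mono h1).trans (le_of_eq ?_)
  rw [Measure.volume_eq_prod, Measure.prod_prod, volume_pi_pi]
  simp

private theorem vol_Box (ℓ : ℝ) : volume (Box d ℓ) ≠ ⊤ := by
  have h1 : Box d ℓ = Set.pi Set.univ fun _ : Fin d => Set.Ico (0 : ℝ) ℓ := by
    ext x
    simp [Box]
  rw [h1, volume_pi_pi]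
  exact ENNReal.prod_ne_top fun k _ => by simp

private theorem vol_Cf (a ℓ : ℝ) (N : ℕ) :
    volume (Cf (2 * a) (Fin N) (Box d ℓ) : Set (Fin N → Fin d → ℝ)) ≠ ⊤ := by
  have h1 : (Cf (2 * a) (Fin N) (Box d ℓ) : Set (Fin N → Fin d → ℝ)) ⊆
      Set.pi Set.univ fun _ : Fin N => Box d ℓ := fun x hx i _ => hx.1 i
  refine ne_top_of_le_ne_top ?_ (measure_mono h1)
  rw [volume_pi_pi]
  exact ENNReal.prod_ne_top fun k _ => vol_Box ℓ

private theorem vol_D (ℓ : ℝ) :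
    volume {q : (Fin d → ℝ) × (Fin d → ℝ) | q.1 ∈ Box d ℓ ∧ ∑ k, q.2 k ^ 2 ≤ 1} ≠ ⊤ := by
  have h1 := fv_ne (d := d) 1 1 ℓ ∅
  simpa using h1

/-- the series -/
private theorem Z_series (hd : 3 ≤ d) {a L ν ℓ : ℝ} (hν : 0 < ν) (N : ℕ) :
    ENNReal.ofReal (Z d a L ν ℓ N) = ((N.factorial : ENNReal))⁻¹ *
      ∑' M : ℕ, ENNReal.ofReal (ν / kap d) ^ M * ((M.factorial : ENNReal))⁻¹ *
        volume (St d a L ℓ N M) := by
  have hkap : 0 < kap d := kap_pos (by omega)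
  have hc : 0 ≤ ν / kap d := (div_pos hν hkap).le
  have hA := vol_Cf (d := d) a ℓ N
  have hD := vol_D (d := d) ℓ
  have hfin : ∀ M, volume (St d a L ℓ N M) ≠ ⊤ := fun M =>
    ne_top_of_le_ne_top (ENNReal.mul_ne_top hA (ENNReal.pow_ne_top hD)) (vol_le a L ℓ N M)
  have hZ := Z_ae hd a L ν ℓ N
  have hSt : ∀ M : ℕ, volume.real {p : (Fin N → Fin d → ℝ) ×
      (Fin M → (Fin d → ℝ) × (Fin d → ℝ)) |
        (∀ i, p.1 i ∈ Box d ℓ) ∧ (∀ j, (p.2 j).1 ∈ Box d ℓ ∧ ∑ k, (p.2 j).2 k ^ 2 ≤ 1) ∧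
        (∀ i j, i ≠ j → (2 * a) ^ 2 ≤ ∑ k, (p.1 i k - p.1 j k) ^ 2) ∧
        ∀ i j, ¬ Hit a L (p.1 i) (p.2 j).1 (p.2 j).2} = volume.real (St d a L ℓ N M) :=
    fun M => rfl
  simp only [hSt] at hZ
  have hle : ∀ M : ℕ, volume.real (St d a L ℓ N M) ≤
      (volume (Cf (2 * a) (Fin N) (Box d ℓ) : Set (Fin N → Fin d → ℝ))).toReal *
      (volume {q : (Fin d → ℝ) × (Fin d → ℝ) |
        q.1 ∈ Box d ℓ ∧ ∑ k, q.2 k ^ 2 ≤ 1}).toReal ^ M := by
    intro M
    rw [← ENNReal.toReal_pow, ← ENNReal.toReal_mul]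
    exact ENNReal.toReal_mono (ENNReal.mul_ne_top hA (ENNReal.pow_ne_top hD)) (vol_le a L ℓ N M)
  have hnn : ∀ M : ℕ, 0 ≤ (ν / kap d) ^ M / M.factorial * volume.real (St d a L ℓ N M) :=
    fun M => mul_nonneg (div_nonneg (pow_nonneg hc M) (Nat.cast_nonneg _)) measureReal_nonneg
  have hsum : Summable fun M : ℕ =>
      (ν / kap d) ^ M / M.factorial * volume.real (St d a L ℓ N M) := by
    set A := (volume (Cf (2 * a) (Fin N) (Box d ℓ) : Set (Fin N → Fin d → ℝ))).toReal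
    set D := (volume {q : (Fin d → ℝ) × (Fin d → ℝ) |
        q.1 ∈ Box d ℓ ∧ ∑ k, q.2 k ^ 2 ≤ 1}).toReal
    refine Summable.of_nonneg_of_le hnn (fun M => ?_)
      ((Real.summable_pow_div_factorial (ν / kap d * D)).mul_left A)
    calc (ν / kap d) ^ M / M.factorial * volume.real (St d a L ℓ N M)
        ≤ (ν / kap d) ^ M / M.factorial * (A * D ^ M) :=
          mul_le_mul_of_nonneg_left (hle M) (div_nonneg (pow_nonneg hc M) (Nat.cast_nonneg _))
      _ = A * ((ν / kap d * D) ^ M / M.factorial) := by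
          rw [mul_pow]
          ring
  rw [hZ, ENNReal.ofReal_mul (inv_nonneg.2 (Nat.cast_nonneg _)),
    ENNReal.ofReal_inv_of_pos (by exact_mod_cast N.factorial_pos), ENNReal.ofReal_natCast,
    ENNReal.ofReal_tsum_of_nonneg hnn hsum]
  congr 1
  refine tsum_congr fun M => ?_
  rw [ENNReal.ofReal_mul (div_nonneg (pow_nonneg hc M) (Nat.cast_nonneg _)),
    ENNReal.ofReal_div_of_pos (by exact_mod_cast M.factorial_pos), ENNReal.ofReal_pow hc,
    ENNReal.ofReal_natCast, ofReal_measureReal (hfin M), div_eq_mul_inv]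

private theorem ex_mul_nat (μ : ℝ) (k : ℕ) : ex (μ * k) = ex μ ^ k := by
  unfold ex
  rw [← ENNReal.ofReal_pow (Real.exp_pos _).le, ← Real.exp_nat_mul, mul_comm]

theorem link_Z (hd : 3 ≤ d) {a L ν ℓ : ℝ} (hL : 0 < L) (hν : 0 < ν) (hℓ : 0 ≤ ℓ) (μ : ℝ) :
    ∑' k : ℕ, ex (μ * k) * ENNReal.ofReal (Z d a L ν ℓ k) =
      ∑' M : ℕ, ENNReal.ofReal (ν / kap d) ^ M * ((M.factorial : ENNReal))⁻¹ *
        ∫⁻ q : Fin M → (Fin d → ℝ) × (Fin d → ℝ), (∏ j, chi d ℓ (q j)) *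
          ∑' k : ℕ, ((k.factorial : ENNReal))⁻¹ *
            ∫⁻ x in Cf (2 * a) (Fin k) (Box d ℓ), ∏ i, (ex μ * mis a L q (x i)) := by
  have hex : ex μ ≠ ⊤ := ENNReal.ofReal_ne_top
  have h1 : ∀ k : ℕ, ex (μ * k) * ENNReal.ofReal (Z d a L ν ℓ k) =
      ∑' M : ℕ, ENNReal.ofReal (ν / kap d) ^ M * ((M.factorial : ENNReal))⁻¹ *
        (ex μ ^ k * ((k.factorial : ENNReal))⁻¹ * volume (St d a L ℓ k M)) := by
    intro k
    rw [Z_series hd hν, ex_mul_nat, ← mul_assoc, ← ENNReal.tsum_mul_left]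
    exact tsum_congr fun M => by ring
  simp only [h1]
  rw [ENNReal.tsum_comm]
  refine tsum_congr fun M => ?_
  rw [ENNReal.tsum_mul_left]
  congr 1
  have hI : ∀ k : ℕ, Measurable fun q : Fin M → (Fin d → ℝ) × (Fin d → ℝ) =>
      ∫⁻ x in Cf (2 * a) (Fin k) (Box d ℓ), ∏ i, mis a L q (x i) := fun k =>
    Measurable.lintegral_prod_right' (meas_prodMis hL a k M)
  have h2 : ∀ (q : Fin M → (Fin d → ℝ) × (Fin d → ℝ)) (k : ℕ),
      ∫⁻ x in Cf (2 * a) (Fin k) (Box d ℓ), ∏ i, (ex μ * mis a L q (x i)) =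
        ex μ ^ k * ∫⁻ x in Cf (2 * a) (Fin k) (Box d ℓ), ∏ i, mis a L q (x i) := by
    intro q k
    rw [← lintegral_const_mul' _ _ (ENNReal.pow_ne_top hex)]
    refine lintegral_congr fun x => ?_
    rw [Finset.prod_mul_distrib, Finset.prod_const, Finset.card_univ, Fintype.card_fin]
  simp only [h2]
  have h3 : ∀ q : Fin M → (Fin d → ℝ) × (Fin d → ℝ), (∏ j, chi d ℓ (q j)) *
      ∑' k : ℕ, ((k.factorial : ENNReal))⁻¹ * (ex μ ^ k *
        ∫⁻ x in Cf (2 * a) (Fin k) (Box d ℓ), ∏ i, mis a L q (x i)) =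
      ∑' k : ℕ, ex μ ^ k * ((k.factorial : ENNReal))⁻¹ * ((∏ j, chi d ℓ (q j)) *
        ∫⁻ x in Cf (2 * a) (Fin k) (Box d ℓ), ∏ i, mis a L q (x i)) := by
    intro q
    rw [← ENNReal.tsum_mul_left]
    exact tsum_congr fun k => by ring
  simp only [h3]
  have hJ : ∀ k : ℕ, Measurable fun q : Fin M → (Fin d → ℝ) × (Fin d → ℝ) =>
      (∏ j, chi d ℓ (q j)) *
        ∫⁻ x in Cf (2 * a) (Fin k) (Box d ℓ), ∏ i, mis a L q (x i) := fun k =>
    (meas_prodChi d ℓ M).mul (hI k)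
  have hJ' : ∀ k : ℕ, AEMeasurable (fun q : Fin M → (Fin d → ℝ) × (Fin d → ℝ) =>
      ex μ ^ k * ((k.factorial : ENNReal))⁻¹ * ((∏ j, chi d ℓ (q j)) *
        ∫⁻ x in Cf (2 * a) (Fin k) (Box d ℓ), ∏ i, mis a L q (x i))) volume := fun k =>
    ((hJ k).const_mul _).aemeasurable
  rw [lintegral_tsum hJ']
  refine tsum_congr fun k => ?_
  rw [lintegral_const_mul _ (hJ k), ← vol_Q hL]

/-- The partition function as an integral over the spheres. -/
theorem Z_fv (hd : 3 ≤ d) {a L ν ℓ : ℝ} (hL : 0 < L) (hν : 0 < ν) (hℓ : 0 ≤ ℓ) (N : ℕ) :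
    ENNReal.ofReal (Z d a L ν ℓ N) = ((N.factorial : ENNReal))⁻¹ *
      ∫⁻ x in Cf (2 * a) (Fin N) (Box d ℓ), ex (ν / kap d * fv d a L ℓ (Set.range x)) := by
  classical
  have hkap : 0 < kap d := kap_pos (by omega)
  have hc : 0 ≤ ν / kap d := (div_pos hν hkap).le
  rw [Z_series hd hν]
  congr 1
  have h1 : ∀ x : Fin N → Fin d → ℝ, ex (ν / kap d * fv d a L ℓ (Set.range x)) = _ := fun x =>
    exp_fv hL hc (Set.countable_range x)
  simp only [h1]
  rw [lintegral_tsum]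
  · refine tsum_congr fun M => ?_
    rw [vol_X hL, lintegral_const_mul']
    exact ENNReal.mul_ne_top (ENNReal.pow_ne_top ENNReal.ofReal_ne_top)
      (ENNReal.inv_ne_top.2 (by exact_mod_cast M.factorial_ne_zero))
  · intro M
    simp only [← prod_eq]
    refine (Measurable.const_mul ?_ _).aemeasurable
    refine Measurable.lintegral_prod_right' (f := fun p : (Fin N → Fin d → ℝ) ×
      (Fin M → (Fin d → ℝ) × (Fin d → ℝ)) => (∏ j, chi d ℓ (p.2 j)) * ∏ i, mis a L p.2 (p.1 i)) ?_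
    have h2 : Measurable fun p : (Fin N → Fin d → ℝ) × (Fin M → (Fin d → ℝ) × (Fin d → ℝ)) =>
        ∏ j, chi d ℓ (p.2 j) := (meas_prodChi d ℓ M).comp measurable_snd
    exact h2.mul (meas_prodMis' hL a N M)

end Pool.Agent.Nbm
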