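import Pool.Agent.Lib.MP_09cbbd_ndm.BMod

/-!
# The geometric facts for the model

Row GEO. From `GeoS` with `S = Pts (K * l) ω`, `phi_eq`; for `own y` the configuration is `y` in the
block `0` and `e0` elsewhere.
-/

set_option autoImplicit false

namespace Pool.Agent.Nbm

open MeasureTheory Finset Filter Topology Pool.Agent.SquareWellGas Pool.Agent.SquareWell
  Pool.Agent.SquareWell.ModA Pool.Agent.ConfinedGas Pool.Agent.NeedleGas Pool.Agent.Ndl
open Pool.Agent.StableGas hiding tr
open Pool.Agent.Mix (Ct Sys Qr mem_Qr)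
open Pool.Agent.Mix.ModX (tr mp_tr sq_tr)

variable {d : ℕ}

theorem geo_of {K : ℕ} {a l x c C ε : ℝ} (H : Cel d K a l) (G : GeoS d K a l x c C ε) :
    Geo (cellNx H) (oc K l) K x c C ε := by
  have e1 : ∀ y : Cn d, (oc K l y : ℝ) / (K : ℝ) ^ d =
      phi K l (Pts (K * l) fun v : Zd d => if v = 0 then y else e0) 0 := by
    intro y
    rw [phi_eq H]
    simp
  have e2 : ∀ y : Cn d, (cellNx H).own y = free d a (16 * d * (K * l)) (K * l)
      (Pts (K * l) fun v : Zd d => if v = 0 then y else e0) := fun y => rfl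
  have e3 : ∀ ω : Zd d → Cn d, (cellNx H).Φ ω =
      free d a (16 * d * (K * l)) (K * l) (Pts (K * l) ω) := fun ω => rfl
  constructor
  · intro y
    rw [e1, e2]
    exact G.P0 _
  · intro y h1 h2
    rw [e1] at h1 h2 ⊢
    rw [e2]
    exact G.P1 _ h1 h2
  · intro ω h1 h2
    rw [e3]
    refine G.P2 _ ?_ ?_
    · rw [phi_eq H]
      exact h1
    · obtain ⟨b, hb, h3⟩ := h2
      refine ⟨b, hb, ?_⟩
      rw [phi_eq H]
      exact h3
  · intro ω h1
    rw [e3]
    refine G.P4 _ fun b hb => ?_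
    rw [phi_eq H]
    exact h1 b hb

end Pool.Agent.Nbm
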