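import Pool.Agent.Lib.MP_09cbbd_ndm.BPH

/-!
# The pressure of the pure hard spheres: properties

Row HSP. `PH` is a supremum of the functions `log (XH s) / (s + 2 a) ^ d`, which are convex
(`XH_convex`) and monotone in `μ` and bounded by `exp μ`; `XH_ge` with `s = 1` gives
`μ / (1 + 2 a) ^ d ≤ PH μ`.
-/

set_option autoImplicit false

namespace Pool.Agent.Nbm

open MeasureTheory Finset Filter Topology Pool.Agent.SquareWellGas Pool.Agent.SquareWell
  Pool.Agent.SquareWell.ModA Pool.Agent.ConfinedGas Pool.Agent.NeedleGas Pool.Agent.Ndl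
open Pool.Agent.StableGas hiding tr
open Pool.Agent.Mix (Ct Sys Qr mem_Qr)
open Pool.Agent.Mix.ModX (tr mp_tr sq_tr)

variable {d : ℕ}

private theorem lg_le {x : ENNReal} {t : ℝ} (h0 : 1 ≤ x) (h1 : x ≤ ex t) :
    Real.log x.toReal ≤ t := by
  have hne : x ≠ ⊤ := ne_top_of_le_ne_top (ex_ne_top t) h1
  have h2 : 0 < x.toReal := ENNReal.toReal_pos (fun h => by simp [h] at h0) hne
  have h3 := ENNReal.toReal_mono (ex_ne_top t) h1
  rw [ex_toReal] at h3
  exact (Real.log_le_iff_le_exp h2).2 h3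

/-- The function of which `PH` is the supremum. -/
private noncomputable def gg (d : ℕ) (a : ℝ) (s : Set.Ioi (0 : ℝ)) (μ : ℝ) : ℝ :=
  Real.log (XH d a μ s).toReal / ((s : ℝ) + 2 * a) ^ d

private theorem gg_le {a : ℝ} (ha : 0 < a) (s : Set.Ioi (0 : ℝ)) (μ : ℝ) :
    gg d a s μ ≤ Real.exp μ := by
  have hs : (0 : ℝ) < s := s.2
  have h1 : Real.log (XH d a μ s).toReal ≤ Real.exp μ * (s : ℝ) ^ d :=
    lg_le (one_le_XH a μ s) (XH_le a μ hs.le)
  unfold gg
  rw [div_le_iff₀ (by positivity)]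
  refine h1.trans (mul_le_mul_of_nonneg_left ?_ (Real.exp_pos μ).le)
  exact pow_le_pow_left₀ hs.le (by linarith) d

private theorem gg_bdd {a : ℝ} (ha : 0 < a) (μ : ℝ) :
    BddAbove (Set.range fun s : Set.Ioi (0 : ℝ) => gg d a s μ) :=
  ⟨Real.exp μ, by rintro _ ⟨s, rfl⟩; exact gg_le ha s μ⟩

private theorem PH_eq (a μ : ℝ) : PH d a μ = ⨆ s : Set.Ioi (0 : ℝ), gg d a s μ := rfl

private theorem le_PH {a : ℝ} (ha : 0 < a) (s : Set.Ioi (0 : ℝ)) (μ : ℝ) :
    gg d a s μ ≤ PH d a μ := le_ciSup (gg_bdd (d := d) ha μ) s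

theorem hsp (hd : 1 ≤ d) {a : ℝ} (ha : 0 < a) : HSP (PH d a) := by
  have hne : Nonempty (Set.Ioi (0 : ℝ)) := ⟨⟨1, Set.mem_Ioi.2 one_pos⟩⟩
  constructor
  · refine ⟨convex_univ, ?_⟩
    intro x _ y _ u v hu hv huv
    rw [PH_eq]
    refine ciSup_le fun s => ?_
    have hs : (0 : ℝ) < s := s.2
    have h1 := (XH_convex hd ha (s : ℝ)).2 (Set.mem_univ x) (Set.mem_univ y) hu hv huv
    have hc : (0 : ℝ) < ((s : ℝ) + 2 * a) ^ d := by positivity
    have h2 : gg d a s (u • x + v • y) ≤ u * gg d a s x + v * gg d a s y := by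
      unfold gg
      rw [div_le_iff₀ hc]
      refine h1.trans (le_of_eq ?_)
      simp only [smul_eq_mul]
      field_simp
    refine h2.trans ?_
    simp only [smul_eq_mul]
    exact add_le_add (mul_le_mul_of_nonneg_left (le_PH ha s x) hu)
      (mul_le_mul_of_nonneg_left (le_PH ha s y) hv)
  · intro x y hxy
    rw [PH_eq]
    refine ciSup_le fun s => le_trans ?_ (le_PH ha s y)
    have hs : (0 : ℝ) < s := s.2
    unfold gg
    refine div_le_div_of_nonneg_right ?_ (by positivity)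
    refine Real.log_le_log ?_ (ENNReal.toReal_mono (XH_ne_top a y s) (XH_mono hxy le_rfl))
    refine ENNReal.toReal_pos (fun h => ?_) (XH_ne_top a x s)
    have := one_le_XH (d := d) a x s
    simp [h] at this
  · exact fun μ => PH_nonneg ha μ
  · intro μ
    rw [PH_eq]
    exact ciSup_le fun s => gg_le ha s μ
  · have hc : (0 : ℝ) < (1 + 2 * a) ^ d := by positivity
    have h1 : ∀ μ, μ / (1 + 2 * a) ^ d ≤ PH d a μ := by
      intro μ
      refine le_trans ?_ (le_PH ha ⟨1, Set.mem_Ioi.2 one_pos⟩ μ)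
      unfold gg
      refine div_le_div_of_nonneg_right ?_ hc.le
      have h2 := XH_ge (d := d) a μ (s := 1) zero_le_one
      simp only [ENNReal.ofReal_one, one_pow, mul_one] at h2
      have h3 := ENNReal.toReal_mono (XH_ne_top a μ 1) h2
      rw [ex_toReal] at h3
      rw [Real.le_log_iff_exp_le (lt_of_lt_of_le (Real.exp_pos μ) h3)]
      exact h3
    exact tendsto_atTop_mono h1 (tendsto_id.atTop_div_const hc)

end Pool.Agent.Nbm
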