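import Pool.Agent.Lib.MP_09cbbd_ndm.BHit
import Pool.Agent.Lib.MP_09cbbd_mx.CanA

/-!
# The needles are an ideal gas

Row EXP. `ex (c * fv)` is the exponential series (`CanM.tsum_exp` of `MP_09cbbd_mx/CanA.lean`) and
`volume {q | free} ^ M` is the integral of the product of the indicators over `Fin M → _`
(`lintegral_fin_nat_prod_eq_prod` or `Measure.pi_pi`). `S` countable makes the set of the free
positions measurable (`measurableSet_Hit2`).
-/

set_option autoImplicit false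

namespace Pool.Agent.Nbm

open MeasureTheory Finset Filter Topology Pool.Agent.SquareWellGas Pool.Agent.SquareWell
  Pool.Agent.SquareWell.ModA Pool.Agent.ConfinedGas Pool.Agent.NeedleGas Pool.Agent.Ndl
open Pool.Agent.StableGas hiding tr
open Pool.Agent.Mix (Ct Sys Qr mem_Qr)
open Pool.Agent.Mix.ModX (tr mp_tr sq_tr)

variable {d : ℕ}

private theorem volBox (ℓ : ℝ) : volume (Box d ℓ) ≠ ⊤ := by
  have e : Box d ℓ = Set.pi Set.univ fun _ => Set.Ico (0 : ℝ) ℓ := by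
    ext x
    simp [Box]
  rw [e, volume_pi_pi]
  simp only [Real.volume_Ico, Finset.prod_const]
  exact ENNReal.pow_ne_top ENNReal.ofReal_ne_top

private theorem fv_ne' (a L ℓ : ℝ) (S : Set (Fin d → ℝ)) :
    volume {q : (Fin d → ℝ) × (Fin d → ℝ) | q.1 ∈ Box d ℓ ∧ ∑ k, q.2 k ^ 2 ≤ 1 ∧
      ∀ x ∈ S, ¬ Hit a L x q.1 q.2} ≠ ⊤ := by
  have h : {q : (Fin d → ℝ) × (Fin d → ℝ) | q.1 ∈ Box d ℓ ∧ ∑ k, q.2 k ^ 2 ≤ 1 ∧
      ∀ x ∈ S, ¬ Hit a L x q.1 q.2} ⊆ Box d ℓ ×ˢ {g : Fin d → ℝ | ∑ k, g k ^ 2 ≤ 1} :=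
    fun q hq => ⟨hq.1, hq.2.1⟩
  refine ne_top_of_le_ne_top ?_ (measure_mono h)
  rw [Measure.volume_eq_prod, Measure.prod_prod]
  exact ENNReal.mul_ne_top (volBox ℓ) kap_ne

private theorem meas_free {a L ℓ : ℝ} (hL : 0 < L) {S : Set (Fin d → ℝ)} (hS : S.Countable) :
    MeasurableSet {q : (Fin d → ℝ) × (Fin d → ℝ) | q.1 ∈ Box d ℓ ∧ ∑ k, q.2 k ^ 2 ≤ 1 ∧
      ∀ x ∈ S, ¬ Hit a L x q.1 q.2} := by
  have e : {q : (Fin d → ℝ) × (Fin d → ℝ) | q.1 ∈ Box d ℓ ∧ ∑ k, q.2 k ^ 2 ≤ 1 ∧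
      ∀ x ∈ S, ¬ Hit a L x q.1 q.2} = (Prod.fst ⁻¹' Box d ℓ) ∩ (Prod.snd ⁻¹' {g : Fin d → ℝ | ∑ k, g k ^ 2 ≤ 1}) ∩
        ⋂ x ∈ S, ((fun q : (Fin d → ℝ) × (Fin d → ℝ) => (x, q)) ⁻¹'
          {p : (Fin d → ℝ) × ((Fin d → ℝ) × (Fin d → ℝ)) | Hit a L p.1 p.2.1 p.2.2})ᶜ := by
    ext q
    simp only [Set.mem_ofPred_eq, Set.mem_inter_iff, Set.mem_preimage, Set.mem_iInter, Set.mem_compl_iff]
    tauto
  rw [e]
  refine ((measurable_fst (measurableSet_Box' ℓ)).inter (measurable_snd measurableSet_ball1)).inter ?_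
  refine MeasurableSet.biInter hS fun x _ => ?_
  exact ((measurable_const.prodMk measurable_id) (measurableSet_Hit2 hL a)).compl

open Classical in
theorem exp_fv {a L ℓ c : ℝ} (hL : 0 < L) (hc : 0 ≤ c) {S : Set (Fin d → ℝ)} (hS : S.Countable) :
    ex (c * fv d a L ℓ S) = ∑' M : ℕ, ENNReal.ofReal c ^ M * ((M.factorial : ENNReal))⁻¹ *
      ∫⁻ q : Fin M → (Fin d → ℝ) × (Fin d → ℝ), ∏ j,
        (chi d ℓ (q j) * if ∃ x ∈ S, Hit a L x (q j).1 (q j).2 then 0 else 1) := by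
  set F : Set ((Fin d → ℝ) × (Fin d → ℝ)) := {q | q.1 ∈ Box d ℓ ∧ ∑ k, q.2 k ^ 2 ≤ 1 ∧
      ∀ x ∈ S, ¬ Hit a L x q.1 q.2} with hF
  have hFm : MeasurableSet F := meas_free hL hS
  have hFt : volume F ≠ ⊤ := fv_ne' a L ℓ S
  have h1 : ENNReal.ofReal c * volume F ≠ ⊤ := ENNReal.mul_ne_top ENNReal.ofReal_ne_top hFt
  have h2 : (ENNReal.ofReal c * volume F).toReal = c * fv d a L ℓ S := by
    rw [ENNReal.toReal_mul, ENNReal.toReal_ofReal hc]
    rfl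
  rw [← h2, ← Pool.Agent.Mix.CanM.tsum_exp h1]
  refine tsum_congr fun M => ?_
  have h3 : ∀ q : (Fin d → ℝ) × (Fin d → ℝ),
      (chi d ℓ q * if ∃ x ∈ S, Hit a L x q.1 q.2 then 0 else 1) = F.indicator 1 q := by
    intro q
    by_cases hq : q ∈ F
    · rw [Set.indicator_of_mem hq]
      have h4 : ¬ ∃ x ∈ S, Hit a L x q.1 q.2 := by
        rintro ⟨x, hx, hx'⟩
        exact hq.2.2 x hx hx'
      unfold chi
      rw [if_pos ⟨hq.1, hq.2.1⟩, if_neg h4]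
      simp
    · rw [Set.indicator_of_notMem hq]
      by_cases h5 : ∃ x ∈ S, Hit a L x q.1 q.2
      · rw [if_pos h5, mul_zero]
      · have h6 : ¬ (q.1 ∈ Box d ℓ ∧ ∑ k, q.2 k ^ 2 ≤ 1) := by
          rintro ⟨h7, h8⟩
          exact hq ⟨h7, h8, fun x hx hx' => h5 ⟨x, hx, hx'⟩⟩
        unfold chi
        rw [if_neg h6, zero_mul]
  have h4 : ∀ q : Fin M → (Fin d → ℝ) × (Fin d → ℝ),
      (∏ j, (chi d ℓ (q j) * if ∃ x ∈ S, Hit a L x (q j).1 (q j).2 then 0 else 1)) =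
        (Set.pi Set.univ fun _ : Fin M => F).indicator 1 q := by
    intro q
    rw [Finset.prod_congr rfl fun j _ => h3 (q j)]
    by_cases hq : q ∈ Set.pi Set.univ fun _ : Fin M => F
    · rw [Set.indicator_of_mem hq]
      refine Finset.prod_eq_one fun j _ => ?_
      rw [Set.indicator_of_mem (hq j (Set.mem_univ j))]
      rfl
    · rw [Set.indicator_of_notMem hq]
      simp only [Set.mem_pi, Set.mem_univ, true_imp_iff, not_forall] at hq
      obtain ⟨j, hj⟩ := hq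
      exact Finset.prod_eq_zero (Finset.mem_univ j) (Set.indicator_of_notMem hj _)
  rw [lintegral_congr h4, lintegral_indicator_one (MeasurableSet.univ_pi fun _ => hFm), volume_pi_pi,
    Finset.prod_const, Finset.card_univ, Fintype.card_fin, mul_pow]
  ring

theorem measurable_chi (d : ℕ) (ℓ : ℝ) : Measurable (chi d ℓ) := by
  classical
  unfold chi
  refine Measurable.ite ?_ measurable_const measurable_const
  exact (measurable_fst (measurableSet_Box' ℓ)).inter (measurable_snd measurableSet_ball1)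

theorem measurable_mis (a : ℝ) {L : ℝ} (hL : 0 < L) (M : ℕ) :
    Measurable fun p : (Fin M → (Fin d → ℝ) × (Fin d → ℝ)) × (Fin d → ℝ) => mis a L p.1 p.2 := by
  classical
  unfold mis
  refine Finset.measurable_prod _ fun j _ => ?_
  refine Measurable.ite ?_ measurable_const measurable_const
  have h : Measurable fun p : (Fin M → (Fin d → ℝ) × (Fin d → ℝ)) × (Fin d → ℝ) => (p.2, p.1 j) :=
    measurable_snd.prodMk ((measurable_pi_apply j).comp measurable_fst)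
  exact h (measurableSet_Hit2 hL a)

theorem fv_ne (a L ℓ : ℝ) (S : Set (Fin d → ℝ)) :
    volume {q : (Fin d → ℝ) × (Fin d → ℝ) | q.1 ∈ Box d ℓ ∧ ∑ k, q.2 k ^ 2 ≤ 1 ∧
      ∀ x ∈ S, ¬ Hit a L x q.1 q.2} ≠ ⊤ := fv_ne' a L ℓ S

end Pool.Agent.Nbm
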