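import Pool.Agent.Lib.MP_09cbbd_ndm.BSum
import Pool.Agent.Lib.MP_09cbbd_ndm.BExp

/-!
# The link: the side of the blocks

Row LKT. For valid contents (almost all, `ae_Vx`, see `link0` in `MP_09cbbd_mx/Mod.lean`),
`st (NN μ) x = Ct.cp x (fun _ => ex μ)` and, by `sum_Fr` and `exp_fv` with `c = ν / kap d`,
`S = PtsA` (countable),
`ex (∑ i, ν h ^ d * Fr i) = ∑' M, c ^ M / M! * ∫⁻ q, ∏ j, chi (q j) * (if some sphere meets q j then
0 else 1)`, and the last product is `∏ i ∈ bx d n, Ct.cp (ω i) (fun y => mis a L q (tr h i y))` for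
valid contents. Then exchange the sum, the integral over `q` and the `lmarginal` (Tonelli,
`lintegral_tsum`, `lintegral_lintegral_swap`; the measurability of
`(q, ω) ↦ ∏ i, Ct.cp (ω i) ..` is `Ct.measurable_cp`).
-/

set_option autoImplicit false

namespace Pool.Agent.Nbm

open MeasureTheory Finset Filter Topology Pool.Agent.SquareWellGas Pool.Agent.SquareWell
  Pool.Agent.SquareWell.ModA Pool.Agent.ConfinedGas Pool.Agent.NeedleGas Pool.Agent.Ndl
open Pool.Agent.StableGas hiding tr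
open Pool.Agent.Mix (Ct Sys Qr mem_Qr)
open Pool.Agent.Mix.ModX (tr mp_tr sq_tr)

variable {d : ℕ}

open Classical in
private theorem prod_hit {a L h : ℝ} {A : Finset (Zd d)} {M : ℕ}
    (q : Fin M → (Fin d → ℝ) × (Fin d → ℝ)) {ω : Zd d → Cn d} (hω : ∀ i ∈ A, Vx a h (ω i)) :
    (∏ j, if ∃ x ∈ PtsA h A ω, Hit a L x (q j).1 (q j).2 then (0 : ENNReal) else 1) =
      ∏ i ∈ A, Ct.cp (ω i) fun y => mis a L q (tr h i y) := by
  by_cases hh : ∃ j, ∃ x ∈ PtsA h A ω, Hit a L x (q j).1 (q j).2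
  · obtain ⟨j, hj⟩ := hh
    have h1 : (∏ j, if ∃ x ∈ PtsA h A ω, Hit a L x (q j).1 (q j).2 then (0 : ENNReal) else 1) =
        0 := prod_eq_zero (mem_univ j) (if_pos hj)
    rw [h1]
    symm
    obtain ⟨x, ⟨v, hv, k, hk, hb, rfl⟩, hx⟩ := hj
    refine prod_eq_zero hv ?_
    unfold Ct.cp
    refine prod_eq_zero (mem_range.2 hk) ?_
    unfold mis
    exact prod_eq_zero (mem_univ j) (if_pos hx)
  · push Not at hh
    rw [prod_eq_one fun j _ => ?_, prod_eq_one fun i hi => ?_]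
    · unfold Ct.cp
      refine prod_eq_one fun k hk => ?_
      rw [mem_range] at hk
      unfold mis
      refine prod_eq_one fun j _ => ?_
      rw [if_neg]
      exact hh j _ ⟨i, hi, k, hk, (hω i hi).1 k hk, rfl⟩
    · rw [if_neg]
      push Not
      exact hh j

private theorem countable_PtsA (h : ℝ) (A : Finset (Zd d)) (ω : Zd d → Cn d) :
    (PtsA h A ω).Countable := by
  refine Set.Countable.mono ?_ (Set.countable_range
    (fun p : Zd d × ℕ => tr h p.1 ((ω p.1).2 p.2)))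
  rintro y ⟨v, _, k, _, _, rfl⟩
  exact ⟨(v, k), rfl⟩

private theorem meas_a (a : ℝ) {L : ℝ} (hL : 0 < L) (h : ℝ) (M : ℕ) (i : Zd d) :
    Measurable fun p : (Fin M → (Fin d → ℝ) × (Fin d → ℝ)) × (Fin d → ℝ) =>
      mis a L p.1 (tr h i p.2) := by
  have h1 : Measurable fun p : (Fin M → (Fin d → ℝ) × (Fin d → ℝ)) × (Fin d → ℝ) =>
      (p.1, tr h i p.2) := measurable_fst.prodMk ((mp_tr h i).measurable.comp measurable_snd)
  have h3 := (measurable_mis a hL M).comp h1
  exact h3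

private theorem meas_b (a : ℝ) {L : ℝ} (hL : 0 < L) (h μ : ℝ) (M : ℕ) (i : Zd d) :
    Measurable fun p : (Fin M → (Fin d → ℝ) × (Fin d → ℝ)) × (Fin d → ℝ) =>
      ex μ * mis a L p.1 (tr h i p.2) :=
  (meas_a a hL h M i).const_mul (ex μ)

private theorem meas_c (a : ℝ) {L : ℝ} (hL : 0 < L) (h μ : ℝ) (M : ℕ) (i : Zd d) :
    Measurable fun p : (Fin M → (Fin d → ℝ) × (Fin d → ℝ)) × Cn d =>
      Ct.cp p.2 fun y => ex μ * mis a L p.1 (tr h i y) := by
  have h1 := Ct.measurable_cp (Y := Fin M → (Fin d → ℝ) × (Fin d → ℝ))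
    (φ := fun q y => ex μ * mis a L q (tr h i y)) (meas_b a hL h μ M i)
  exact h1

private theorem meas_d (a : ℝ) {L : ℝ} (hL : 0 < L) (h μ : ℝ) (M : ℕ) (i : Zd d) :
    Measurable fun p : (Fin M → (Fin d → ℝ) × (Fin d → ℝ)) × (Zd d → Cn d) =>
      Ct.cp (p.2 i) fun y => ex μ * mis a L p.1 (tr h i y) := by
  have h2 : Measurable fun p : (Fin M → (Fin d → ℝ) × (Fin d → ℝ)) × (Zd d → Cn d) =>
      (p.1, p.2 i) := measurable_fst.prodMk ((measurable_pi_apply i).comp measurable_snd)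
  have h3 := (meas_c a hL h μ M i).comp h2
  exact h3

private theorem meas_e (s : ℝ) (M : ℕ) (j : Fin M) :
    Measurable fun p : (Fin M → (Fin d → ℝ) × (Fin d → ℝ)) × (Zd d → Cn d) =>
      chi d s (p.1 j) := by
  have h0 : Measurable fun p : (Fin M → (Fin d → ℝ) × (Fin d → ℝ)) × (Zd d → Cn d) => p.1 j :=
    (measurable_pi_apply j).comp measurable_fst
  exact (measurable_chi d s).comp h0

open Classical in
private theorem meas_f {K : ℕ} {a l : ℝ} (H : Cel d K a l) (M n : ℕ) :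
    Measurable fun p : (Fin M → (Fin d → ℝ) × (Fin d → ℝ)) × (Zd d → Cn d) =>
      if (cellNx H).cp id (bx d n) p.2 then (1 : ENNReal) else 0 := by
  have h3 : MeasurableSet {ω : Zd d → Cn d | (cellNx H).cp id (bx d n) ω} :=
    Bas.measurableSet_cp (cellNx H) id (bx d n)
  exact Measurable.ite (measurable_snd h3) measurable_const measurable_const

open Classical in
/-- The weight of a configuration of spheres which meet none of the needles. -/
private noncomputable def W2 {K : ℕ} {a l : ℝ} (H : Cel d K a l) (L μ : ℝ) (M n : ℕ)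
    (q : Fin M → (Fin d → ℝ) × (Fin d → ℝ)) (ω : Zd d → Cn d) : ENNReal :=
  (∏ i ∈ bx d n, Ct.cp (ω i) fun y => ex μ * mis a L q (tr (K * l) i y)) *
    if (cellNx H).cp id (bx d n) ω then 1 else 0

private theorem meas_W {K : ℕ} {a l : ℝ} (H : Cel d K a l) {L : ℝ} (hL : 0 < L) (μ : ℝ)
    (M n : ℕ) :
    Measurable fun p : (Fin M → (Fin d → ℝ) × (Fin d → ℝ)) × (Zd d → Cn d) =>
      W2 H L μ M n p.1 p.2 := by
  classical
  exact (Finset.measurable_prod _ fun i _ => meas_d a hL (K * l) μ M i).mul (meas_f H M n)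

private theorem meas_W1 {K : ℕ} {a l : ℝ} (H : Cel d K a l) {L : ℝ} (hL : 0 < L) (μ : ℝ)
    (M n : ℕ) (e : Zd d → Cn d) :
    Measurable fun p : (Fin M → (Fin d → ℝ) × (Fin d → ℝ)) × ((_ : bx d n) → Cn d) =>
      W2 H L μ M n p.1 (Function.updateFinset e (bx d n) p.2) := by
  have h5 : Measurable fun p : (Fin M → (Fin d → ℝ) × (Fin d → ℝ)) × ((_ : bx d n) → Cn d) =>
      (p.1, Function.updateFinset e (bx d n) p.2) :=
    measurable_fst.prodMk (measurable_updateFinset.comp measurable_snd)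
  have h6 := (meas_W H hL μ M n).comp h5
  exact h6

private theorem meas_chi (s : ℝ) (M : ℕ) :
    Measurable fun q : Fin M → (Fin d → ℝ) × (Fin d → ℝ) => ∏ j, chi d s (q j) :=
  Finset.measurable_prod _ fun j _ => (measurable_chi d s).comp (measurable_pi_apply j)

private theorem meas_W3 {K : ℕ} {a l : ℝ} (H : Cel d K a l) {L : ℝ} (hL : 0 < L) (μ s : ℝ)
    (M n : ℕ) (e : Zd d → Cn d) :
    Measurable fun p : (Fin M → (Fin d → ℝ) × (Fin d → ℝ)) × ((_ : bx d n) → Cn d) =>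
      (∏ j, chi d s (p.1 j)) * W2 H L μ M n p.1 (Function.updateFinset e (bx d n) p.2) := by
  have h1 : Measurable fun p : (Fin M → (Fin d → ℝ) × (Fin d → ℝ)) × ((_ : bx d n) → Cn d) =>
      ∏ j, chi d s (p.1 j) := (meas_chi s M).comp measurable_fst
  have h2 := h1.mul (meas_W1 H hL μ M n e)
  exact h2

/-- Exchange of a series and two integrals. -/
private theorem tonelli {X : Type} [MeasurableSpace X] (μ : Measure X) [SFinite μ] (Q : ℕ → Type)
    [∀ M, MeasurableSpace (Q M)] (ν : ∀ M, Measure (Q M)) [∀ M, SFinite (ν M)] (c : ℕ → ENNReal)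
    (F : ∀ M, Q M → X → ENNReal) (hF : ∀ M, Measurable fun p : Q M × X => F M p.1 p.2) :
    ∫⁻ x, ∑' M, c M * ∫⁻ q, F M q x ∂(ν M) ∂μ =
      ∑' M, c M * ∫⁻ q, ∫⁻ x, F M q x ∂μ ∂(ν M) := by
  have mS : ∀ M, Measurable fun p : X × Q M => F M p.2 p.1 :=
    fun M => (hF M).comp measurable_swap
  rw [lintegral_tsum fun M => ((mS M).lintegral_prod_right'.const_mul _).aemeasurable]
  refine tsum_congr fun M => ?_
  rw [lintegral_const_mul _ (mS M).lintegral_prod_right']
  congr 1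
  exact lintegral_lintegral_swap (mS M).aemeasurable

open Classical in
private theorem w_valid {K : ℕ} {a l ν : ℝ} (H : Cel d K a l) (hν : 0 < ν) (μ : ℝ) (n : ℕ)
    {ω : Zd d → Cn d} (hω : ∀ i ∈ bx d n, Vx a (K * l) (ω i)) :
    (cellNx H).w (NN d K a l * μ) (ν * (K * l) ^ d) (bx d n) ω =
      ∑' M : ℕ, ENNReal.ofReal (ν / kap d) ^ M * ((M.factorial : ENNReal))⁻¹ *
        ∫⁻ q : Fin M → (Fin d → ℝ) × (Fin d → ℝ), (∏ j, chi d (n * (K * l)) (q j)) *
          W2 H (16 * d * (K * l)) μ M n q ω := by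
  have hd : 1 ≤ d := by have := H.hd; omega
  have hL : 0 < 16 * (d : ℝ) * (K * l) := by
    have h1 : (0 : ℝ) < d := by exact_mod_cast hd
    have h2 := H.h_pos
    positivity
  have hk := kap_pos hd
  have hhd : 0 < ((K : ℝ) * l) ^ d := pow_pos H.h_pos d
  have hc : 0 ≤ ν / kap d := (div_pos hν hk).le
  have e1 : ∀ i ∈ bx d n, (cellNx H).st (NN d K a l * μ) (ω i) =
      Ct.cp (ω i) (fun _ => ex μ) := by
    intro i hi
    have h5 : Ct.cp (ω i) (fun _ => ex μ) = ex μ ^ (ω i).1 := by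
      unfold Ct.cp
      rw [prod_const, card_range]
    have h6 : (cellNx H).a (ω i) = ((ω i).1 : ℝ) / NN d K a l := by
      change (nx a (K * l) (ω i) : ℝ) / NN d K a l = _
      unfold nx
      rw [if_pos (hω i hi)]
    rw [h5, ex_pow]
    unfold Nx.st
    rw [h6]
    congr 1
    have h7 := H.NN_pos.ne'
    field_simp
  have e2 : ∑ i ∈ bx d n, ν * (K * l) ^ d * (cellNx H).Fr id (bx d n) ω i =
      ν / kap d * fv d a (16 * d * (K * l)) (n * (K * l)) (PtsA (K * l) (bx d n) ω) := by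
    rw [← mul_sum, sum_Fr H n ω]
    have h7 := hk.ne'
    have h8 := hhd.ne'
    field_simp
  have hP : (∏ i ∈ bx d n, (cellNx H).st (NN d K a l * μ) (ω i)) ≠ ⊤ :=
    ENNReal.prod_ne_top fun i _ => ex_ne_top _
  obtain ⟨I, hI⟩ : ∃ I : ENNReal, I = if (cellNx H).cp id (bx d n) ω then 1 else 0 := ⟨_, rfl⟩
  have hI1 : I ≠ ⊤ := by
    rw [hI]
    split_ifs <;> simp
  unfold Nx.w Nx.wG
  rw [e2, exp_fv hL hc (countable_PtsA _ _ _), ← hI]
  obtain ⟨P, hPe⟩ : ∃ P : ENNReal,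
      P = ∏ i ∈ bx d n, (cellNx H).st (NN d K a l * μ) (ω i) := ⟨_, rfl⟩
  rw [← hPe] at hP ⊢
  rw [← ENNReal.tsum_mul_left, ← ENNReal.tsum_mul_right]
  refine tsum_congr fun M => ?_
  obtain ⟨c, hce⟩ : ∃ c : ENNReal, c = ENNReal.ofReal (ν / kap d) ^ M *
    ((M.factorial : ENNReal))⁻¹ := ⟨_, rfl⟩
  rw [← hce]
  have e3 : ∀ q : Fin M → (Fin d → ℝ) × (Fin d → ℝ), (∏ j, chi d (n * (K * l)) (q j)) *
          W2 H (16 * d * (K * l)) μ M n q ω =
      (P * I) * ∏ j, (chi d (n * (K * l)) (q j) *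
        if ∃ x ∈ PtsA (K * l) (bx d n) ω, Hit a (16 * d * (K * l)) x (q j).1 (q j).2
          then 0 else 1) := by
    intro q
    unfold W2
    rw [← hI, prod_mul_distrib, prod_hit q hω]
    simp only [Ct.cp_mul]
    rw [prod_mul_distrib, hPe, prod_congr rfl e1]
    ring
  simp only [e3]
  rw [lintegral_const_mul' _ _ (ENNReal.mul_ne_top hP hI1)]
  ring

private theorem link_blocks' {K : ℕ} {a l ν : ℝ} (H : Cel d K a l) (hν : 0 < ν) (μ : ℝ) (n : ℕ) :
    (cellNx H).xi (NN d K a l * μ) (ν * (K * l) ^ d) (bx d n) =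
      ∑' M : ℕ, ENNReal.ofReal (ν / kap d) ^ M * ((M.factorial : ENNReal))⁻¹ *
        ∫⁻ q : Fin M → (Fin d → ℝ) × (Fin d → ℝ), (∏ j, chi d (n * (K * l)) (q j)) *
          (cellNx H).int (bx d n) (W2 H (16 * d * (K * l)) μ M n q) := by
  have hd : 1 ≤ d := by have := H.hd; omega
  have hL : 0 < 16 * (d : ℝ) * (K * l) := by
    have h1 : (0 : ℝ) < d := by exact_mod_cast hd
    have h2 := H.h_pos
    positivity
  have hfin : IsFiniteMeasure (cellNx H).π := ⟨(pg_ne_top a (K * l)).lt_top⟩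
  have h2 : ∀ i : bx d n, ∀ᵐ x ∂(Measure.pi fun _ : bx d n => (cellNx H).π),
      Vx a (K * l) (x i) := fun i =>
    (Measure.tendsto_eval_ae_ae (i := i)).eventually (ae_Vx a (K * l))
  have h3 := ae_all_iff.2 h2
  unfold Nx.xi Nx.int lmarginal
  have h4 : ∀ᵐ x ∂(Measure.pi fun _ : bx d n => (cellNx H).π),
      (cellNx H).w (NN d K a l * μ) (ν * (K * l) ^ d) (bx d n)
        (Function.updateFinset (fun _ => (cellNx H).e0) (bx d n) x) =
      ∑' M : ℕ, ENNReal.ofReal (ν / kap d) ^ M * ((M.factorial : ENNReal))⁻¹ *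
        ∫⁻ q : Fin M → (Fin d → ℝ) × (Fin d → ℝ), (∏ j, chi d (n * (K * l)) (q j)) *
          W2 H (16 * d * (K * l)) μ M n q
            (Function.updateFinset (fun _ => (cellNx H).e0) (bx d n) x) := by
    filter_upwards [h3] with x hx
    refine w_valid H hν μ n fun i hi => ?_
    rw [Function.updateFinset_def]
    simp only [hi, dif_pos]
    exact hx ⟨i, hi⟩
  rw [lintegral_congr_ae h4]
  rw [tonelli (Measure.pi fun _ : bx d n => (cellNx H).π)
    (fun M => Fin M → (Fin d → ℝ) × (Fin d → ℝ)) (fun M => volume)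
    (fun M => ENNReal.ofReal (ν / kap d) ^ M * ((M.factorial : ENNReal))⁻¹)
    (fun M q x => (∏ j, chi d (n * (K * l)) (q j)) * W2 H (16 * d * (K * l)) μ M n q
            (Function.updateFinset (fun _ => (cellNx H).e0) (bx d n) x))
    (fun M => meas_W3 H hL μ (n * (K * l)) M n fun _ => (cellNx H).e0)]
  refine tsum_congr fun M => ?_
  congr 1
  refine lintegral_congr fun q => ?_
  have h6 : Measurable fun x : ((_ : bx d n) → Cn d) => (q, x) :=
    measurable_const.prodMk measurable_id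
  have h7 := (meas_W1 H hL μ M n fun _ => (cellNx H).e0).comp h6
  have h8 := lintegral_const_mul (μ := Measure.pi fun _ : bx d n => (cellNx H).π)
    (∏ j, chi d (n * (K * l)) (q j)) h7
  exact h8

open Classical in
theorem link_blocks {K : ℕ} {a l ν : ℝ} (H : Cel d K a l) (hν : 0 < ν) (μ : ℝ) (n : ℕ) :
    (cellNx H).xi (NN d K a l * μ) (ν * (K * l) ^ d) (bx d n) =
      ∑' M : ℕ, ENNReal.ofReal (ν / kap d) ^ M * ((M.factorial : ENNReal))⁻¹ *
        ∫⁻ q : Fin M → (Fin d → ℝ) × (Fin d → ℝ), (∏ j, chi d (n * (K * l)) (q j)) *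
          (cellNx H).int (bx d n) (fun ω =>
            (∏ i ∈ bx d n, Ct.cp (ω i) fun y =>
              ex μ * mis a (16 * d * (K * l)) q (tr (K * l) i y)) *
              if (cellNx H).cp id (bx d n) ω then 1 else 0) :=
  link_blocks' H hν μ n

end Pool.Agent.Nbm
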