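import Pool.Agent.Lib.MP_09cbbd_ndm.BSup

/-!
# The pressure of the pure hard spheres

Row PH. `PH d a μ` is the supremum of `log (XH s) / (s + 2 a) ^ d` over `s > 0` (bounded by
`exp μ`: `XH_le`). `PH_lim`: upper bound by `PH_ge`; lower bound: for fixed `s`, with
`q = ⌊n h / (s + 2 a)⌋`, `XH (n h) ≥ XH s ^ (q ^ d)` (`XH_super`, `XH_mono`), so the lower limit is at
least `h ^ d log (XH s) / (s + 2 a) ^ d`. `cell_le`: `XH_trim` with `c = 2 a` and `PH_ge` for
`s = l - 2 a` (if `l ≤ 2 a`, `XH (l - 2 a) = 1`, the box is empty; or directly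
`XH_le` with `l ≤ 2 a`).
-/

set_option autoImplicit false

namespace Pool.Agent.Nbm

open MeasureTheory Finset Filter Topology Pool.Agent.SquareWellGas Pool.Agent.SquareWell
  Pool.Agent.SquareWell.ModA Pool.Agent.ConfinedGas Pool.Agent.NeedleGas Pool.Agent.Ndl
open Pool.Agent.StableGas hiding tr
open Pool.Agent.Mix (Ct Sys Qr mem_Qr)
open Pool.Agent.Mix.ModX (tr mp_tr sq_tr)

variable {d : ℕ}

private theorem log_le' {x : ENNReal} {t : ℝ} (h0 : 1 ≤ x) (h1 : x ≤ ex t) :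
    Real.log x.toReal ≤ t := by
  have hne : x ≠ ⊤ := ne_top_of_le_ne_top (ex_ne_top t) h1
  have h2 : 0 < x.toReal := ENNReal.toReal_pos (fun h => by simp [h] at h0) hne
  have h3 := ENNReal.toReal_mono (ex_ne_top t) h1
  rw [ex_toReal] at h3
  exact (Real.log_le_iff_le_exp h2).2 h3

private theorem log_nonneg' (a μ s : ℝ) : 0 ≤ Real.log (XH d a μ s).toReal := by
  refine Real.log_nonneg ?_
  have h1 := ENNReal.toReal_mono (XH_ne_top a μ s) (one_le_XH (d := d) a μ s)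
  simpa using h1

private theorem ex_log' (a μ s : ℝ) : ex (Real.log (XH d a μ s).toReal) = XH d a μ s :=
  ex_log (fun h => by
    have := one_le_XH (d := d) a μ s
    simp [h] at this) (XH_ne_top a μ s)

private theorem log_mono' {x y : ENNReal} (h0 : 1 ≤ x) (hy : y ≠ ⊤) (h : x ≤ y) :
    Real.log x.toReal ≤ Real.log y.toReal := by
  refine Real.log_le_log ?_ (ENNReal.toReal_mono hy h)
  exact ENNReal.toReal_pos (fun h => by simp [h] at h0) (ne_top_of_le_ne_top hy h)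

private theorem bdd {a : ℝ} (ha : 0 < a) (μ : ℝ) : BddAbove (Set.range fun s : Set.Ioi (0 : ℝ) =>
    Real.log (XH d a μ s).toReal / ((s : ℝ) + 2 * a) ^ d) := by
  refine ⟨Real.exp μ, ?_⟩
  rintro _ ⟨s, rfl⟩
  have hs : (0 : ℝ) < s := s.2
  have h1 : Real.log (XH d a μ s).toReal ≤ Real.exp μ * (s : ℝ) ^ d :=
    log_le' (one_le_XH a μ s) (XH_le a μ hs.le)
  simp only
  rw [div_le_iff₀ (by positivity)]
  refine h1.trans (mul_le_mul_of_nonneg_left ?_ (Real.exp_pos μ).le)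
  exact pow_le_pow_left₀ hs.le (by linarith) d

theorem PH_ge {a : ℝ} (ha : 0 < a) (μ : ℝ) {s : ℝ} (hs : 0 < s) :
    Real.log (XH d a μ s).toReal ≤ (s + 2 * a) ^ d * PH d a μ := by
  have h1 : Real.log (XH d a μ s).toReal / (s + 2 * a) ^ d ≤ PH d a μ :=
    le_ciSup (bdd ha μ) (⟨s, hs⟩ : Set.Ioi (0 : ℝ))
  rw [div_le_iff₀ (by positivity)] at h1
  linarith

private theorem XH_floor {a : ℝ} (ha : 0 < a) (μ : ℝ) {s t : ℝ} (hs : 0 < s) (ht : 0 ≤ t) :
    (⌊t / (s + 2 * a)⌋₊ : ℝ) ^ d * Real.log (XH d a μ s).toReal ≤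
      Real.log (XH d a μ t).toReal := by
  have h1 := XH_super (d := d) ha μ hs ⌊t / (s + 2 * a)⌋₊
  have hpos : 0 < s + 2 * a := by positivity
  have h2 : (⌊t / (s + 2 * a)⌋₊ : ℝ) * (s + 2 * a) ≤ t := by
    have h3 := Nat.floor_le (show 0 ≤ t / (s + 2 * a) by positivity)
    rwa [le_div_iff₀ hpos] at h3
  have h4 := h1.trans (XH_mono (d := d) (a := a) (le_refl μ) h2)
  have h5 := log_mono' (one_le_pow₀ (one_le_XH (d := d) a μ s)) (XH_ne_top a μ t) h4
  rw [ENNReal.toReal_pow, Real.log_pow] at h5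
  push_cast at h5
  exact h5

theorem PH_lim (hd : 1 ≤ d) {a : ℝ} (ha : 0 < a) (μ : ℝ) {h : ℝ} (hh : 0 < h) :
    Tendsto (fun n : ℕ => Real.log (XH d a μ (n * h)).toReal / (n : ℝ) ^ d) atTop
      (𝓝 (h ^ d * PH d a μ)) := by
  rw [tendsto_order]
  constructor
  · intro b hb
    have hhd : 0 < h ^ d := pow_pos hh d
    have h1 : b / h ^ d < PH d a μ := by
      rw [div_lt_iff₀ hhd]
      linarith
    obtain ⟨s, h2⟩ := exists_lt_of_lt_ciSup (show b / h ^ d < ⨆ s : Set.Ioi (0 : ℝ),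
      Real.log (XH d a μ s).toReal / ((s : ℝ) + 2 * a) ^ d from h1)
    have hs : (0 : ℝ) < s := s.2
    have hpos : 0 < (s : ℝ) + 2 * a := by positivity
    have h3 : b < (h / ((s : ℝ) + 2 * a)) ^ d * Real.log (XH d a μ s).toReal := by
      rw [div_lt_iff₀ hhd] at h2
      rw [div_pow]
      calc b < Real.log (XH d a μ s).toReal / ((s : ℝ) + 2 * a) ^ d * h ^ d := h2
        _ = _ := by ring
    have h4 : Tendsto (fun n : ℕ => (⌊(n : ℝ) * h / ((s : ℝ) + 2 * a)⌋₊ : ℝ) / n) atTop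
        (𝓝 (h / ((s : ℝ) + 2 * a))) := by
      have h5 := (tendsto_nat_floor_mul_div_atTop (R := ℝ) (a := h / ((s : ℝ) + 2 * a))
        (by positivity)).comp tendsto_natCast_atTop_atTop
      refine h5.congr fun n => ?_
      simp only [Function.comp]
      congr 3
      ring
    have h6 : Tendsto (fun n : ℕ => ((⌊(n : ℝ) * h / ((s : ℝ) + 2 * a)⌋₊ : ℝ) / n) ^ d *
        Real.log (XH d a μ s).toReal) atTop
        (𝓝 ((h / ((s : ℝ) + 2 * a)) ^ d * Real.log (XH d a μ s).toReal)) :=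
      (h4.pow d).mul_const _
    filter_upwards [h6.eventually_const_lt h3, eventually_gt_atTop 0] with n h7 hn
    have hn' : (0 : ℝ) < n := by exact_mod_cast hn
    refine lt_of_lt_of_le h7 ?_
    rw [le_div_iff₀ (pow_pos hn' d), div_pow]
    have h8 := XH_floor (d := d) ha μ hs (show 0 ≤ (n : ℝ) * h by positivity)
    calc (⌊(n : ℝ) * h / ((s : ℝ) + 2 * a)⌋₊ : ℝ) ^ d / (n : ℝ) ^ d *
          Real.log (XH d a μ s).toReal * (n : ℝ) ^ d
        = (⌊(n : ℝ) * h / ((s : ℝ) + 2 * a)⌋₊ : ℝ) ^ d * Real.log (XH d a μ s).toReal := by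
          field_simp
      _ ≤ _ := h8
  · intro b hb
    have h1 : Tendsto (fun n : ℕ => (h + 2 * a / (n : ℝ)) ^ d * PH d a μ) atTop
        (𝓝 ((h + 0) ^ d * PH d a μ)) := by
      refine Tendsto.mul_const _ (Tendsto.pow (Tendsto.add tendsto_const_nhds ?_) d)
      exact tendsto_const_div_atTop_nhds_zero_nat (2 * a)
    rw [add_zero] at h1
    filter_upwards [h1.eventually_lt_const hb, eventually_gt_atTop 0] with n h2 hn
    have hn' : (0 : ℝ) < n := by exact_mod_cast hn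
    refine lt_of_le_of_lt ?_ h2
    rw [div_le_iff₀ (pow_pos hn' d)]
    refine (PH_ge ha μ (show 0 < (n : ℝ) * h by positivity)).trans (le_of_eq ?_)
    have h3 : (n : ℝ) * h + 2 * a = n * (h + 2 * a / n) := by
      field_simp
    rw [h3, mul_pow]
    ring

theorem PH_nonneg {a : ℝ} (ha : 0 < a) (μ : ℝ) : 0 ≤ PH d a μ := by
  have h1 := PH_ge (d := d) ha μ (s := 1) one_pos
  have h2 := log_nonneg' (d := d) a μ 1
  have h3 : (0 : ℝ) < (1 + 2 * a) ^ d := by positivity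
  by_contra h
  push Not at h
  have := mul_neg_of_pos_of_neg h3 h
  linarith

theorem cell_le (hd : 1 ≤ d) {a : ℝ} (ha : 0 < a) (μ : ℝ) {l : ℝ} (hl : 0 < l) :
    XH d a μ l ≤ ex (l ^ d * PH d a μ + Real.exp μ * (4 * a * d * l ^ (d - 1))) := by
  have hd' : (1 : ℝ) ≤ d := by exact_mod_cast hd
  have hP := PH_nonneg (d := d) ha μ
  have hE := (Real.exp_pos μ).le
  have hlp : 0 < l ^ (d - 1) := pow_pos hl _
  rcases le_or_gt l (2 * a) with h | h
  · refine (XH_le a μ hl.le).trans ?_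
    rw [ex_le_ex]
    have h1 : l ^ d ≤ 4 * a * d * l ^ (d - 1) := by
      have e : l ^ d = l * l ^ (d - 1) := by
        rw [← pow_succ']
        congr 1
        omega
      rw [e]
      refine mul_le_mul_of_nonneg_right ?_ hlp.le
      nlinarith
    have h2 := mul_le_mul_of_nonneg_left h1 hE
    have h3 : 0 ≤ l ^ d * PH d a μ := by positivity
    linarith
  · have h1 := XH_trim hd a μ hl (c := 2 * a) (by positivity)
    have h2 := PH_ge (d := d) ha μ (s := l - 2 * a) (by linarith)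
    rw [sub_add_cancel] at h2
    refine h1.trans ?_
    rw [← ex_log' (d := d) a μ (l - 2 * a), ← ex_add, ex_le_ex]
    have h3 : 2 * a * d * l ^ (d - 1) ≤ 4 * a * d * l ^ (d - 1) := by
      refine mul_le_mul_of_nonneg_right ?_ hlp.le
      nlinarith
    have h4 := mul_le_mul_of_nonneg_left h3 hE
    linarith

end Pool.Agent.Nbm
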