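import Pool.Agent.Lib.MP_09cbbd_ndm.BLkq
import Pool.Agent.Lib.MP_09cbbd_ndm.BPH

/-!
# The pure hard spheres

Row PURE. `xi_pure`: `link_prod` with `φ = fun _ => ex μ` (for valid contents
`Ct.cp x (fun _ => ex μ) = ex μ ^ x.1 = ex (NN μ a(x))`, the contents are valid almost surely, as in
`cp_phi`, `link0` of `MP_09cbbd_mx/Mod.lean`; at `z = 0` the factor `ex (∑ 0 * Fr) = 1`). `pure`:
uniqueness of limits, `PH_lim`.
-/

set_option autoImplicit false

namespace Pool.Agent.Nbm

open MeasureTheory Finset Filter Topology Pool.Agent.SquareWellGas Pool.Agent.SquareWell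
  Pool.Agent.SquareWell.ModA Pool.Agent.ConfinedGas Pool.Agent.NeedleGas Pool.Agent.Ndl
open Pool.Agent.StableGas hiding tr
open Pool.Agent.Mix (Ct Sys Qr mem_Qr)
open Pool.Agent.Mix.ModX (tr mp_tr sq_tr)

variable {d : ℕ}

theorem xi_pure {K : ℕ} {a l : ℝ} (H : Cel d K a l) (m : ℝ) (n : ℕ) :
    (cellNx H).xi m 0 (bx d n) = XH d a (m / NN d K a l) (n * (K * l)) := by
  classical
  have h0 := link_prod H n (φ := fun _ => ex (m / NN d K a l)) measurable_const
  have e1 : ∑' k : ℕ, ((k.factorial : ENNReal))⁻¹ *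
      ∫⁻ x in Cf (2 * a) (Fin k) (Box d (n * (K * l))),
        ∏ i, (fun _ : Fin d → ℝ => ex (m / NN d K a l)) (x i) =
      XH d a (m / NN d K a l) (n * (K * l)) := by
    unfold XH Xi
    refine tsum_congr fun k => ?_
    simp only [prod_const, card_univ, Fintype.card_fin]
    rw [setLIntegral_const]
    unfold mC
    rw [← volume_pi]
    ring
  rw [← e1, ← h0]
  unfold Nx.xi Nx.int lmarginal
  refine lintegral_congr_ae ?_
  have h2 : ∀ i : bx d n, ∀ᵐ x ∂(Measure.pi fun _ : bx d n => (cellNx H).π),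
      Vx a (K * l) (x i) := fun i => by
    have hfin : IsFiniteMeasure (cellNx H).π := ⟨(pg_ne_top a (K * l)).lt_top⟩
    exact (Measure.tendsto_eval_ae_ae (i := i)).eventually (ae_Vx a (K * l))
  have h3 := ae_all_iff.2 h2
  filter_upwards [h3] with x hx
  have hv : ∀ i ∈ bx d n, Vx a (K * l)
      (Function.updateFinset (fun _ => (cellNx H).e0) (bx d n) x i) := by
    intro i hi
    rw [Function.updateFinset_def]
    simp only [hi, dif_pos]
    exact hx ⟨i, hi⟩
  obtain ⟨ω, hω⟩ : ∃ ω, ω = Function.updateFinset (fun _ => (cellNx H).e0) (bx d n) x := ⟨_, rfl⟩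
  rw [← hω] at hv ⊢
  unfold Nx.w Nx.wG
  have h4 : ex (∑ i ∈ bx d n, 0 * (cellNx H).Fr id (bx d n) ω i) = 1 := by
    simp [ex_zero]
  rw [h4, mul_one]
  congr 1
  refine prod_congr rfl fun i hi => ?_
  have h5 : Ct.cp (ω i) (fun _ => ex (m / NN d K a l)) = ex (m / NN d K a l) ^ (ω i).1 := by
    unfold Ct.cp
    rw [prod_const, card_range]
  have h6 : (cellNx H).a (ω i) = ((ω i).1 : ℝ) / NN d K a l := by
    change (nx a (K * l) (ω i) : ℝ) / NN d K a l = _
    unfold nx
    rw [if_pos (hv i hi)]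
  rw [h5, ex_pow]
  unfold Nx.st
  rw [h6]
  congr 1
  ring

theorem pure_p {K : ℕ} {a l : ℝ} (H : Cel d K a l) {p : ℝ → ℝ → ℝ} (hp : (cellNx H).IsP p)
    (m : ℝ) : p m 0 = (K * l) ^ d * PH d a (m / NN d K a l) := by
  have h1 := hp m 0
  rw [max_self] at h1
  have h2 := PH_lim (d := d) (by have := H.hd; omega) H.ha (m / NN d K a l) H.h_pos
  refine tendsto_nhds_unique h1 ?_
  refine h2.congr fun n => ?_
  rw [xi_pure]

end Pool.Agent.Nbm
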