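import Pool.Agent.Lib.MP_09cbbd_ndm.BLam
import Pool.Agent.Lib.MP_09cbbd_ndm.BPure
import Pool.Agent.Lib.MP_09cbbd_ndm.BLkt
import Pool.Agent.Lib.MP_09cbbd_ndm.BLkz
import Pool.Agent.Lib.MP_09cbbd_ndm.BGeo
import Pool.Agent.Lib.MP_09cbbd_ndm.BHsp

/-!
# The block model

Row ASM. `blk`: the fields from `BCnt`, `BLam`, `BPH`, `BPure` (with `m / NN` as the chemical
potential): `mass`: `lam_oc`, `cell_le`, `pure_p`; `rim`: `lam_univ`, `lam_ins`, `XH_trim` with
`c = 4 a` (logarithms); `lam_le`: `XH_le`. `link`: `link_blocks`, `link_prod`, `link_Z`.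
-/

set_option autoImplicit false

namespace Pool.Agent.Nbm

open MeasureTheory Finset Filter Topology Pool.Agent.SquareWellGas Pool.Agent.SquareWell
  Pool.Agent.SquareWell.ModA Pool.Agent.ConfinedGas Pool.Agent.NeedleGas Pool.Agent.Ndl
open Pool.Agent.StableGas hiding tr
open Pool.Agent.Mix (Ct Sys Qr mem_Qr)
open Pool.Agent.Mix.ModX (tr mp_tr sq_tr)

variable {d : ℕ}

private theorem log_le {x : ENNReal} {t : ℝ} (h0 : 1 ≤ x) (h1 : x ≤ ex t) :
    Real.log x.toReal ≤ t := by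
  have hne : x ≠ ⊤ := ne_top_of_le_ne_top (ex_ne_top t) h1
  have h2 : 0 < x.toReal := ENNReal.toReal_pos (fun h => by simp [h] at h0) hne
  have h3 := ENNReal.toReal_mono (ex_ne_top t) h1
  rw [ex_toReal] at h3
  exact (Real.log_le_iff_le_exp h2).2 h3

theorem blk {K : ℕ} {a l : ℝ} (H : Cel d K a l) :
    Blk (cellNx H) (oc K l) K (NN d K a l) (4 * a * d * l ^ (d - 1))
      (4 * a * d * (K * l) ^ (d - 1)) ((K * l) ^ d) := by
  have hd1 : 1 ≤ d := by have := H.hd; omega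
  have hKd : (0 : ℝ) < (K : ℝ) ^ d := pow_pos H.K_pos d
  have hl := H.l_pos
  have ha := H.ha
  have hh := H.h_pos
  constructor
  · have := H.hK
    omega
  · exact H.NN_pos
  · positivity
  · exact measurable_oc K l
  · exact oc_e0 K l
  · exact oc_le K l
  · intro x
    change (nx a (K * l) x : ℝ) / NN d K a l ≤ _
    rw [div_le_div_iff₀ H.NN_pos hKd]
    have h1 := nx_le H x
    have h2 : (nx a (K * l) x : ℝ) ≤ oc K l x * (⌈(d : ℝ) / (2 * a) * l⌉₊ : ℝ) ^ d := by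
      exact_mod_cast h1
    unfold NN
    calc (nx a (K * l) x : ℝ) * (K : ℝ) ^ d
        ≤ (oc K l x * (⌈(d : ℝ) / (2 * a) * l⌉₊ : ℝ) ^ d) * (K : ℝ) ^ d :=
          mul_le_mul_of_nonneg_right h2 hKd.le
      _ = _ := by ring
  · intro p hp m k hk
    have h1 := lam_oc H m k
    refine h1.trans ?_
    have h2 := cell_le hd1 ha (m / NN d K a l) hl
    have h3 := pure_p H hp m
    have h4 : XH d a (m / NN d K a l) l ^ k ≤
        ex (k * (l ^ d * PH d a (m / NN d K a l) +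
          Real.exp (m / NN d K a l) * (4 * a * d * l ^ (d - 1)))) := by
      rw [← ex_pow]
      exact pow_le_pow_left' h2 k
    refine (mul_le_mul' le_rfl h4).trans ?_
    rw [← ex_add, ex_le_ex, h3]
    have h5 : (K * l) ^ d * PH d a (m / NN d K a l) / (K : ℝ) ^ d =
        l ^ d * PH d a (m / NN d K a l) := by
      rw [mul_pow]
      field_simp
    rw [h5]
    have h6 : (k : ℝ) ≤ (K : ℝ) ^ d := by exact_mod_cast hk
    have h7 : (k : ℝ) * (Real.exp (m / NN d K a l) * (4 * a * d * l ^ (d - 1))) ≤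
        (K : ℝ) ^ d * (Real.exp (m / NN d K a l) * (4 * a * d * l ^ (d - 1))) :=
      mul_le_mul_of_nonneg_right h6 (by positivity)
    linarith
  · intro m
    rw [lam_univ H, lam_ins H]
    have h1 := XH_trim (d := d) hd1 a (m / NN d K a l) hh (c := 4 * a) (by positivity)
    have h2 := one_le_XH (d := d) a (m / NN d K a l) (K * l - 4 * a)
    have h3 := XH_ne_top (d := d) a (m / NN d K a l) (K * l - 4 * a)
    have h4 : XH d a (m / NN d K a l) (K * l) ≤
        ex (Real.exp (m / NN d K a l) * (4 * a * d * (K * l) ^ (d - 1)) +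
          Real.log (XH d a (m / NN d K a l) (K * l - 4 * a)).toReal) := by
      rw [ex_add, ex_log (fun h => by simp [h] at h2) h3]
      exact h1
    have h5 := log_le (one_le_XH a _ _) h4
    linarith
  · intro m
    rw [lam_univ H]
    exact log_le (one_le_XH a _ _) (XH_le a _ hh.le)

theorem link {K : ℕ} {a l ν : ℝ} (H : Cel d K a l) (hν : 0 < ν) (μ : ℝ) (n : ℕ) :
    (cellNx H).xi (NN d K a l * μ) (ν * (K * l) ^ d) (bx d n) = XiN d a ν (K * l) μ n := by
  have hh := H.h_pos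
  have hd0 : (0 : ℝ) < d := by
    have := H.hd
    exact_mod_cast (show 0 < d by omega)
  have hL : 0 < 16 * d * ((K : ℝ) * l) := by positivity
  have hm : ∀ (M : ℕ) (q : Fin M → (Fin d → ℝ) × (Fin d → ℝ)),
      Measurable fun x => ex μ * mis a (16 * d * (K * l)) q x := by
    intro M q
    have h1 : Measurable fun x : Fin d → ℝ => (q, x) := measurable_const.prodMk measurable_id
    exact ((measurable_mis a hL M).comp h1).const_mul _
  rw [link_blocks H hν]
  unfold XiN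
  rw [link_Z H.hd hL hν (by positivity)]
  refine tsum_congr fun M => ?_
  congr 1
  refine lintegral_congr fun q => ?_
  rw [link_prod H n (hm M q)]

/-- The hypothesis of `kink_phys`. -/
theorem exists_mod (hd : 3 ≤ d) {a ν x c C : ℝ} (ha : 0 < a) (hν : 0 < ν)
    (G : ∀ l1, a ≤ l1 → ∀ ε, 0 < ε → ∃ K0 : ℕ, ∀ K : ℕ, K0 ≤ K → ∀ l, l1 ≤ l → l ≤ 2 * l1 →
      GeoS d K a l x c C ε) :
    ∀ l1, a ≤ l1 → ∀ ε, 0 < ε → ∃ K0 : ℕ, ∀ K : ℕ, K0 ≤ K → ∀ l, l1 ≤ l → l ≤ 2 * l1 →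
      ∃ (E : Type) (_ : MeasurableSpace E) (M : Nx d E) (oc : E → ℕ) (NN : ℝ),
        Mod d a ν (((d : ℝ) / (2 * a)) ^ d) (((d : ℝ) / a) ^ d) (PH d a) (XiN d a ν) x c C ε K l E
          M oc NN := by
  intro l1 hl1 ε hε
  obtain ⟨K0, hK0⟩ := G l1 hl1 ε hε
  refine ⟨max K0 2, fun K hK l h1 h2 => ?_⟩
  have H : Cel d K a l := ⟨hd, ha, hl1.trans h1, (le_max_right _ _).trans hK⟩
  have hG := hK0 K ((le_max_left _ _).trans hK) l h1 h2
  refine ⟨Cn d, inferInstance, cellNx H, oc K l, NN d K a l, ⟨?_, ?_, ?_, ?_, ?_, ?_, ?_⟩⟩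
  · rfl
  · have h3 := blk H
    have e : 4 * a * (d : ℝ) * l ^ (d - 1) = 4 * a * d * l ^ (d - 1) := rfl
    exact h3
  · exact geo_of H hG
  · exact NN_lo H
  · exact NN_hi H
  · intro p hp μ
    rw [pure_p H hp, mul_div_cancel_left₀ _ H.NN_pos.ne']
  · exact link H hν

end Pool.Agent.Nbm
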