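import Pool.Agent.Lib.MP_09cbbd_ndm.BDef

/-!
# Number of the spheres and occupied cells

Row CNT. `nx_le`: if `x` is valid, map `k < x.1` to its cell (`⌊x.2 k j / l⌋`), which is an occupied
cell of `cells K 0`; the spheres of one cell are a configuration `Cf (2 a)` in a translate of
`Box d l`, so their number is at most `⌈d / (2 a) * l⌉₊ ^ d` by `card_box_le` of
`MP_09cbbd_mx/CanC.lean` (namespace `Pool.Agent.Mix.CanM`). Use `Finset.card_le_mul_card_image` or
`card_eq_sum_card_fiberwise`. `phi_eq`: a point `tr h v y` of `Pts h ω` (`y ∈ Box d h`, `h = K l`)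
lies in a cell of the block `b` iff `v = b`; translate the cells by `K b`.
-/

set_option autoImplicit false

namespace Pool.Agent.Nbm

open MeasureTheory Finset Filter Topology Pool.Agent.SquareWellGas Pool.Agent.SquareWell
  Pool.Agent.SquareWell.ModA Pool.Agent.ConfinedGas Pool.Agent.NeedleGas Pool.Agent.Ndl
open Pool.Agent.StableGas hiding tr
open Pool.Agent.Mix (Ct Sys Qr mem_Qr)
open Pool.Agent.Mix.ModX (tr mp_tr sq_tr)

variable {d : ℕ}

private theorem card_cells (K : ℕ) (b : Fin d → ℤ) : (cells K b).card = K ^ d := by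
  unfold cells
  rw [Fintype.card_piFinset]
  have h : ∀ k : Fin d, (Finset.Ico (b k * K) ((b k + 1) * K)).card = K := by
    intro k
    rw [Int.card_Ico]
    have : (b k + 1) * (K : ℤ) - b k * K = K := by ring
    rw [this, Int.toNat_natCast]
  simp only [h, prod_const, card_univ, Fintype.card_fin]

private theorem mem_cells {K : ℕ} {b v : Fin d → ℤ} :
    v ∈ cells K b ↔ ∀ k, b k * K ≤ v k ∧ v k < (b k + 1) * K := by
  unfold cells
  rw [Fintype.mem_piFinset]
  simp only [Finset.mem_Ico]

theorem oc_le (K : ℕ) (l : ℝ) (x : Cn d) : oc K l x ≤ K ^ d := by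
  classical
  unfold oc
  rw [← card_cells K (0 : Fin d → ℤ)]
  exact card_le_card (filter_subset _ _)

theorem oc_e0 (K : ℕ) (l : ℝ) : oc K l (e0 : Cn d) = 0 := by
  classical
  unfold oc
  rw [card_eq_zero, filter_eq_empty_iff]
  rintro v _ ⟨k, hk, _⟩
  exact absurd hk (Nat.not_lt_zero k)

theorem nx_le {K : ℕ} {a l : ℝ} (H : Cel d K a l) (x : Cn d) :
    nx a (K * l) x ≤ oc K l x * ⌈(d : ℝ) / (2 * a) * l⌉₊ ^ d := by
  classical
  unfold nx
  by_cases hV : Vx a (K * l) x
  · rw [if_pos hV]
    have hl := H.l_pos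
    set f : Fin x.1 → (Fin d → ℤ) := fun k j => ⌊x.2 k j / l⌋ with hf
    have hcell : ∀ k : Fin x.1, x.2 k ∈ cell l (f k) := by
      intro k j
      rw [hf]
      dsimp only
      constructor
      · rw [← le_div_iff₀ hl]
        exact Int.floor_le _
      · rw [← div_lt_iff₀ hl]
        exact Int.lt_floor_add_one _
    have himg : (univ : Finset (Fin x.1)).image f ⊆
        (cells K (0 : Fin d → ℤ)).filter fun v => ∃ k, k < x.1 ∧ x.2 k ∈ cell l v := by
      intro v hv
      obtain ⟨k, -, rfl⟩ := mem_image.1 hv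
      rw [mem_filter]
      refine ⟨?_, k, k.2, hcell k⟩
      rw [mem_cells]
      intro j
      have hb := hV.1 k k.2 j
      rw [hf]
      dsimp only
      constructor
      · rw [Pi.zero_apply, zero_mul]
        exact Int.floor_nonneg.2 (div_nonneg hb.1 hl.le)
      · rw [Pi.zero_apply, zero_add, one_mul, Int.floor_lt, div_lt_iff₀ hl]
        exact_mod_cast hb.2
    have hfib : ∀ v ∈ (univ : Finset (Fin x.1)).image f,
        (univ.filter fun k : Fin x.1 => f k = v).card ≤ ⌈(d : ℝ) / (2 * a) * l⌉₊ ^ d := by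
      intro v _
      set F := univ.filter fun k : Fin x.1 => f k = v with hF
      refine Pool.Agent.Mix.CanM.card_box_le (by have := H.hd; omega)
        (by have := H.ha; linarith) ?_
      let e : Fin F.card ≃ F := F.equivFin.symm
      refine ⟨fun i j => x.2 ((e i : Fin x.1) : ℕ) j - v j * l, ?_, ?_⟩
      · intro i j
        have h1 : f (e i : Fin x.1) = v := (mem_filter.1 (e i).2).2
        have h2 := hcell (e i : Fin x.1) j
        rw [h1] at h2
        exact ⟨by linarith [h2.1], by linarith [h2.2]⟩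
      · intro i i' hne
        have h1 : ((e i : Fin x.1) : ℕ) ≠ ((e i' : Fin x.1) : ℕ) := by
          intro h2
          apply hne
          apply e.injective
          exact Subtype.ext (Fin.ext h2)
        have h3 := hV.2 _ (e i : Fin x.1).2 _ (e i' : Fin x.1).2 h1
        refine h3.trans (le_of_eq ?_)
        unfold ConfinedGas.sq
        refine sum_congr rfl fun j _ => ?_
        ring
    have h1 := card_le_mul_card_image (s := (univ : Finset (Fin x.1))) (f := f) _ hfib
    rw [card_univ, Fintype.card_fin] at h1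
    refine h1.trans ?_
    rw [mul_comm]
    refine Nat.mul_le_mul_right _ ?_
    unfold oc
    exact card_le_card himg
  · rw [if_neg hV]
    exact Nat.zero_le _

theorem phi_eq {K : ℕ} {a l : ℝ} (H : Cel d K a l) (ω : Zd d → Cn d) (b : Zd d) :
    phi K l (Pts (K * l) ω) b = (oc K l (ω b) : ℝ) / (K : ℝ) ^ d := by
  classical
  unfold phi oc
  congr 2
  have hl := H.l_pos
  have hKl := H.h_pos
  symm
  refine card_bij (fun v _ => fun j => v j + b j * K) ?_ ?_ ?_
  · intro v hv
    rw [mem_filter, mem_cells] at hv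
    obtain ⟨hv1, k, hk, hc⟩ := hv
    rw [mem_filter, mem_cells]
    refine ⟨?_, tr (K * l) b ((ω b).2 k), ⟨b, k, hk, ?_, rfl⟩, ?_⟩
    · intro j
      have h1 := hv1 j
      rw [Pi.zero_apply] at h1
      constructor
      · linarith [h1.1]
      · linarith [h1.2]
    · intro j
      have h1 := hv1 j
      rw [Pi.zero_apply, zero_mul, zero_add, one_mul] at h1
      have h2 := hc j
      have h3 : (0 : ℝ) ≤ (v j : ℝ) := by exact_mod_cast h1.1
      have h4 : (v j : ℝ) + 1 ≤ K := by exact_mod_cast h1.2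
      constructor
      · exact (mul_nonneg h3 hl.le).trans h2.1
      · exact lt_of_lt_of_le h2.2 (mul_le_mul_of_nonneg_right h4 hl.le)
    · intro j
      have h2 := hc j
      have e1 : tr (K * l) b ((ω b).2 k) j = (ω b).2 k j + K * l * (b j : ℝ) := rfl
      rw [e1]
      push_cast
      constructor
      · nlinarith [h2.1]
      · nlinarith [h2.2]
  · intro v _ v' _ he
    funext j
    have h1 : v j + b j * K = v' j + b j * K := congrFun he j
    linarith
  · intro u hu
    rw [mem_filter, mem_cells] at hu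
    obtain ⟨hu1, y, ⟨b', k, hk, hbox, rfl⟩, hc⟩ := hu
    have hbb : b' = b := by
      funext j
      have h1 := hu1 j
      have h2 := hc j
      have h3 := hbox j
      have e1 : tr (K * l) b' ((ω b').2 k) j = (ω b').2 k j + K * l * (b' j : ℝ) := rfl
      rw [e1] at h2
      have h4 : ((b j : ℝ) * K) ≤ u j := by exact_mod_cast h1.1
      have h5 : (u j : ℝ) + 1 ≤ ((b j : ℝ) + 1) * K := by exact_mod_cast h1.2
      have h6 : K * l * (b j : ℝ) < K * l * ((b' j : ℝ) + 1) := by
        have := mul_le_mul_of_nonneg_right h4 hl.le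
        nlinarith [h2.1, h3.2]
      have h7 : K * l * (b' j : ℝ) < K * l * ((b j : ℝ) + 1) := by
        have := mul_le_mul_of_nonneg_right h5 hl.le
        nlinarith [h2.2, h3.1]
      have h8 := lt_of_mul_lt_mul_left h6 hKl.le
      have h9 := lt_of_mul_lt_mul_left h7 hKl.le
      have h10 : b j < b' j + 1 := by exact_mod_cast h8
      have h11 : b' j < b j + 1 := by exact_mod_cast h9
      omega
    subst hbb
    refine ⟨fun j => u j - b' j * K, ?_, ?_⟩
    · rw [mem_filter, mem_cells]
      refine ⟨?_, k, hk, ?_⟩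
      · intro j
        have h1 := hu1 j
        rw [Pi.zero_apply]
        constructor
        · linarith [h1.1]
        · linarith [h1.2]
      · intro j
        have h2 := hc j
        have e1 : tr (K * l) b' ((ω b').2 k) j = (ω b').2 k j + K * l * (b' j : ℝ) := rfl
        rw [e1] at h2
        push_cast
        constructor
        · nlinarith [h2.1]
        · nlinarith [h2.2]
    · funext j
      ring

theorem NN_lo {K : ℕ} {a l : ℝ} (H : Cel d K a l) :
    ((d : ℝ) / (2 * a)) ^ d * (K * l) ^ d ≤ NN d K a l := by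
  unfold NN
  rw [← mul_pow, ← mul_pow]
  have ha := H.ha
  have hl := H.l_pos
  have hd0 : (0 : ℝ) ≤ d := Nat.cast_nonneg d
  refine pow_le_pow_left₀ (by positivity) ?_ d
  calc (d : ℝ) / (2 * a) * (K * l) = K * ((d : ℝ) / (2 * a) * l) := by ring
    _ ≤ K * (⌈(d : ℝ) / (2 * a) * l⌉₊ : ℝ) :=
        mul_le_mul_of_nonneg_left (Nat.le_ceil _) (Nat.cast_nonneg _)

theorem NN_hi {K : ℕ} {a l : ℝ} (H : Cel d K a l) :
    NN d K a l ≤ ((d : ℝ) / a) ^ d * (K * l) ^ d := by
  unfold NN
  rw [← mul_pow, ← mul_pow]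
  have ha := H.ha
  have hl := H.l_pos
  have hal := H.hl
  have hd3 : (3 : ℝ) ≤ d := by exact_mod_cast H.hd
  refine pow_le_pow_left₀ (by positivity) ?_ d
  have h1 : 1 ≤ (d : ℝ) / (2 * a) * l := by
    rw [div_mul_eq_mul_div, le_div_iff₀ (by linarith)]
    nlinarith
  have h2 : (⌈(d : ℝ) / (2 * a) * l⌉₊ : ℝ) ≤ (d : ℝ) / a * l := by
    have h3 := (Nat.ceil_lt_add_one (by linarith : 0 ≤ (d : ℝ) / (2 * a) * l)).le
    have h4 : (d : ℝ) / a * l = (d : ℝ) / (2 * a) * l + (d : ℝ) / (2 * a) * l := by
      field_simp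
      ring
    rw [h4]
    linarith
  calc (K : ℝ) * (⌈(d : ℝ) / (2 * a) * l⌉₊ : ℝ) ≤ K * ((d : ℝ) / a * l) :=
        mul_le_mul_of_nonneg_left h2 (Nat.cast_nonneg _)
    _ = (d : ℝ) / a * (K * l) := by ring

end Pool.Agent.Nbm
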