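import Pool.Agent.Lib.MP_09cbbd_mx.ModM
import Pool.Agent.Lib.MP_09cbbd_nd.TopD
import Pool.Agent.Lib.MP_09cbbd_ndg.DefZ

/-!
# Hard spheres and needles as a gas on blocks: definitions
-/

set_option autoImplicit false

namespace Pool.Agent.Nbm

open MeasureTheory Finset Filter Topology Pool.Agent.SquareWellGas Pool.Agent.SquareWell
  Pool.Agent.SquareWell.ModA Pool.Agent.ConfinedGas Pool.Agent.NeedleGas Pool.Agent.Ndl
open Pool.Agent.StableGas hiding tr
open Pool.Agent.Mix (Ct Sys Qr mem_Qr)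
open Pool.Agent.Mix.ModX (tr mp_tr sq_tr)

variable {d : ℕ}

/-- Pair factor. -/
noncomputable def ps (a : ℝ) (x y : Fin d → ℝ) : ENNReal := by
  classical exact if ConfinedGas.sq x y < (2 * a) ^ 2 then 0 else 1

theorem ps_eq_one {a : ℝ} {x y : Fin d → ℝ} : ps a x y = 1 ↔ (2 * a) ^ 2 ≤ ConfinedGas.sq x y := by
  unfold ps
  split_ifs with h
  · simp [not_le.2 h]
  · simp [not_lt.1 h]

theorem ps_ne_zero {a : ℝ} {x y : Fin d → ℝ} : ps a x y ≠ 0 ↔ (2 * a) ^ 2 ≤ ConfinedGas.sq x y := by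
  unfold ps
  split_ifs with h
  · simp [not_le.2 h]
  · simp [not_lt.1 h]

theorem measurable_ps (a : ℝ) :
    Measurable fun q : (Fin d → ℝ) × (Fin d → ℝ) => ps a q.1 q.2 := by
  classical
  unfold ps
  exact Measurable.ite (measurableSet_lt measurable_sq2 measurable_const) measurable_const
    measurable_const

theorem measurableSet_Box' (s : ℝ) : MeasurableSet (Box d s) := by
  have e : Box d s = ⋂ k, {x : Fin d → ℝ | x k ∈ Set.Ico (0 : ℝ) s} := by
    ext x
    simp [Box]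
  rw [e]
  exact MeasurableSet.iInter fun k => (measurable_pi_apply k) measurableSet_Ico

/-- The pair gas of hard spheres of radius `a` in blocks of side `h`. -/
noncomputable def sys (d : ℕ) (a h : ℝ) : Sys d (Fin d → ℝ) where
  m := volume
  ψ := ps a
  t := tr h
  f0 := (Box d h).indicator 1
  x0 := 0
  sf := inferInstance
  hψ := measurable_ps a
  mp := mp_tr h
  tt := fun i p => by
    unfold tr
    ext k
    simp
  t0 := fun p => by
    unfold tr
    ext k
    simp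
  ψt := fun p i x y => by
    unfold ps
    rw [sq_tr]
  hf := measurable_one.indicator (measurableSet_Box' h)

/-- Contents of a block. -/
abbrev Cn (d : ℕ) : Type := Ct (Fin d → ℝ)

/-- Valid contents. -/
def Vx (a h : ℝ) (x : Cn d) : Prop :=
  (∀ k, k < x.1 → x.2 k ∈ Box d h) ∧ ∀ k, k < x.1 → ∀ l, l < x.1 → k ≠ l →
    (2 * a) ^ 2 ≤ ConfinedGas.sq (x.2 k) (x.2 l)

/-- Compatible contents of a block and of its translate by `v`. -/
def okc (a h : ℝ) (v : Zd d) (x y : Cn d) : Prop :=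
  ∀ k, k < x.1 → ∀ l, l < y.1 → (2 * a) ^ 2 ≤ ConfinedGas.sq (x.2 k) (tr h v (y.2 l))

/-- The empty content. -/
def e0 : Cn d := (0, fun _ => 0)

open Classical in
/-- Number of the spheres (`0` if the content is not valid). -/
noncomputable def nx (a h : ℝ) (x : Cn d) : ℕ := if Vx a h x then x.1 else 0

open Classical in
/-- Number of the occupied cells. -/
noncomputable def oc (K : ℕ) (l : ℝ) (x : Cn d) : ℕ :=
  ((cells K (0 : Fin d → ℤ)).filter fun v => ∃ k, k < x.1 ∧ x.2 k ∈ cell l v).card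

/-- Bound for the number of the spheres of a block. -/
noncomputable def NN (d K : ℕ) (a l : ℝ) : ℝ := (K : ℝ) ^ d * (⌈(d : ℝ) / (2 * a) * l⌉₊ : ℝ) ^ d

/-- The contents whose spheres are far from the boundary of the block. -/
def Ins (a h : ℝ) : Set (Cn d) := {x | ∀ k, k < x.1 → ∀ j, 2 * a ≤ x.2 k j ∧ x.2 k j < h - 2 * a}

/-- The centres of the spheres of a configuration. -/
def Pts (h : ℝ) (ω : Zd d → Cn d) : Set (Fin d → ℝ) :=
  {y | ∃ v : Zd d, ∃ k, k < (ω v).1 ∧ (ω v).2 k ∈ Box d h ∧ y = tr h v ((ω v).2 k)}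

/-- The centres of the spheres in the blocks of `A`. -/
def PtsA (h : ℝ) (A : Finset (Zd d)) (ω : Zd d → Cn d) : Set (Fin d → ℝ) :=
  {y | ∃ v ∈ A, ∃ k, k < (ω v).1 ∧ (ω v).2 k ∈ Box d h ∧ y = tr h v ((ω v).2 k)}

/-- The free fraction of the needles of length `16 d h` centred in the block `0`. -/
noncomputable def Ph (a h : ℝ) (ω : Zd d → Cn d) : ℝ := free d a (16 * d * h) h (Pts h ω)

/-- Volume of the positions of the needles with centre in the box of side `ℓ` which meet no sphere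
with centre in `S`. -/
noncomputable def fv (d : ℕ) (a L ℓ : ℝ) (S : Set (Fin d → ℝ)) : ℝ :=
  volume.real {q : (Fin d → ℝ) × (Fin d → ℝ) | q.1 ∈ Box d ℓ ∧ ∑ k, q.2 k ^ 2 ≤ 1 ∧
    ∀ x ∈ S, ¬ Hit a L x q.1 q.2}

open Classical in
/-- Indicator of the positions of a needle. -/
noncomputable def chi (d : ℕ) (ℓ : ℝ) (q : (Fin d → ℝ) × (Fin d → ℝ)) : ENNReal :=
  if q.1 ∈ Box d ℓ ∧ ∑ k, q.2 k ^ 2 ≤ 1 then 1 else 0

open Classical in
/-- A sphere meets none of the needles `q`. -/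
noncomputable def mis (a L : ℝ) {M : ℕ} (q : Fin M → (Fin d → ℝ) × (Fin d → ℝ))
    (x : Fin d → ℝ) : ENNReal :=
  ∏ j, if Hit a L x (q j).1 (q j).2 then 0 else 1

/-- Grand-canonical partition function of the pure hard spheres in a box of side `s`. -/
noncomputable def XH (d : ℕ) (a μ s : ℝ) : ENNReal := Xi volume (2 * a) (ex μ) (Box d s)

/-- The pressure of the pure hard spheres. -/
noncomputable def PH (d : ℕ) (a μ : ℝ) : ℝ :=
  ⨆ s : Set.Ioi (0 : ℝ), Real.log (XH d a μ s).toReal / ((s : ℝ) + 2 * a) ^ d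

/-- Grand-canonical partition function of spheres and needles of length `16 d h` in the box of
side `n h`. -/
noncomputable def XiN (d : ℕ) (a ν : ℝ) (h μ : ℝ) (n : ℕ) : ENNReal :=
  ∑' k : ℕ, ex (μ * k) * ENNReal.ofReal (Z d a (16 * d * h) ν (n * h) k)

/-- The hypotheses on the blocks. -/
structure Cel (d K : ℕ) (a l : ℝ) : Prop where
  hd : 3 ≤ d
  ha : 0 < a
  hl : a ≤ l
  hK : 2 ≤ K

/-- The geometric facts (for all sets of spheres). -/
structure GeoS (d K : ℕ) (a l x c C ε : ℝ) : Prop where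
  P0 : ∀ S : Set (Fin d → ℝ), free d a (16 * d * (K * l)) (K * l) S + phi K l S 0 ≤ 1 + ε
  P1 : ∀ S : Set (Fin d → ℝ), x ^ (4 * d + 2) ≤ phi K l S 0 → phi K l S 0 ≤ 1 - x ^ (4 * d) →
    free d a (16 * d * (K * l)) (K * l) S + phi K l S 0 ≤ 1 - c * x ^ (4 * d)
  P2 : ∀ S : Set (Fin d → ℝ), phi K l S 0 ≤ x ^ (4 * d) →
    (∃ b ∈ Qr d 1, 1 - x ^ (4 * d) ≤ phi K l S b) →
    free d a (16 * d * (K * l)) (K * l) S ≤ 1 - c
  P4 : ∀ S : Set (Fin d → ℝ), (∀ b ∈ Qr d (16 * d + 2), 1 - x ^ (4 * d) ≤ phi K l S b) →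
    free d a (16 * d * (K * l)) (K * l) S ≤ C * x ^ (4 * d + 4)

namespace Cel

variable {K : ℕ} {a l : ℝ} (H : Cel d K a l)

include H

theorem l_pos : 0 < l := lt_of_lt_of_le H.ha H.hl

theorem K_pos : (0 : ℝ) < K := by
  have h1 := H.hK
  have h2 : 0 < K := by omega
  exact_mod_cast h2

theorem h_pos : 0 < (K : ℝ) * l := mul_pos H.K_pos H.l_pos

theorem two_a_le : 2 * a ≤ (K : ℝ) * l := by
  have h1 : (2 : ℝ) ≤ K := by exact_mod_cast H.hK
  have h2 := H.hl
  have h3 := H.ha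
  calc 2 * a ≤ 2 * l := by linarith
    _ ≤ K * l := mul_le_mul_of_nonneg_right h1 H.l_pos.le

theorem NN_pos : 0 < NN d K a l := by
  unfold NN
  have h1 := H.K_pos
  have h2 := H.hd
  have h3 : (0 : ℝ) < d := by
    have : 0 < d := by omega
    exact_mod_cast this
  have h4 : (0 : ℝ) < d / (2 * a) * l := mul_pos (div_pos h3 (by linarith [H.ha])) H.l_pos
  have h5 : 0 < ⌈(d : ℝ) / (2 * a) * l⌉₊ := Nat.ceil_pos.2 h4
  have h6 : (0 : ℝ) < (⌈(d : ℝ) / (2 * a) * l⌉₊ : ℝ) := by exact_mod_cast h5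
  positivity

end Cel

end Pool.Agent.Nbm
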