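import Pool.Agent.Lib.MP_09cbbd_ndm.BAsm
import Pool.Agent.Lib.MP_09cbbd_nd.TopN
import Pool.Agent.Lib.MP_09cbbd_ndg.Geo

/-!
# Hard spheres and needles: the kink of the pressure
-/

set_option autoImplicit false

namespace Pool.Agent.Nbm

open MeasureTheory Finset Filter Topology Pool.Agent.SquareWellGas Pool.Agent.SquareWell
  Pool.Agent.SquareWell.ModA Pool.Agent.ConfinedGas Pool.Agent.NeedleGas Pool.Agent.Ndl
open Pool.Agent.StableGas hiding tr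
open Pool.Agent.Mix (Ct Sys Qr mem_Qr)

variable {d : ℕ}

theorem exists_geoS (hd : 2 ≤ d) : ∃ c C x0 : ℝ, 0 < c ∧ c ≤ 1 ∧ 0 ≤ C ∧ 0 < x0 ∧
    ∀ x : ℝ, 0 < x → x < x0 → ∀ a : ℝ, 0 < a → ∀ l1 : ℝ, a ≤ l1 → ∀ ε : ℝ, 0 < ε →
    ∃ K0 : ℕ, ∀ K : ℕ, K0 ≤ K → ∀ l : ℝ, l1 ≤ l → l ≤ 2 * l1 → GeoS d K a l x c C ε := by
  obtain ⟨c, C, x0, hc, hC, hx0, -, H⟩ := geo d hd
  refine ⟨min c 1, C, x0, lt_min hc one_pos, min_le_right _ _, hC.le, hx0, ?_⟩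
  intro x hx hxx a ha l1 hl1 ε hε
  obtain ⟨K0, -, H1⟩ := H x hx hxx.le a ha l1 hl1 ε hε
  refine ⟨K0, fun K hK l h1 h2 => ⟨?_, ?_, ?_, ?_⟩⟩
  · exact fun S => (H1 K hK l h1 h2 S).1
  · intro S h3 h4
    have h5 := (H1 K hK l h1 h2 S).2.1 h3 h4
    have h6 : min c 1 * x ^ (4 * d) ≤ c * x ^ (4 * d) :=
      mul_le_mul_of_nonneg_right (min_le_left _ _) (by positivity)
    linarith
  · rintro S h3 ⟨b, hb, h4⟩
    have h5 := (H1 K hK l h1 h2 S).2.2.1 ⟨b, fun k => by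
      have := mem_Qr.1 hb k
      simpa using this, h4⟩ h3
    have h6 : 0 ≤ phi K l S 0 := by
      unfold phi
      positivity
    have h7 := min_le_left c 1
    linarith
  · intro S h3
    refine (H1 K hK l h1 h2 S).2.2.2 fun b hb => h3 b (mem_Qr.2 fun k => ?_)
    have := hb k
    push_cast
    exact this

/-- The kink of the pressure of the mixture of hard spheres and long needles. -/
theorem kink_needles (hd : 3 ≤ d) {a ν : ℝ} (ha : 0 < a) (hν : 0 < ν) {μ' ρ' δ : ℝ}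
    (hμ' : PH d a μ' < ν) (hρ' : ∀ μ, PH d a μ' + ρ' * (μ - μ') ≤ PH d a μ) (hδ : 0 < δ) :
    ∃ L0 : ℝ, 0 < L0 ∧ ∀ L, L0 ≤ L → ∃ q : ℝ → ℝ,
      (∀ μ, Tendsto (fun n : ℕ => Real.log (XiN d a ν (L / (16 * d)) μ n).toReal / (n : ℝ) ^ d)
        atTop (𝓝 (q μ))) ∧
      ∃ w : ℝ, (∀ t, 0 < t → q w + t * ((ρ' - δ) * (L / (16 * d)) ^ d) ≤ q (w + t)) ∧
        ∀ t, 0 < t → q w - t * (δ * (L / (16 * d)) ^ d) ≤ q (w - t) := by
  obtain ⟨c, C, x0, hc, hc1, hC, hx0, G⟩ := exists_geoS (d := d) (by omega)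
  have hd0 : (0 : ℝ) < d := by exact_mod_cast (show 0 < d by omega)
  refine kink_phys (nlo := ((d : ℝ) / (2 * a)) ^ d) (nhi := ((d : ℝ) / a) ^ d) (by omega) ha hν
    (by positivity) (by positivity) (hsp (by omega) ha) (XiN d a ν) hc hc1 hC hx0 ?_ hμ' hρ' hδ
  intro x hx hx1
  exact exists_mod hd ha hν fun l1 hl1 ε hε => G x hx hx1 a ha l1 hl1 ε hε

end Pool.Agent.Nbm
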