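import Pool.Agent.Lib.MP_09cbbd_ndm.BDef

/-!
# Needles which meet a sphere: measurability

Row HIT. `measurableSet_Hit2`: `Hit a L x y g` is `∃ s, |s| ≤ L / 2 ∧ ∑ k, (x k - pt y g s k) ^ 2 < a ^ 2`
with `pt y g s k = y k + s * (g k / nrm g)`. The function of `s` is continuous, so for `0 < L` one
can take `s = L / 2 * t` with `t` rational, `|t| ≤ 1` (if `s = L / 2 * t0`, `|t0| ≤ 1`, satisfies the
strict inequality then so does `L / 2 * t` for all `t` close to `t0`, and the rationals of `[-1, 1]`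
are dense in `[-1, 1]`); for each fixed `s` the set is measurable (`nrm` is continuous, division is
measurable); a countable union. `kap_pos`: the set contains the cube `[0, 1 / d]^d` (or use
`EuclideanSpace.volume_ball`, `volume_preserving`). `kap_ne`: it is contained in `[-1, 1]^d`.
`near_of_Hit`: `|x - y| ≤ |x - pt y g s| + |s| |g / |g||`, coordinatewise:
`|g k / nrm g| ≤ 1`.
-/

set_option autoImplicit false

namespace Pool.Agent.Nbm

open MeasureTheory Finset Filter Topology Pool.Agent.SquareWellGas Pool.Agent.SquareWell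
  Pool.Agent.SquareWell.ModA Pool.Agent.ConfinedGas Pool.Agent.NeedleGas Pool.Agent.Ndl
open Pool.Agent.StableGas hiding tr
open Pool.Agent.Mix (Ct Sys Qr mem_Qr)
open Pool.Agent.Mix.ModX (tr mp_tr sq_tr)

variable {d : ℕ}

private theorem measurable_nrm : Measurable fun g : Fin d → ℝ => nrm g := by
  unfold nrm
  exact (Finset.measurable_sum _ fun k _ => (measurable_pi_apply k).pow_const 2).sqrt

private theorem measurableSet_fix (a s : ℝ) :
    MeasurableSet {p : (Fin d → ℝ) × ((Fin d → ℝ) × (Fin d → ℝ)) |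
      ∑ k, (p.1 k - pt p.2.1 p.2.2 s k) ^ 2 < a ^ 2} := by
  refine measurableSet_lt ?_ measurable_const
  refine Finset.measurable_sum _ fun k _ => ?_
  refine Measurable.pow_const ?_ 2
  unfold pt
  have h1 : Measurable fun p : (Fin d → ℝ) × ((Fin d → ℝ) × (Fin d → ℝ)) => p.1 k :=
    (measurable_pi_apply k).comp measurable_fst
  have h2 : Measurable fun p : (Fin d → ℝ) × ((Fin d → ℝ) × (Fin d → ℝ)) => p.2.1 k :=
    (measurable_pi_apply k).comp (measurable_fst.comp measurable_snd)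
  have h3 : Measurable fun p : (Fin d → ℝ) × ((Fin d → ℝ) × (Fin d → ℝ)) => p.2.2 k :=
    (measurable_pi_apply k).comp (measurable_snd.comp measurable_snd)
  have h4 : Measurable fun p : (Fin d → ℝ) × ((Fin d → ℝ) × (Fin d → ℝ)) => nrm p.2.2 :=
    measurable_nrm.comp (measurable_snd.comp measurable_snd)
  exact h1.sub (h2.add ((h3.div h4).const_mul s))

private theorem Hit_iff {L : ℝ} (hL : 0 < L) (a : ℝ) (x y g : Fin d → ℝ) :
    Hit a L x y g ↔ ∃ t : ℚ, |(t : ℝ)| ≤ 1 ∧ ∑ k, (x k - pt y g (L / 2 * t) k) ^ 2 < a ^ 2 := by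
  constructor
  · rintro ⟨s, hs, h⟩
    have hL2 : 0 < L / 2 := by linarith
    obtain ⟨t0, ht0⟩ : ∃ t0 : ℝ, s = L / 2 * t0 := ⟨s / (L / 2), by field_simp⟩
    rw [ht0] at hs h
    have ht1 : |t0| ≤ 1 := by
      rw [abs_mul, abs_of_pos hL2] at hs
      nlinarith
    have hcont : Continuous fun t : ℝ => ∑ k, (x k - pt y g (L / 2 * t) k) ^ 2 := by
      unfold pt
      fun_prop
    have hopen : IsOpen {t : ℝ | ∑ k, (x k - pt y g (L / 2 * t) k) ^ 2 < a ^ 2} :=
      isOpen_lt hcont continuous_const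
    by_cases h1 : t0 = 1
    · refine ⟨1, by simp, ?_⟩
      rw [h1] at h
      simpa using h
    by_cases h2 : t0 = -1
    · refine ⟨-1, by simp, ?_⟩
      rw [h2] at h
      push_cast
      exact h
    · rw [abs_le] at ht1
      have h3 : t0 ∈ Set.Ioo (-1 : ℝ) 1 := ⟨lt_of_le_of_ne ht1.1 (Ne.symm h2), lt_of_le_of_ne ht1.2 h1⟩
      obtain ⟨q, hq⟩ := Rat.denseRange_cast.exists_mem_open (hopen.inter isOpen_Ioo)
        (⟨t0, h, h3⟩ : ({t : ℝ | ∑ k, (x k - pt y g (L / 2 * t) k) ^ 2 < a ^ 2} ∩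
          Set.Ioo (-1 : ℝ) 1).Nonempty)
      exact ⟨q, abs_le.2 ⟨hq.2.1.le, hq.2.2.le⟩, hq.1⟩
  · rintro ⟨t, ht, h⟩
    refine ⟨L / 2 * t, ?_, h⟩
    rw [abs_mul, abs_of_pos (by linarith : 0 < L / 2)]
    nlinarith

theorem measurableSet_Hit2 {L : ℝ} (hL : 0 < L) (a : ℝ) :
    MeasurableSet {p : (Fin d → ℝ) × ((Fin d → ℝ) × (Fin d → ℝ)) | Hit a L p.1 p.2.1 p.2.2} := by
  have e : {p : (Fin d → ℝ) × ((Fin d → ℝ) × (Fin d → ℝ)) | Hit a L p.1 p.2.1 p.2.2} =
      ⋃ t : ℚ, {p | |(t : ℝ)| ≤ 1 ∧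
        ∑ k, (p.1 k - pt p.2.1 p.2.2 (L / 2 * t) k) ^ 2 < a ^ 2} := by
    ext p
    rw [Set.mem_iUnion]
    exact Hit_iff hL a p.1 p.2.1 p.2.2
  rw [e]
  refine MeasurableSet.iUnion fun t => ?_
  by_cases ht : |(t : ℝ)| ≤ 1
  · simp only [ht, true_and]
    exact measurableSet_fix a _
  · simp only [ht, false_and]
    simp

theorem measurableSet_ball1 : MeasurableSet {g : Fin d → ℝ | ∑ k, g k ^ 2 ≤ 1} :=
  measurableSet_le (Finset.measurable_sum _ fun k _ => (measurable_pi_apply k).pow_const 2)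
    measurable_const

theorem kap_ne : volume {g : Fin d → ℝ | ∑ k, g k ^ 2 ≤ 1} ≠ ⊤ := by
  refine ne_top_of_le_ne_top (isCompact_Icc (a := fun _ : Fin d => (-1 : ℝ))
    (b := fun _ => 1)).measure_lt_top.ne (measure_mono ?_)
  intro g hg
  have hk : ∀ k, |g k| ≤ 1 := by
    intro k
    rw [← sq_le_one_iff_abs_le_one]
    exact (single_le_sum (f := fun k => g k ^ 2) (fun i _ => sq_nonneg _) (mem_univ k)).trans hg
  exact ⟨fun k => (abs_le.1 (hk k)).1, fun k => (abs_le.1 (hk k)).2⟩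

theorem kap_pos (hd : 1 ≤ d) : 0 < kap d := by
  unfold kap
  refine ENNReal.toReal_pos ?_ kap_ne
  have hopen : IsOpen {g : Fin d → ℝ | ∑ k, g k ^ 2 < 1} :=
    isOpen_lt (by fun_prop) continuous_const
  have h1 : 0 < volume {g : Fin d → ℝ | ∑ k, g k ^ 2 < 1} :=
    hopen.measure_pos _ ⟨0, by simp⟩
  refine (lt_of_lt_of_le h1 (measure_mono ?_)).ne'
  intro g hg
  have hg' : ∑ k, g k ^ 2 < 1 := hg
  exact hg'.le

/-- The spheres which meet a needle are near its centre. -/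
theorem near_of_Hit {a L : ℝ} (ha : 0 < a) {x y g : Fin d → ℝ} (h : Hit a L x y g) (k : Fin d) :
    |x k - y k| < L / 2 + a := by
  obtain ⟨s, hs, h⟩ := h
  have h1 : |x k - pt y g s k| < a := by
    have h2 : (x k - pt y g s k) ^ 2 < a ^ 2 :=
      lt_of_le_of_lt (single_le_sum (f := fun k => (x k - pt y g s k) ^ 2)
        (fun i _ => sq_nonneg _) (mem_univ k)) h
    exact abs_lt_of_sq_lt_sq h2 ha.le
  have h3 : |g k / nrm g| ≤ 1 := by
    have h4 : |g k| ≤ nrm g := by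
      unfold nrm
      refine Real.abs_le_sqrt ?_
      exact single_le_sum (f := fun k => g k ^ 2) (fun i _ => sq_nonneg _) (mem_univ k)
    have h0 : 0 ≤ nrm g := Real.sqrt_nonneg _
    rw [abs_div, abs_of_nonneg h0]
    exact div_le_one_of_le₀ h4 h0
  have h5 : |pt y g s k - y k| ≤ L / 2 := by
    unfold pt
    rw [add_sub_cancel_left, abs_mul]
    calc |s| * |g k / nrm g| ≤ |s| * 1 := mul_le_mul_of_nonneg_left h3 (abs_nonneg _)
      _ ≤ L / 2 := by rw [mul_one]; exact hs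
  calc |x k - y k| = |(x k - pt y g s k) + (pt y g s k - y k)| := by ring_nf
    _ ≤ |x k - pt y g s k| + |pt y g s k - y k| := abs_add_le _ _
    _ < L / 2 + a := by linarith

end Pool.Agent.Nbm
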