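import Pool.Agent.Lib.MP_09cbbd_ndm.BXH

/-!
# Boxes which are divided into cubes

Row SUP. `XH_super`: `n ^ d` translates of `Box d s` by the vectors of `(s + 2 a) {0, .., n-1}^d` are
contained in `Box d (n (s + 2 a))` and at distance at least `2 a` (`Far (2 a)`): induction on the
number of translates with `CanM.Xi_far` (`MP_09cbbd_mx/CanA.lean`) and `Xi_tr`, `CanM.Xi_mono`
(compare `can_super` in `MP_09cbbd_mp_h27/PsCan.lean`). `Xi_cells`: union of `k` cells of side `l`,
induction with `Xi_sub`.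
-/

set_option autoImplicit false

namespace Pool.Agent.Nbm

open MeasureTheory Finset Filter Topology Pool.Agent.SquareWellGas Pool.Agent.SquareWell
  Pool.Agent.SquareWell.ModA Pool.Agent.ConfinedGas Pool.Agent.NeedleGas Pool.Agent.Ndl
open Pool.Agent.StableGas hiding tr
open Pool.Agent.Mix (Ct Sys Qr mem_Qr)
open Pool.Agent.Mix.ModX (tr mp_tr sq_tr)

variable {d : ℕ}

private theorem meas_tr (s : ℝ) (v : Fin d → ℝ) :
    MeasurableSet {x : Fin d → ℝ | (fun k => x k - v k) ∈ Box d s} := by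
  have hm : Measurable fun (x : Fin d → ℝ) (k : Fin d) => x k - v k :=
    measurable_pi_lambda _ fun k => (measurable_pi_apply k).sub_const _
  exact hm (measurableSet_Box' s)

private theorem super_aux {a : ℝ} (ha : 0 < a) (μ : ℝ) (s : ℝ) {ι : Type} [DecidableEq ι]
    (v : ι → Fin d → ℝ) (F : Finset ι)
    (hv : ∀ i ∈ F, ∀ j ∈ F, i ≠ j → ∃ k, s + 2 * a ≤ |v i k - v j k|) :
    Xi volume (2 * a) (ex μ) (⋃ i ∈ F, {x | (fun k => x k - v i k) ∈ Box d s}) =
      XH d a μ s ^ F.card := by
  induction F using Finset.induction_on with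
  | empty =>
    simp only [notMem_empty, Set.iUnion_of_empty, Set.iUnion_empty, card_empty, pow_zero]
    refine le_antisymm ?_ (Pool.Agent.Mix.CanM.one_le_Xi _ _ _ _)
    have h := Pool.Agent.Mix.CanM.Xi_le (volume : Measure (Fin d → ℝ)) (2 * a) (ex μ)
      (A := ∅) (by simp)
    simpa [ex_zero] using h
  | insert i F hi ih =>
    rw [set_biUnion_insert, card_insert_of_notMem hi, pow_succ, mul_comm (XH d a μ s ^ F.card)]
    have hm : MeasurableSet (⋃ j ∈ F, {x : Fin d → ℝ | (fun k => x k - v j k) ∈ Box d s}) :=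
      F.measurableSet_biUnion fun j _ => meas_tr s (v j)
    rw [Pool.Agent.Mix.CanM.Xi_far volume (2 * a) (ex μ) (R := 2 * a) (by linarith) le_rfl
      (meas_tr s (v i)) hm, ih fun j hj k hk => hv j (mem_insert_of_mem hj) k
      (mem_insert_of_mem hk), Xi_tr]
    refine Pool.Agent.Mix.CanM.far_of_coord (by linarith) fun x hx y hy => ?_
    simp only [Set.mem_iUnion] at hy
    obtain ⟨j, hj, hy⟩ := hy
    obtain ⟨k, hk⟩ := hv i (mem_insert_self _ _) j (mem_insert_of_mem hj) (by
      rintro rfl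
      exact hi hj)
    refine ⟨k, ?_⟩
    have h1 := hx k
    have h2 := hy k
    simp only [Set.mem_Ico] at h1 h2
    have h3 : |(x k - v i k) - (y k - v j k)| ≤ s := by
      rw [abs_le]
      constructor <;> linarith [h1.1, h1.2, h2.1, h2.2]
    have h4 : |v i k - v j k| ≤ |x k - y k| + |(x k - v i k) - (y k - v j k)| := by
      have h5 := abs_sub (x k - y k) ((x k - v i k) - (y k - v j k))
      have h6 : (x k - y k) - ((x k - v i k) - (y k - v j k)) = v i k - v j k := by ring
      rwa [h6] at h5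
    linarith

theorem XH_super {a : ℝ} (ha : 0 < a) (μ : ℝ) {s : ℝ} (hs : 0 < s) (n : ℕ) :
    XH d a μ s ^ (n ^ d) ≤ XH d a μ (n * (s + 2 * a)) := by
  classical
  have hsa : 0 < s + 2 * a := by linarith
  have h := super_aux ha μ s (fun (u : Fin d → Fin n) (k : Fin d) =>
    ((u k : ℕ) : ℝ) * (s + 2 * a)) univ (by
    intro u _ w _ huw
    obtain ⟨k, hk⟩ : ∃ k, u k ≠ w k := by
      by_contra hcon
      push Not at hcon
      exact huw (funext hcon)
    refine ⟨k, ?_⟩
    rw [← sub_mul, abs_mul, abs_of_pos hsa]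
    have h1 : (1 : ℝ) ≤ |((u k : ℕ) : ℝ) - ((w k : ℕ) : ℝ)| := by
      have h2 : (1 : ℤ) ≤ |((u k : ℕ) : ℤ) - ((w k : ℕ) : ℤ)| := by
        refine Int.one_le_abs fun h3 => hk (Fin.ext ?_)
        omega
      exact_mod_cast h2
    nlinarith)
  rw [card_univ, Fintype.card_fun, Fintype.card_fin, Fintype.card_fin] at h
  rw [← h]
  refine Pool.Agent.Mix.CanM.Xi_mono _ _ _ ?_
  intro x hx
  simp only [Set.mem_iUnion] at hx
  obtain ⟨u, _, hx⟩ := hx
  intro k
  have h1 := hx k
  simp only [Set.mem_Ico] at h1 ⊢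
  have hu : ((u k : ℕ) : ℝ) + 1 ≤ n := by
    have : (u k : ℕ) + 1 ≤ n := (u k).2
    exact_mod_cast this
  have h2 : 0 ≤ ((u k : ℕ) : ℝ) * (s + 2 * a) := by positivity
  have h3 : (((u k : ℕ) : ℝ) + 1) * (s + 2 * a) ≤ n * (s + 2 * a) :=
    mul_le_mul_of_nonneg_right hu hsa.le
  exact ⟨by linarith [h1.1], by linarith [h1.2]⟩

private theorem cell_eq (l : ℝ) (v : Fin d → ℤ) :
    (cell l v : Set (Fin d → ℝ)) =
      {x | (fun k => x k - (fun k => (v k : ℝ) * l) k) ∈ Box d l} := by
  ext x
  simp only [NeedleGas.cell, Box, Set.mem_ofPred_eq, Set.mem_Ico]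
  refine forall_congr' fun k => ?_
  constructor <;> rintro ⟨h1, h2⟩ <;> constructor <;> linarith

private theorem cell_inj {l : ℝ} (hl : 0 < l) {v w : Fin d → ℤ} {x : Fin d → ℝ}
    (hv : x ∈ cell l v) (hw : x ∈ cell l w) : v = w := by
  funext k
  have h1 := hv k
  have h2 := hw k
  have h3 : (v k : ℝ) < (w k : ℝ) + 1 := by
    by_contra hcon
    push Not at hcon
    have := mul_le_mul_of_nonneg_right hcon hl.le
    linarith [h1.1, h2.2]
  have h4 : (w k : ℝ) < (v k : ℝ) + 1 := by
    by_contra hcon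
    push Not at hcon
    have := mul_le_mul_of_nonneg_right hcon hl.le
    linarith [h2.1, h1.2]
  have h5 : v k < w k + 1 := by exact_mod_cast h3
  have h6 : w k < v k + 1 := by exact_mod_cast h4
  omega

theorem Xi_cells (a μ : ℝ) {l : ℝ} (hl : 0 < l) (O : Finset (Fin d → ℤ)) :
    Xi volume (2 * a) (ex μ) (⋃ v ∈ O, cell l v) ≤ XH d a μ l ^ O.card := by
  classical
  induction O using Finset.induction_on with
  | empty =>
    simp only [notMem_empty, Set.iUnion_of_empty, Set.iUnion_empty, card_empty, pow_zero]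
    have h := Pool.Agent.Mix.CanM.Xi_le (volume : Measure (Fin d → ℝ)) (2 * a) (ex μ)
      (A := ∅) (by simp)
    simpa [ex_zero] using h
  | insert v O hv ih =>
    have hm : ∀ w : Fin d → ℤ, MeasurableSet (cell l w : Set (Fin d → ℝ)) := by
      intro w
      rw [cell_eq]
      exact meas_tr l _
    rw [set_biUnion_insert, card_insert_of_notMem hv, pow_succ, Set.union_comm]
    have hdis : Disjoint (⋃ w ∈ O, cell l w) (cell l v : Set (Fin d → ℝ)) := by
      rw [Set.disjoint_left]
      intro x hx hxv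
      simp only [Set.mem_iUnion] at hx
      obtain ⟨w, hw, hxw⟩ := hx
      exact hv (cell_inj hl hxw hxv ▸ hw)
    have hc : volume (cell l v : Set (Fin d → ℝ)) ≠ ⊤ := by
      rw [cell_eq]
      have h1 : {x : Fin d → ℝ | (fun k => x k - (fun k => (v k : ℝ) * l) k) ∈ Box d l} =
          (fun y : Fin d → ℝ => y + fun k => - ((v k : ℝ) * l)) ⁻¹' Box d l := by
        ext x
        simp only [Set.mem_ofPred_eq, Set.mem_preimage]
        have : (x + fun k => - ((v k : ℝ) * l)) = fun k => x k - (v k : ℝ) * l := by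
          funext k
          simp [sub_eq_add_neg]
        rw [this]
      rw [h1, measure_preimage_add_right]
      exact Pool.Agent.Mix.CanM.volume_Box_ne _
    refine (Xi_sub a μ (O.measurableSet_biUnion fun w _ => hm w) (hm v) hdis hc).trans ?_
    refine mul_le_mul' ih (le_of_eq ?_)
    rw [cell_eq, Xi_tr]

end Pool.Agent.Nbm
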