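import Pool.Agent.Lib.MP_09cbbd_ndm.BMod
import Pool.Agent.Lib.MP_09cbbd_ndm.BSup

/-!
# Masses of the contents

Row LAM. `∫⁻ x in S, ex (m * a x)` with `lint_pg1`; on `Cf (2 a) (Fin n) (Box d h)` the content
`pad 0 u` is valid (`Vx_pad`), so `nx = n` and the weight is `ex (m / NN) ^ n`. `lam_ins`: the
contents of `Ins`: all points in the box `[2 a, h - 2 a)^d`, a translate of `Box d (h - 4 a)`
(`Xi_tr`). `lam_oc`: `{oc = k}` is contained in the union over the sets `O` of `k` cells of the
contents with all points in the cells of `O`; `Xi_cells`; the number of the sets is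
`(K ^ d).choose k ≤ 2 ^ (K ^ d) ≤ exp (K ^ d)`.
-/

set_option autoImplicit false

namespace Pool.Agent.Nbm

open MeasureTheory Finset Filter Topology Pool.Agent.SquareWellGas Pool.Agent.SquareWell
  Pool.Agent.SquareWell.ModA Pool.Agent.ConfinedGas Pool.Agent.NeedleGas Pool.Agent.Ndl
open Pool.Agent.StableGas hiding tr
open Pool.Agent.Mix (Ct Sys Qr mem_Qr)
open Pool.Agent.Mix.ModX (tr mp_tr sq_tr)

variable {d : ℕ}

private theorem nx_pad {a h : ℝ} {n : ℕ} {u : Fin n → Fin d → ℝ}
    (hu : u ∈ Cf (2 * a) (Fin n) (Box d h)) : nx a h (Ct.pad 0 u) = n := by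
  classical
  unfold nx
  rw [if_pos (Vx_pad hu)]
  rfl

private theorem lam_formula {K : ℕ} {a l : ℝ} (H : Cel d K a l) (m : ℝ) {S : Set (Cn d)}
    (hS : MeasurableSet S) :
    (cellNx H).lam m S = ∑' n : ℕ, ex (m / NN d K a l) ^ n * ((n.factorial : ENNReal))⁻¹ *
      volume (Cf (2 * a) (Fin n) (Box d (K * l)) ∩ {u | Ct.pad 0 u ∈ S}) := by
  classical
  have hst : ∀ x : Cn d, (cellNx H).st m x = ex (m * ((nx a (K * l) x : ℝ) / NN d K a l)) :=
    fun x => rfl
  have hmst : Measurable fun x : Cn d => ex (m * ((nx a (K * l) x : ℝ) / NN d K a l)) := by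
    have h1 : Measurable fun x : Cn d => (nx a (K * l) x : ℝ) :=
      (measurable_from_top (f := fun n : ℕ => (n : ℝ))).comp (measurable_nx a (K * l))
    unfold ex
    exact ENNReal.measurable_ofReal.comp (Real.measurable_exp.comp ((h1.div_const _).const_mul _))
  unfold Nx.lam
  simp only [hst]
  have hpi : (cellNx H).π = (sys d a (K * l)).pg := rfl
  rw [hpi, ← lintegral_indicator hS, lint_pg1 a (K * l) (hmst.indicator hS)]
  refine tsum_congr fun n => ?_
  have hC := measurableSet_Cf (2 * a) (Fin n) (measurableSet_Box' (d := d) (K * l))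
  have hP : MeasurableSet {u : Fin n → Fin d → ℝ | Ct.pad 0 u ∈ S} :=
    (Pool.Agent.Mix.Ct.measurable_pad (0 : Fin d → ℝ) n) hS
  have e : ∫⁻ u in Cf (2 * a) (Fin n) (Box d (K * l)),
      S.indicator (fun x : Cn d => ex (m * ((nx a (K * l) x : ℝ) / NN d K a l)))
        (Ct.pad 0 u) = ∫⁻ u in Cf (2 * a) (Fin n) (Box d (K * l)),
      {u : Fin n → Fin d → ℝ | Ct.pad 0 u ∈ S}.indicator
        (fun _ => ex (m / NN d K a l) ^ n) u := by
    refine setLIntegral_congr_fun hC fun u hu => ?_
    by_cases h : Ct.pad 0 u ∈ S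
    · rw [Set.indicator_of_mem h, Set.indicator_of_mem (show u ∈ {u | Ct.pad 0 u ∈ S} from h),
        nx_pad hu, ex_pow]
      congr 1
      ring
    · rw [Set.indicator_of_notMem h,
        Set.indicator_of_notMem (show u ∉ {u | Ct.pad 0 u ∈ S} from h)]
  rw [e, lintegral_indicator_const hP, Measure.restrict_apply hP, Set.inter_comm]
  ring

theorem lam_univ {K : ℕ} {a l : ℝ} (H : Cel d K a l) (m : ℝ) :
    (cellNx H).lam m Set.univ = XH d a (m / NN d K a l) (K * l) := by
  rw [lam_formula H m MeasurableSet.univ]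
  unfold XH Xi
  refine tsum_congr fun n => ?_
  congr 1
  simp only [Set.mem_univ, Set.ofPred_true, Set.inter_univ]
  rfl

theorem lam_ins {K : ℕ} {a l : ℝ} (H : Cel d K a l) (m : ℝ) :
    (cellNx H).lam m (cellNx H).I = XH d a (m / NN d K a l) (K * l - 4 * a) := by
  have hI : (cellNx H).I = Ins a (K * l) := rfl
  rw [hI, lam_formula H m (measurableSet_Ins a (K * l)),
    ← Xi_tr a (m / NN d K a l) (K * l - 4 * a) fun _ => 2 * a]
  unfold Xi
  refine tsum_congr fun n => ?_
  congr 1
  unfold mC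
  have ha := H.ha
  have e : Cf (2 * a) (Fin n) (Box d (K * l)) ∩ {u | Ct.pad 0 u ∈ Ins a (K * l)} =
      Cf (2 * a) (Fin n) {x : Fin d → ℝ | (fun k => x k - 2 * a) ∈ Box d (K * l - 4 * a)} := by
    ext u
    constructor
    · rintro ⟨h1, h2⟩
      refine ⟨fun i k => ?_, h1.2⟩
      have h3 := h2 i.1 i.2 k
      rw [Pool.Agent.Mix.Ct.pad_snd (0 : Fin d → ℝ) u i] at h3
      rw [Set.mem_Ico]
      constructor <;> linarith [h3.1, h3.2]
    · intro h1
      refine ⟨⟨fun i k => ?_, h1.2⟩, fun i hi k => ?_⟩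
      · have h3 := h1.1 i k
        simp only [Set.mem_Ico] at h3 ⊢
        constructor <;> linarith [h3.1, h3.2]
      · have hi' : i < n := hi
        have h4 := Pool.Agent.Mix.Ct.pad_snd (0 : Fin d → ℝ) u ⟨i, hi'⟩
        have h3 := h1.1 ⟨i, hi'⟩ k
        simp only [Set.mem_Ico] at h3
        have h5 : (Ct.pad 0 u : Cn d).2 i = u ⟨i, hi'⟩ := h4
        rw [h5]
        constructor <;> linarith [h3.1, h3.2]
  rw [e]
  rfl

private theorem card_cells (K : ℕ) : (cells K (0 : Fin d → ℤ)).card = K ^ d := by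
  unfold cells
  rw [Fintype.card_piFinset]
  simp

theorem lam_oc {K : ℕ} {a l : ℝ} (H : Cel d K a l) (m : ℝ) (k : ℕ) :
    (cellNx H).lam m {x | oc K l x = k} ≤
      ex ((K : ℝ) ^ d) * XH d a (m / NN d K a l) l ^ k := by
  classical
  have hl := H.l_pos
  have hS : MeasurableSet {x : Cn d | oc K l x = k} :=
    (measurable_oc K l) (measurableSet_singleton k)
  rw [lam_formula H m hS]
  obtain ⟨P, hP⟩ : ∃ P : Finset (Finset (Fin d → ℤ)),
      P = powersetCard k (cells K (0 : Fin d → ℤ)) := ⟨_, rfl⟩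
  have h1 : ∀ n : ℕ, volume (Cf (2 * a) (Fin n) (Box d (K * l)) ∩
      {u | Ct.pad 0 u ∈ {x : Cn d | oc K l x = k}}) ≤
      ∑ O ∈ P, mC (volume : Measure (Fin d → ℝ)) (2 * a) (Fin n)
        (⋃ v ∈ O, NeedleGas.cell l v) := by
    intro n
    refine le_trans (measure_mono (t := ⋃ O ∈ P, Cf (2 * a) (Fin n)
      (⋃ v ∈ O, NeedleGas.cell l v)) ?_) (measure_biUnion_finset_le P _)
    rintro u ⟨hu, huk⟩
    simp only [Set.mem_iUnion]
    refine ⟨(cells K (0 : Fin d → ℤ)).filter fun v => ∃ j, j < (Ct.pad 0 u : Cn d).1 ∧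
      (Ct.pad 0 u : Cn d).2 j ∈ NeedleGas.cell l v, ?_, ?_⟩
    · rw [hP, mem_powersetCard]
      exact ⟨filter_subset _ _, huk⟩
    · refine ⟨fun i => ?_, hu.2⟩
      simp only [Set.mem_iUnion]
      refine ⟨fun j => ⌊u i j / l⌋, ?_, ?_⟩
      · rw [mem_filter]
        refine ⟨?_, i.1, i.2, ?_⟩
        · unfold cells
          rw [Fintype.mem_piFinset]
          intro j
          have h3 := hu.1 i j
          simp only [Set.mem_Ico] at h3
          rw [Finset.mem_Ico]
          simp only [Pi.zero_apply, zero_mul, zero_add, one_mul]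
          refine ⟨Int.floor_nonneg.2 (div_nonneg h3.1 hl.le), ?_⟩
          rw [Int.floor_lt, div_lt_iff₀ hl]
          exact_mod_cast h3.2
        · rw [Pool.Agent.Mix.Ct.pad_snd (0 : Fin d → ℝ) u i]
          intro j
          have h4 := Int.floor_le (u i j / l)
          have h5 := Int.lt_floor_add_one (u i j / l)
          rw [le_div_iff₀ hl] at h4
          rw [div_lt_iff₀ hl] at h5
          exact ⟨h4, h5⟩
      · intro j
        have h4 := Int.floor_le (u i j / l)
        have h5 := Int.lt_floor_add_one (u i j / l)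
        rw [le_div_iff₀ hl] at h4
        rw [div_lt_iff₀ hl] at h5
        exact ⟨h4, h5⟩
  calc ∑' n : ℕ, ex (m / NN d K a l) ^ n * ((n.factorial : ENNReal))⁻¹ *
        volume (Cf (2 * a) (Fin n) (Box d (K * l)) ∩
          {u | Ct.pad 0 u ∈ {x : Cn d | oc K l x = k}})
      ≤ ∑' n : ℕ, ∑ O ∈ P, ex (m / NN d K a l) ^ n * ((n.factorial : ENNReal))⁻¹ *
        mC (volume : Measure (Fin d → ℝ)) (2 * a) (Fin n) (⋃ v ∈ O, NeedleGas.cell l v) := by
        refine ENNReal.tsum_le_tsum fun n => ?_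
        rw [← mul_sum]
        exact mul_le_mul' le_rfl (h1 n)
    _ = ∑ O ∈ P, Xi volume (2 * a) (ex (m / NN d K a l)) (⋃ v ∈ O, NeedleGas.cell l v) := by
        rw [Summable.tsum_finsetSum fun _ _ => ENNReal.summable]
        rfl
    _ ≤ ∑ O ∈ P, XH d a (m / NN d K a l) l ^ k := by
        refine sum_le_sum fun O hO => ?_
        have h2 := Xi_cells a (m / NN d K a l) hl O
        rw [hP, mem_powersetCard] at hO
        rwa [hO.2] at h2
    _ = (P.card : ENNReal) * XH d a (m / NN d K a l) l ^ k := by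
        rw [sum_const, nsmul_eq_mul]
    _ ≤ ex ((K : ℝ) ^ d) * XH d a (m / NN d K a l) l ^ k := by
        refine mul_le_mul' ?_ le_rfl
        have h2 : P.card ≤ 2 ^ (K ^ d) := by
          rw [hP, card_powersetCard, card_cells]
          exact Nat.choose_le_two_pow _ _
        have h3 : (P.card : ℝ) ≤ Real.exp ((K : ℝ) ^ d) := by
          calc (P.card : ℝ) ≤ (2 : ℝ) ^ (K ^ d) := by exact_mod_cast h2
            _ ≤ Real.exp 1 ^ (K ^ d) := pow_le_pow_left₀ (by norm_num) (by
                have := Real.add_one_le_exp (1 : ℝ)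
                linarith) _
            _ = Real.exp ((K : ℝ) ^ d) := by
                rw [← Real.exp_nat_mul]
                congr 1
                push_cast
                ring
        unfold ex
        rw [← ENNReal.ofReal_natCast]
        exact ENNReal.ofReal_le_ofReal h3

end Pool.Agent.Nbm
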