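import Pool.Agent.Lib.MP_09cbbd_ndm.BMod

/-!
# The link for product weights

Row LKQ. The link for a product weight: as `link0`, `w_eq`, `g_eq`, `cells_box`, `mem_cell` of
`MP_09cbbd_mx/Mod.lean`, from `Sys.linkJ`; the left side is `lmarginal` of the weight `WL φ`, the
contents are valid almost surely (`ae_Vx`), and for valid contents the product of the factors `g` is
the indicator of `cp` (`okc_far` for the far pairs). The right side is `Xg` of
`φ * (Box d (n h)).indicator 1`.
-/

set_option autoImplicit false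

namespace Pool.Agent.Nbm

open MeasureTheory Finset Filter Topology Pool.Agent.SquareWellGas Pool.Agent.SquareWell
  Pool.Agent.SquareWell.ModA Pool.Agent.ConfinedGas Pool.Agent.NeedleGas Pool.Agent.Ndl
open Pool.Agent.StableGas hiding tr
open Pool.Agent.Mix (Ct Sys Qr mem_Qr)
open Pool.Agent.Mix.ModX (tr mp_tr sq_tr)

variable {d : ℕ}

private theorem mem_cell {h : ℝ} (hl : 0 < h) (i : Zd d) (x : Fin d → ℝ) :
    tr h (-i) x ∈ Box d h ↔ ∀ k, i k = ⌊x k / h⌋ := by
  unfold Box tr
  simp only [Set.mem_ofPred_eq]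
  refine forall_congr' fun k => ?_
  have h1 : x k = x k / h * h := by field_simp
  obtain ⟨t, ht⟩ : ∃ t, t = x k / h := ⟨_, rfl⟩
  rw [← ht] at h1 ⊢
  rw [eq_comm, Int.floor_eq_iff, Set.mem_Ico]
  simp only [Pi.neg_apply, Int.cast_neg]
  rw [h1]
  constructor
  · rintro ⟨h2, h3⟩
    constructor
    · by_contra h
      push Not at h
      have := mul_pos hl (sub_pos.2 h)
      linarith [this]
    · by_contra h
      push Not at h
      have := mul_nonneg hl.le (sub_nonneg.2 h)
      linarith [this]
  · rintro ⟨h2, h3⟩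
    constructor
    · have := mul_nonneg hl.le (sub_nonneg.2 h2)
      linarith [this]
    · have := mul_pos hl (sub_pos.2 h3)
      linarith [this]

private theorem cells_box {a h : ℝ} (hl : 0 < h) (φ : (Fin d → ℝ) → ENNReal) (L : ℕ) :
    (fun p : Fin d → ℝ => ∑ i ∈ bx d L, φ p * (sys d a h).cI i p) =
      fun p => φ p * (Box d (L * h)).indicator 1 p := by
  funext p
  have h1 : ∀ i : Zd d, (sys d a h).cI i p =
      if i = (fun k => ⌊p k / h⌋) then 1 else 0 := by
    intro i
    change (Box d h).indicator 1 (tr h (-i) p) = _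
    by_cases hi : i = fun k => ⌊p k / h⌋
    · rw [if_pos hi, Set.indicator_of_mem]
      · simp
      · exact (mem_cell hl i p).2 fun k => congrFun hi k
    · rw [if_neg hi, Set.indicator_of_notMem]
      exact fun h' => hi (funext ((mem_cell hl i p).1 h'))
  have h2 : (fun k => ⌊p k / h⌋) ∈ bx d L ↔ p ∈ Box d (L * h) := by
    unfold bx Box
    simp only [Fintype.mem_piFinset, Set.mem_ofPred_eq, Finset.mem_Ico, Set.mem_Ico]
    refine forall_congr' fun k => ?_
    rw [Int.floor_lt, Int.floor_nonneg, div_lt_iff₀ hl]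
    refine and_congr ?_ Iff.rfl
    constructor
    · intro h
      by_contra h'
      push Not at h'
      exact absurd h (not_le.2 (div_neg_of_neg_of_pos h' hl))
    · intro h
      exact div_nonneg h hl.le
  simp only [h1, mul_ite, mul_one, mul_zero]
  rw [Finset.sum_ite_eq']
  by_cases h3 : p ∈ Box d (L * h)
  · rw [if_pos (h2.2 h3), Set.indicator_of_mem h3, Pi.one_apply, mul_one]
  · rw [if_neg (fun h => h3 (h2.1 h)), Set.indicator_of_notMem h3, mul_zero]

/-- The weight of hard spheres. -/
private theorem Gw_ps {a : ℝ} (A : Set (Fin d → ℝ)) {k : ℕ} (x : Fin k → Fin d → ℝ) :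
    Gw (ps a) (A.indicator 1) x = (Cf (2 * a) (Fin k) A).indicator 1 x := by
  classical
  unfold Gw Pr
  by_cases hx : x ∈ Cf (2 * a) (Fin k) A
  · rw [Set.indicator_of_mem hx]
    rw [prod_eq_one fun i _ => ?_, prod_eq_one fun i _ => prod_eq_one fun j _ => ?_]
    · simp
    · by_cases h : i = j
      · rw [if_pos h]
      · rw [if_neg h, ps_eq_one]
        exact hx.2 i j h
    · rw [Set.indicator_of_mem (hx.1 i)]
      rfl
  · rw [Set.indicator_of_notMem hx]
    by_contra hne
    apply hx
    have h1 : (∏ i, A.indicator (1 : (Fin d → ℝ) → ENNReal) (x i)) ≠ 0 := left_ne_zero_of_mul hne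
    have h2 := right_ne_zero_of_mul hne
    rw [prod_ne_zero_iff] at h1 h2
    refine ⟨fun i => ?_, fun i j hij => ?_⟩
    · by_contra hcon
      exact h1 i (mem_univ i) (Set.indicator_of_notMem hcon _)
    · have h3 := h2 i (mem_univ i)
      rw [prod_ne_zero_iff] at h3
      have h4 := h3 j (mem_univ j)
      rw [if_neg hij, ps_ne_zero] at h4
      exact h4

/-- The factor of the interaction of two blocks. -/
private theorem g_eq {a h : ℝ} (v : Zd d) (x z : Cn d) : (sys d a h).g v x z =
    open Classical in if okc a h v x z then 1 else 0 := by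
  classical
  unfold Sys.g Ct.cp
  split_ifs with h
  · refine prod_eq_one fun k hk => prod_eq_one fun l hl => ?_
    rw [mem_range] at hk hl
    exact ps_eq_one.2 (h k hk l hl)
  · unfold okc at h
    push Not at h
    obtain ⟨k, hk, l, hl, h1⟩ := h
    refine prod_eq_zero (mem_range.2 hk) (prod_eq_zero (mem_range.2 hl) ?_)
    by_contra hne
    have h2 := ps_ne_zero.1 hne
    exact absurd h2 (not_le.2 h1)

/-- The weights agree on valid contents. -/
private theorem w_eq {K : ℕ} {a l : ℝ} (H : Cel d K a l) (φ : (Fin d → ℝ) → ENNReal)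
    (A : Finset (Zd d)) {ω : Zd d → Cn d} (hω : ∀ i ∈ A, Vx a (K * l) (ω i)) :
    (∏ i ∈ A, Ct.cp (ω i) fun y => φ (tr (K * l) i y)) *
        (open Classical in if (cellNx H).cp id A ω then 1 else 0) =
      (sys d a (K * l)).WL φ A ω := by
  classical
  unfold Sys.WL
  congr 1
  by_cases h : (cellNx H).cp id A ω
  · rw [if_pos h]
    symm
    refine prod_eq_one fun i hi => prod_eq_one fun j hj => ?_
    rw [mem_erase] at hj
    rw [g_eq, if_pos]
    by_cases hv : j - i ∈ Qr d 1
    · have h1 := h (j - i) hv (sub_ne_zero.2 hj.1) i hi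
      simp only [id, add_sub_cancel] at h1
      exact h1 hj.2 hv (hω i hi) (hω j hj.2)
    · exact okc_far H.ha H.two_a_le hv (hω i hi) (hω j hj.2)
  · rw [if_neg h]
    symm
    unfold Nx.cp at h
    push Not at h
    obtain ⟨v, hv, hv0, i, hi, hiv, h1⟩ := h
    simp only [id] at hiv h1
    have hj : i + v ∈ A.erase i := by
      rw [mem_erase]
      exact ⟨fun h => hv0 (by simpa using h), hiv⟩
    refine prod_eq_zero hi (prod_eq_zero hj ?_)
    rw [g_eq, if_neg]
    rw [add_sub_cancel_left]
    exact fun h2 => h1 fun _ _ _ => h2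

open Classical in
theorem link_prod {K : ℕ} {a l : ℝ} (H : Cel d K a l) (n : ℕ) {φ : (Fin d → ℝ) → ENNReal}
    (hφ : Measurable φ) :
    (cellNx H).int (bx d n) (fun ω =>
        (∏ i ∈ bx d n, Ct.cp (ω i) fun y => φ (tr (K * l) i y)) *
          if (cellNx H).cp id (bx d n) ω then 1 else 0) =
      ∑' k : ℕ, ((k.factorial : ENNReal))⁻¹ *
        ∫⁻ x in Cf (2 * a) (Fin k) (Box d (n * (K * l))), ∏ i, φ (x i) := by
  have hfin : IsFiniteMeasure (sys d a (K * l)).pg := ⟨(pg_ne_top a (K * l)).lt_top⟩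
  have h1 := (sys d a (K * l)).linkJ (bx d n) φ hφ fun _ => e0
  rw [cells_box H.h_pos φ n] at h1
  have e1 : Xg (sys d a (K * l)).m (sys d a (K * l)).ψ
      (fun p => φ p * (Box d (n * (K * l))).indicator 1 p) =
      ∑' k : ℕ, ((k.factorial : ENNReal))⁻¹ *
        ∫⁻ x in Cf (2 * a) (Fin k) (Box d (n * (K * l))), ∏ i, φ (x i) := by
    unfold Xg
    refine tsum_congr fun k => ?_
    congr 1
    have hm := measurableSet_Cf (2 * a) (Fin k) (measurableSet_Box' (d := d) (n * (K * l)))
    rw [← lintegral_indicator hm]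
    change ∫⁻ u : Fin k → Fin d → ℝ, Gw (ps a) _ u ∂(Measure.pi fun _ => volume) = _
    rw [← volume_pi]
    refine lintegral_congr fun u => ?_
    rw [Sys.Gw_mul, Gw_ps]
    by_cases hu : u ∈ Cf (2 * a) (Fin k) (Box d (n * (K * l)))
    · rw [Set.indicator_of_mem hu, Set.indicator_of_mem hu, Pi.one_apply, mul_one]
    · rw [Set.indicator_of_notMem hu, Set.indicator_of_notMem hu, mul_zero]
  rw [← e1]
  refine Eq.trans ?_ h1.symm
  unfold Nx.int lmarginal
  refine lintegral_congr_ae ?_
  have h2 : ∀ i : bx d n, ∀ᵐ x ∂(Measure.pi fun _ : bx d n => (sys d a (K * l)).pg),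
      Vx a (K * l) (x i) := fun i =>
    (Measure.tendsto_eval_ae_ae (i := i)).eventually (ae_Vx a (K * l))
  have h3 := ae_all_iff.2 h2
  filter_upwards [h3] with x hx
  refine w_eq H φ (bx d n) fun i hi => ?_
  rw [Function.updateFinset_def]
  simp only [hi, dif_pos]
  exact hx ⟨i, hi⟩

end Pool.Agent.Nbm
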