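import Pool.Agent.Lib.MP_09cbbd_ndm.BDef

/-!
# Valid and compatible contents

Row OK. Copies of the facts of `MP_09cbbd_mx/ModM.lean` (one species) and of
`MP_09cbbd_mx/ModV.lean` (`far_of_Qb`, `nr`). `okc_far`: for `v ∉ Qr d 1` some `|v k| ≥ 2`, so the
`k`-th coordinates of a point of the block `0` and of a point of the block `v` differ by at least
`h ≥ 2 a`. `okc_ins`: `x ∈ Ins a h`, `v k ≠ 0`: the `k`-th coordinates differ by at least `2 a`.
-/

set_option autoImplicit false

namespace Pool.Agent.Nbm

open MeasureTheory Finset Filter Topology Pool.Agent.SquareWellGas Pool.Agent.SquareWell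
  Pool.Agent.SquareWell.ModA Pool.Agent.ConfinedGas Pool.Agent.NeedleGas Pool.Agent.Ndl
open Pool.Agent.StableGas hiding tr
open Pool.Agent.Mix (Ct Sys Qr mem_Qr)
open Pool.Agent.Mix.ModX (tr mp_tr sq_tr)

variable {d : ℕ}

private theorem meas_lt (k : ℕ) {Y : Type} [MeasurableSpace Y] {f : Y → ℕ}
    (hf : Measurable f) : Measurable fun p : Y => k < f p := by
  rw [← measurableSet_setOfPred]
  exact hf (MeasurableSet.of_discrete (s := {n | k < n}))

private theorem meas_at (k : ℕ) : Measurable fun x : Cn d => x.2 k :=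
  (measurable_pi_apply k).comp measurable_snd

private theorem meas_D (a : ℝ) {Y : Type} [MeasurableSpace Y] {f g : Y → Fin d → ℝ}
    (hf : Measurable f) (hg : Measurable g) :
    Measurable fun p : Y => (2 * a) ^ 2 ≤ ConfinedGas.sq (f p) (g p) := by
  rw [← measurableSet_setOfPred]
  exact measurableSet_le measurable_const ((measurable_sq2 (d := d)).comp (hf.prodMk hg))

private theorem sq_ge_coord {c : ℝ} (hc : 0 ≤ c) {x y : Fin d → ℝ} (k : Fin d)
    (h : c ≤ |x k - y k|) : c ^ 2 ≤ ConfinedGas.sq x y := by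
  have h1 : c ^ 2 ≤ (x k - y k) ^ 2 := by
    rw [← sq_abs (x k - y k)]
    exact pow_le_pow_left₀ hc h 2
  exact h1.trans (single_le_sum (f := fun k => (x k - y k) ^ 2) (fun _ _ => sq_nonneg _)
    (mem_univ k))

theorem measurable_Vx (a h : ℝ) : Measurable fun x : Cn d => Vx a h x := by
  unfold Vx
  refine Measurable.and ?_ ?_
  · refine Measurable.forall fun k => (meas_lt k measurable_fst).imp ?_
    rw [← measurableSet_setOfPred]
    exact (meas_at k) (measurableSet_Box' h)
  · refine Measurable.forall fun k => (meas_lt k measurable_fst).imp ?_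
    refine Measurable.forall fun l => (meas_lt l measurable_fst).imp ?_
    exact measurable_const.imp (meas_D a (meas_at k) (meas_at l))

theorem measurable_okc (a h : ℝ) (v : Zd d) :
    Measurable fun p : Cn d × Cn d => okc a h v p.1 p.2 := by
  unfold okc
  refine Measurable.forall fun k => (meas_lt k (measurable_fst.comp measurable_fst)).imp ?_
  refine Measurable.forall fun l => (meas_lt l (measurable_fst.comp measurable_snd)).imp ?_
  have h1 : Measurable fun p : Cn d × Cn d => p.1.2 k := (meas_at k).comp measurable_fst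
  have h2 : Measurable fun p : Cn d × Cn d => tr h v (p.2.2 l) :=
    (mp_tr h v).measurable.comp ((meas_at l).comp measurable_snd)
  exact meas_D a h1 h2

theorem measurable_nx (a h : ℝ) : Measurable fun x : Cn d => nx a h x := by
  classical
  unfold nx
  exact Measurable.ite (measurableSet_setOfPred.2 (measurable_Vx a h)) measurable_fst
    measurable_const

theorem measurable_oc (K : ℕ) (l : ℝ) : Measurable fun x : Cn d => oc K l x := by
  classical
  have e : (fun x : Cn d => oc K l x) = fun x => ∑ v ∈ cells K (0 : Fin d → ℤ),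
      if ∃ k, k < x.1 ∧ x.2 k ∈ NeedleGas.cell l v then 1 else 0 := by
    funext x
    unfold oc
    rw [card_filter]
  rw [e]
  refine Finset.measurable_sum _ fun v _ => ?_
  refine Measurable.ite ?_ measurable_const measurable_const
  refine measurableSet_setOfPred.2 ?_
  refine Measurable.exists fun k => (meas_lt k measurable_fst).and ?_
  rw [← measurableSet_setOfPred]
  have hc : MeasurableSet (NeedleGas.cell l v : Set (Fin d → ℝ)) := by
    have e2 : (NeedleGas.cell l v : Set (Fin d → ℝ)) =
        ⋂ k, {x : Fin d → ℝ | x k ∈ Set.Ico ((v k : ℝ) * l) (((v k : ℝ) + 1) * l)} := by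
      ext x
      simp [NeedleGas.cell]
    rw [e2]
    exact MeasurableSet.iInter fun k => (measurable_pi_apply k) measurableSet_Ico
  exact (meas_at k) hc

theorem measurableSet_Ins (a h : ℝ) : MeasurableSet (Ins a h : Set (Cn d)) := by
  unfold Ins
  refine measurableSet_setOfPred.2 ?_
  refine Measurable.forall fun k => (meas_lt k measurable_fst).imp ?_
  refine Measurable.forall fun j => ?_
  have hj : Measurable fun x : Cn d => x.2 k j := (measurable_pi_apply j).comp (meas_at k)
  refine Measurable.and ?_ ?_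
  · rw [← measurableSet_setOfPred]
    exact measurableSet_le measurable_const hj
  · rw [← measurableSet_setOfPred]
    exact measurableSet_lt hj measurable_const

theorem Vx_e0 (a h : ℝ) : Vx a h (e0 : Cn d) := by
  exact ⟨fun k hk => absurd hk (Nat.not_lt_zero k), fun k hk => absurd hk (Nat.not_lt_zero k)⟩

theorem okc_symm {a h : ℝ} {v : Zd d} {x y : Cn d} (H : okc a h v x y) : okc a h (-v) y x := by
  intro k hk l hl
  have h1 := H l hl k hk
  refine h1.trans (le_of_eq ?_)
  rw [ConfinedGas.sq_comm]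
  have h2 := sq_tr h v 0 (y.2 k) (x.2 l)
  have h3 : tr h (0 : Zd d) (x.2 l) = x.2 l := by
    funext i
    simp [tr]
  rw [h3, zero_sub] at h2
  exact h2

theorem okc_far {a h : ℝ} (ha : 0 < a) (hh : 2 * a ≤ h) {v : Zd d} (hv : v ∉ Qr d 1) {x y : Cn d}
    (hx : Vx a h x) (hy : Vx a h y) : okc a h v x y := by
  intro k hk l hl
  rw [mem_Qr] at hv
  push Not at hv
  obtain ⟨j, hj⟩ := hv
  refine sq_ge_coord (by linarith) j ?_
  have h1 := hx.1 k hk j
  have h2 := hy.1 l hl j
  simp only [Set.mem_Ico] at h1 h2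
  have h3 : (2 : ℝ) ≤ |(v j : ℝ)| := by
    have h4 : (2 : ℤ) ≤ |v j| := by
      push_cast at hj
      omega
    have h5 : ((2 : ℤ) : ℝ) ≤ ((|v j| : ℤ) : ℝ) := by exact_mod_cast h4
    rw [Int.cast_abs] at h5
    exact_mod_cast h5
  have h6 : (tr h v (y.2 l)) j = y.2 l j + h * v j := rfl
  rw [h6]
  have h7 : |x.2 k j - y.2 l j| ≤ h := by
    rw [abs_le]
    constructor <;> linarith [h1.1, h1.2, h2.1, h2.2]
  have h8 : |h * (v j : ℝ)| ≤ |x.2 k j - (y.2 l j + h * v j)| + |x.2 k j - y.2 l j| := by
    have h9 := abs_sub (x.2 k j - y.2 l j) (x.2 k j - (y.2 l j + h * v j))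
    have h10 : (x.2 k j - y.2 l j) - (x.2 k j - (y.2 l j + h * v j)) = h * v j := by ring
    rw [h10] at h9
    linarith
  rw [abs_mul, abs_of_pos (by linarith : (0 : ℝ) < h)] at h8
  have h11 : h * 2 ≤ h * |(v j : ℝ)| := mul_le_mul_of_nonneg_left h3 (by linarith)
  linarith

theorem okc_ins {a h : ℝ} (ha : 0 < a) (hh : 2 * a ≤ h) {v : Zd d} (hv : v ≠ 0) {x y : Cn d}
    (hx : x ∈ Ins a h) (hy : Vx a h y) : okc a h v x y := by
  intro k hk l hl
  obtain ⟨j, hj⟩ : ∃ j, v j ≠ 0 := by
    by_contra hcon
    push Not at hcon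
    exact hv (funext hcon)
  refine sq_ge_coord (by linarith) j ?_
  have h1 := hx k hk j
  have h2 := hy.1 l hl j
  simp only [Set.mem_Ico] at h2
  have h6 : (tr h v (y.2 l)) j = y.2 l j + h * v j := rfl
  rw [h6]
  have hpos : 0 < h := by linarith
  rcases lt_or_gt_of_ne hj with h3 | h3
  · have h4 : (v j : ℝ) ≤ -1 := by
      have : v j ≤ -1 := by omega
      exact_mod_cast this
    have h5 : h * (v j : ℝ) ≤ h * (-1) := mul_le_mul_of_nonneg_left h4 hpos.le
    refine le_trans ?_ (le_abs_self _)
    linarith [h1.1, h2.2]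
  · have h4 : (1 : ℝ) ≤ v j := by
      have : 1 ≤ v j := by omega
      exact_mod_cast this
    have h5 : h * 1 ≤ h * (v j : ℝ) := mul_le_mul_of_nonneg_left h4 hpos.le
    rw [abs_sub_comm]
    refine le_trans ?_ (le_abs_self _)
    linarith [h1.2, h2.1]

end Pool.Agent.Nbm
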