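import Pool.Agent.Lib.MP_09cbbd_ndm.BDef
import Pool.Agent.Lib.MP_09cbbd_ndm.BOk

/-!
# The a priori measure

Row PG. As in `MP_09cbbd_mx/ModM.lean` (section measure) and `ModX.lean` (`Gw_A`).
`lint_pg1`: `Sys.lint_pg` and `Gw (ps a) ((Box d h).indicator 1) u = (Cf (2 a) (Fin n) (Box d h)).indicator 1 u`.
-/

set_option autoImplicit false

namespace Pool.Agent.Nbm

open MeasureTheory Finset Filter Topology Pool.Agent.SquareWellGas Pool.Agent.SquareWell
  Pool.Agent.SquareWell.ModA Pool.Agent.ConfinedGas Pool.Agent.NeedleGas Pool.Agent.Ndl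
open Pool.Agent.StableGas hiding tr
open Pool.Agent.Mix (Ct Sys Qr mem_Qr)
open Pool.Agent.Mix.ModX (tr mp_tr sq_tr)

variable {d : ℕ}

/-- The weight of hard spheres. -/
private theorem Gw_ps {a : ℝ} (A : Set (Fin d → ℝ)) {k : ℕ} (x : Fin k → Fin d → ℝ) :
    Gw (ps a) (A.indicator 1) x = (Cf (2 * a) (Fin k) A).indicator 1 x := by
  classical
  unfold Gw Pr
  by_cases hx : x ∈ Cf (2 * a) (Fin k) A
  · rw [Set.indicator_of_mem hx]
    rw [prod_eq_one fun i _ => ?_, prod_eq_one fun i _ => prod_eq_one fun j _ => ?_]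
    · simp
    · by_cases h : i = j
      · rw [if_pos h]
      · rw [if_neg h, ps_eq_one]
        exact hx.2 i j h
    · rw [Set.indicator_of_mem (hx.1 i)]
      rfl
  · rw [Set.indicator_of_notMem hx]
    by_contra hne
    apply hx
    have h1 : (∏ i, A.indicator (1 : (Fin d → ℝ) → ENNReal) (x i)) ≠ 0 := left_ne_zero_of_mul hne
    have h2 := right_ne_zero_of_mul hne
    rw [prod_ne_zero_iff] at h1 h2
    refine ⟨fun i => ?_, fun i j hij => ?_⟩
    · by_contra hcon
      exact h1 i (mem_univ i) (Set.indicator_of_notMem hcon _)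
    · have h3 := h2 i (mem_univ i)
      rw [prod_ne_zero_iff] at h3
      have h4 := h3 j (mem_univ j)
      rw [if_neg hij, ps_ne_zero] at h4
      exact h4

theorem lint_pg1 (a h : ℝ) {F : Cn d → ENNReal} (hF : Measurable F) :
    ∫⁻ x, F x ∂(sys d a h).pg = ∑' n : ℕ, ((n.factorial : ENNReal))⁻¹ *
      ∫⁻ u in Cf (2 * a) (Fin n) (Box d h), F (Ct.pad 0 u) := by
  rw [(sys d a h).lint_pg hF]
  refine tsum_congr fun n => ?_
  congr 1
  have hm := measurableSet_Cf (2 * a) (Fin n) (measurableSet_Box' (d := d) h)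
  rw [← lintegral_indicator hm]
  change ∫⁻ u : Fin n → Fin d → ℝ, Gw (ps a) ((Box d h).indicator 1) u *
      F (Ct.pad 0 u) ∂(Measure.pi fun _ => volume) = _
  rw [← volume_pi]
  refine lintegral_congr fun u => ?_
  rw [Gw_ps]
  by_cases hu : u ∈ Cf (2 * a) (Fin n) (Box d h)
  · rw [Set.indicator_of_mem hu, Set.indicator_of_mem hu, Pi.one_apply, one_mul]
  · rw [Set.indicator_of_notMem hu, Set.indicator_of_notMem hu, zero_mul]

theorem Vx_pad {a h : ℝ} {n : ℕ} {u : Fin n → Fin d → ℝ} (hu : u ∈ Cf (2 * a) (Fin n) (Box d h)) :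
    Vx a h (Ct.pad 0 u) := by
  have e : ∀ (k : ℕ) (hk : k < n), (Ct.pad (0 : Fin d → ℝ) u).2 k = u ⟨k, hk⟩ := by
    intro k hk
    exact Ct.pad_snd _ u ⟨k, hk⟩
  constructor
  · intro k hk
    rw [e k hk]
    exact hu.1 _
  · intro k hk l hl hkl
    rw [e k hk, e l hl]
    exact hu.2 _ _ fun h => hkl (congrArg Fin.val h)

theorem ae_Vx (a h : ℝ) : ∀ᵐ x ∂(sys d a h).pg, Vx a h x := by
  rw [ae_iff]
  have hT : MeasurableSet {x : Cn d | ¬ Vx a h x} :=
    (measurableSet_setOfPred.2 (measurable_Vx a h)).compl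
  rw [← lintegral_indicator_one hT, lint_pg1 a h (measurable_one.indicator hT),
    ENNReal.tsum_eq_zero]
  intro n
  have hm := measurableSet_Cf (2 * a) (Fin n) (measurableSet_Box' (d := d) h)
  rw [setLIntegral_congr_fun (g := fun _ => 0) hm fun u hu => ?_, lintegral_zero, mul_zero]
  exact Set.indicator_of_notMem (fun h3 => by
    rw [Set.mem_ofPred_eq] at h3
    exact h3 (Vx_pad hu)) _

theorem pg_e0 (a h : ℝ) : (sys d a h).pg {e0} = 1 := by
  have hT : MeasurableSet {(e0 : Cn d)} := measurableSet_singleton _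
  rw [← lintegral_indicator_one hT, lint_pg1 a h (measurable_one.indicator hT),
    tsum_eq_single 0]
  · have e : ∀ u : Fin 0 → Fin d → ℝ, ({(e0 : Cn d)} : Set (Cn d)).indicator 1
        (Ct.pad 0 u) = (1 : ENNReal) := by
      intro u
      have h2 : Ct.pad (0 : Fin d → ℝ) u = e0 := by
        unfold Ct.pad e0
        ext k
        · rfl
        · simp
      rw [h2, Set.indicator_of_mem (Set.mem_singleton _)]
      rfl
    rw [lintegral_congr e, lintegral_one, Measure.restrict_apply_univ]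
    have h3 : Cf (2 * a) (Fin 0) (Box d h) = Set.univ := by
      ext x
      simp [Cf]
    rw [h3]
    have h4 : (volume : Measure (Fin 0 → Fin d → ℝ)) = Measure.dirac isEmptyElim :=
      Measure.volume_pi_eq_dirac (ι := Fin 0) _
    rw [h4, Measure.dirac_apply_of_mem (Set.mem_univ _), Nat.factorial_zero]
    simp
  · intro n hn
    have e : ∀ u : Fin n → Fin d → ℝ, ({(e0 : Cn d)} : Set (Cn d)).indicator 1
        (Ct.pad 0 u) = (0 : ENNReal) := by
      intro u
      refine Set.indicator_of_notMem (fun h3 => hn ?_) _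
      rw [Set.mem_singleton_iff] at h3
      exact congrArg Prod.fst h3
    rw [lintegral_congr e, lintegral_zero, mul_zero]

theorem pg_ne_top (a h : ℝ) : (sys d a h).pg Set.univ ≠ ⊤ := by
  rw [← lintegral_one, lint_pg1 a h measurable_const]
  have hV : volume (Box d h) ≠ ⊤ := by
    have e : Box d h = Set.pi Set.univ fun _ => Set.Ico (0 : ℝ) h := by
      ext x
      simp [Box]
    rw [e, volume_pi_pi]
    simp
  have h1 : ∑' n : ℕ, ((n.factorial : ENNReal))⁻¹ *
      ∫⁻ u : Fin n → Fin d → ℝ in Cf (2 * a) (Fin n) (Box d h), 1 ≤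
      ex (volume (Box d h)).toReal := by
    rw [← Mix.CanM.tsum_exp hV]
    refine ENNReal.tsum_le_tsum fun n => ?_
    have h2 := volume_Cf_le (2 * a) (Fin n) (Box d h)
    rw [Fintype.card_fin] at h2
    rw [lintegral_one, Measure.restrict_apply_univ, mul_comm]
    exact mul_le_mul' h2 le_rfl
  exact ne_top_of_le_ne_top (ex_ne_top _) h1

end Pool.Agent.Nbm
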