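import Pool.Agent.Lib.MP_09cbbd_ndm.BPhi
import Pool.Agent.Lib.MP_09cbbd_ndm.BCnt
import Pool.Agent.Lib.MP_09cbbd_ndm.BPg

/-!
# Hard spheres and needles as a gas on blocks: the model
-/

set_option autoImplicit false

namespace Pool.Agent.Nbm

open MeasureTheory Finset Filter Topology Pool.Agent.SquareWellGas Pool.Agent.SquareWell
  Pool.Agent.SquareWell.ModA Pool.Agent.ConfinedGas Pool.Agent.NeedleGas Pool.Agent.Ndl
open Pool.Agent.StableGas hiding tr
open Pool.Agent.Mix (Ct Sys Qr mem_Qr)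
open Pool.Agent.Mix.ModX (tr mp_tr sq_tr)

variable {d : ℕ}

/-- The gas on blocks of side `K l`. -/
noncomputable def cellNx {K : ℕ} {a l : ℝ} (H : Cel d K a l) : Nx d (Cn d) where
  π := (sys d a (K * l)).pg
  e0 := e0
  a := fun x => (nx a (K * l) x : ℝ) / NN d K a l
  ok := fun v x y => v ∈ Qr d 1 → Vx a (K * l) x → Vx a (K * l) y → okc a (K * l) v x y
  Φ := Ph a (K * l)
  I := Ins a (K * l)
  r := 16 * d + 2
  measurable_a := by
    have h1 : Measurable fun x : Cn d => (nx a (K * l) x : ℝ) :=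
      (measurable_from_top (f := fun n : ℕ => (n : ℝ))).comp (measurable_nx a (K * l))
    exact h1.div_const _
  measurable_Φ := measurable_Ph (by have := H.hd; omega) H.h_pos
  measurableSet_I := measurableSet_Ins a (K * l)
  measurableSet_ok := fun v => measurableSet_setOfPred.2
    (measurable_const.imp (((measurable_Vx a (K * l)).comp measurable_fst).imp
      (((measurable_Vx a (K * l)).comp measurable_snd).imp (measurable_okc a (K * l) v))))
  hr := by omega
  a_nonneg := fun x => div_nonneg (Nat.cast_nonneg _) H.NN_pos.le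
  a_le := fun x => by
    rw [div_le_one H.NN_pos]
    unfold NN
    have h1 := nx_le H x
    have h2 : oc K l x * ⌈(d : ℝ) / (2 * a) * l⌉₊ ^ d ≤ K ^ d * ⌈(d : ℝ) / (2 * a) * l⌉₊ ^ d :=
      Nat.mul_le_mul_right _ (oc_le K l x)
    exact_mod_cast h1.trans h2
  a_e0 := by
    classical
    unfold nx
    rw [if_pos (Vx_e0 _ _)]
    simp [e0]
  π_fin := pg_ne_top a (K * l)
  π_e0 := pg_e0 a (K * l)
  e0_I := fun k hk => absurd hk (Nat.not_lt_zero k)
  ok_e0 := fun v y _ _ _ k hk => absurd hk (Nat.not_lt_zero k)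
  ok_symm := fun v x y h hv hy hx => by
    refine okc_symm (h ?_ hx hy)
    rw [mem_Qr] at hv ⊢
    intro k
    have := hv k
    rwa [Pi.neg_apply, abs_neg] at this
  ok_far := fun v x y hv h => absurd h hv
  ok_I := fun v x y hv hx _ _ hy => okc_ins H.ha H.two_a_le hv hx hy
  Φ_nonneg := Ph_nonneg a H.h_pos
  Φ_e0 := Ph_e0 (by have := H.hd; omega) a H.h_pos
  Φ_dep := Ph_dep H.ha (by have := H.two_a_le; have := H.ha; linarith)
  Φ_anti := Ph_anti H.h_pos

end Pool.Agent.Nbm
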