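import Pool.Agent.Lib.MP_09cbbd_ndm.BDef
import Pool.Agent.Lib.MP_09cbbd_ndm.BHit
import Pool.Agent.Lib.MP_09cbbd_ndm.BOk

/-!
# The free fraction

Row PHI. `Ph_dep`: if a needle with centre `y ∈ Box d h` and length `16 d h` meets the sphere of
centre `tr h v p`, `p ∈ Box d h`, then `|x k - y k| < 8 d h + a ≤ (8 d + 1) h` (`near_of_Hit`), so
`|v k| ≤ 8 d + 2`, `v ∈ Qr d (16 d + 2)`: only these spheres matter in `free`. `Ph_anti`: more
spheres, fewer free needles (`measureReal_mono`, the set of all needle positions has finite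
volume). `measurable_Ph`: the set of the `(ω, q)` with `q` a free position is measurable
(countable intersection over `v`, `k` and `measurableSet_Hit2`), then
`measurable_measure_prodMk_left`. `Ph_e0`: `volume (Box d h ×ˢ ball) = h ^ d * kap`.
-/

set_option autoImplicit false

namespace Pool.Agent.Nbm

open MeasureTheory Finset Filter Topology Pool.Agent.SquareWellGas Pool.Agent.SquareWell
  Pool.Agent.SquareWell.ModA Pool.Agent.ConfinedGas Pool.Agent.NeedleGas Pool.Agent.Ndl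
open Pool.Agent.StableGas hiding tr
open Pool.Agent.Mix (Ct Sys Qr mem_Qr)
open Pool.Agent.Mix.ModX (tr mp_tr sq_tr)

variable {d : ℕ}

/-- The free positions. -/
private def FS (a h : ℝ) (ω : Zd d → Cn d) : Set ((Fin d → ℝ) × (Fin d → ℝ)) :=
  {q | q.1 ∈ Box d h ∧ ∑ k, q.2 k ^ 2 ≤ 1 ∧ ∀ x ∈ Pts h ω, ¬ Hit a (16 * d * h) x q.1 q.2}

private theorem Ph_eq (a h : ℝ) (ω : Zd d → Cn d) :
    Ph a h ω = volume.real (FS a h ω) / (h ^ d * kap d) := rfl

private theorem FS_sub (a h : ℝ) (ω : Zd d → Cn d) :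
    FS a h ω ⊆ Box d h ×ˢ {g : Fin d → ℝ | ∑ k, g k ^ 2 ≤ 1} :=
  fun _ hq => ⟨hq.1, hq.2.1⟩

private theorem volume_box (h : ℝ) : volume (Box d h) = ENNReal.ofReal h ^ d :=
  Pool.Agent.Mix.CanM.volume_Box h

private theorem prod_ne (h : ℝ) :
    volume (Box d h ×ˢ {g : Fin d → ℝ | ∑ k, g k ^ 2 ≤ 1}) ≠ ⊤ := by
  rw [Measure.volume_eq_prod, Measure.prod_prod]
  refine ENNReal.mul_ne_top ?_ kap_ne
  rw [volume_box]
  exact ENNReal.pow_ne_top ENNReal.ofReal_ne_top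

theorem measurable_Ph {a h : ℝ} (hd : 1 ≤ d) (hh : 0 < h) :
    Measurable fun ω : Zd d → Cn d => Ph a h ω := by
  have hd' : (0 : ℝ) < d := by exact_mod_cast hd
  have hL : 0 < 16 * (d : ℝ) * h := by positivity
  have key : Measurable fun p : (Zd d → Cn d) × ((Fin d → ℝ) × (Fin d → ℝ)) =>
      (p.2.1 ∈ Box d h ∧ ∑ k, p.2.2 k ^ 2 ≤ 1 ∧ ∀ (v : Zd d) (k : ℕ), k < (p.1 v).1 →
        (p.1 v).2 k ∈ Box d h → ¬ Hit a (16 * d * h) (tr h v ((p.1 v).2 k)) p.2.1 p.2.2) := by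
    have hcoord : ∀ (v : Zd d) (k : ℕ),
        Measurable fun p : (Zd d → Cn d) × ((Fin d → ℝ) × (Fin d → ℝ)) => (p.1 v).2 k :=
      fun v k => (measurable_pi_apply k).comp (measurable_snd.comp
        ((measurable_pi_apply v).comp measurable_fst))
    have hbox : Measurable fun x : Fin d → ℝ => x ∈ Box d h :=
      measurableSet_setOfPred.1 (measurableSet_Box' h)
    refine Measurable.and ?_ (Measurable.and ?_ (Measurable.forall fun v =>
      Measurable.forall fun k => Measurable.imp ?_ (Measurable.imp ?_ (Measurable.not ?_))))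
    · exact hbox.comp (measurable_fst.comp measurable_snd)
    · exact (measurableSet_setOfPred.1 (measurableSet_ball1 (d := d))).comp
        (measurable_snd.comp measurable_snd)
    · exact measurableSet_setOfPred.1 (measurableSet_lt measurable_const (measurable_fst.comp
        ((measurable_pi_apply v).comp measurable_fst)))
    · exact hbox.comp (hcoord v k)
    · have h1 : Measurable fun p : (Fin d → ℝ) × ((Fin d → ℝ) × (Fin d → ℝ)) =>
          Hit a (16 * d * h) p.1 p.2.1 p.2.2 :=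
        measurableSet_setOfPred.1 (measurableSet_Hit2 hL a)
      exact h1.comp ((((mp_tr h v).measurable).comp (hcoord v k)).prodMk measurable_snd)
  have hS := measurableSet_setOfPred.2 key
  have h2 := measurable_measure_prodMk_left
    (ν := (volume : Measure ((Fin d → ℝ) × (Fin d → ℝ)))) hS
  have h3 : (fun ω : Zd d → Cn d => Ph a h ω) = fun ω => (volume (Prod.mk ω ⁻¹'
      {p : (Zd d → Cn d) × ((Fin d → ℝ) × (Fin d → ℝ)) |
        p.2.1 ∈ Box d h ∧ ∑ k, p.2.2 k ^ 2 ≤ 1 ∧ ∀ (v : Zd d) (k : ℕ), k < (p.1 v).1 →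
        (p.1 v).2 k ∈ Box d h → ¬ Hit a (16 * d * h) (tr h v ((p.1 v).2 k)) p.2.1 p.2.2})).toReal
        / (h ^ d * kap d) := by
    funext ω
    rw [Ph_eq]
    unfold Measure.real
    congr 3
    ext q
    unfold FS Pts
    simp only [Set.mem_ofPred_eq, Set.mem_preimage]
    constructor
    · rintro ⟨h4, h5, h6⟩
      exact ⟨h4, h5, fun v k hk hb => h6 _ ⟨v, k, hk, hb, rfl⟩⟩
    · rintro ⟨h4, h5, h6⟩
      refine ⟨h4, h5, ?_⟩
      rintro x ⟨v, k, hk, hb, rfl⟩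
      exact h6 v k hk hb
  rw [h3]
  exact h2.ennreal_toReal.div_const _

theorem Ph_nonneg (a : ℝ) {h : ℝ} (hh : 0 < h) (ω : Zd d → Cn d) : 0 ≤ Ph a h ω := by
  rw [Ph_eq]
  exact div_nonneg measureReal_nonneg (mul_nonneg (pow_nonneg hh.le _) measureReal_nonneg)

theorem Ph_e0 (hd : 1 ≤ d) (a : ℝ) {h : ℝ} (hh : 0 < h) : Ph a h (fun _ : Zd d => e0) = 1 := by
  rw [Ph_eq]
  have h1 : FS a h (fun _ : Zd d => e0) = Box d h ×ˢ {g : Fin d → ℝ | ∑ k, g k ^ 2 ≤ 1} := by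
    refine Set.Subset.antisymm (FS_sub a h _) ?_
    rintro q ⟨hq1, hq2⟩
    refine ⟨hq1, hq2, ?_⟩
    rintro x ⟨v, k, hk, _⟩
    exact absurd hk (Nat.not_lt_zero k)
  have h2 : volume.real (FS a h (fun _ : Zd d => e0)) = h ^ d * kap d := by
    rw [h1]
    unfold Measure.real kap
    rw [Measure.volume_eq_prod, Measure.prod_prod, ENNReal.toReal_mul, volume_box,
      ENNReal.toReal_pow, ENNReal.toReal_ofReal hh.le]
    rfl
  rw [h2]
  exact div_self (mul_pos (pow_pos hh _) (kap_pos hd)).ne'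

private theorem Pts_near {a h : ℝ} (ha : 0 < a) (hah : a ≤ h) (ω ω' : Zd d → Cn d)
    (H : ∀ v ∈ Qr d (16 * d + 2), ω v = ω' v) {x y g : Fin d → ℝ} (hy : y ∈ Box d h)
    (hx : x ∈ Pts h ω') (hit : Hit a (16 * d * h) x y g) : x ∈ Pts h ω := by
  obtain ⟨v, k, hk, hb, rfl⟩ := hx
  have hh : 0 < h := lt_of_lt_of_le ha hah
  have hv : v ∈ Qr d (16 * d + 2) := by
    rw [mem_Qr]
    intro j
    have h1 := near_of_Hit ha hit j
    have h2 := hb j
    have h3 := hy j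
    have hd0 : (0 : ℝ) ≤ d := Nat.cast_nonneg d
    have e1 : tr h v ((ω' v).2 k) j = (ω' v).2 k j + h * (v j : ℝ) := rfl
    rw [e1, abs_lt] at h1
    have h4 : h * (v j : ℝ) < h * (16 * (d : ℝ) + 2) := by
      nlinarith [h1.2, h2.1, h2.2, h3.1, h3.2, mul_nonneg hd0 hh.le]
    have h5 : h * (-(16 * (d : ℝ) + 2)) < h * (v j : ℝ) := by
      nlinarith [h1.1, h2.1, h2.2, h3.1, h3.2, mul_nonneg hd0 hh.le]
    have h6 := lt_of_mul_lt_mul_left h4 hh.le
    have h7 := lt_of_mul_lt_mul_left h5 hh.le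
    have h8 : |((v j : ℤ) : ℝ)| ≤ ((16 * d + 2 : ℕ) : ℝ) := by
      rw [abs_le]
      push_cast
      exact ⟨h7.le, h6.le⟩
    exact_mod_cast h8
  have e := H v hv
  refine ⟨v, k, ?_, ?_, ?_⟩
  · rw [e]
    exact hk
  · rw [e]
    exact hb
  · rw [e]

theorem Ph_dep {a h : ℝ} (ha : 0 < a) (hah : a ≤ h) (ω ω' : Zd d → Cn d)
    (H : ∀ v ∈ Qr d (16 * d + 2), ω v = ω' v) : Ph a h ω = Ph a h ω' := by
  rw [Ph_eq, Ph_eq]
  congr 2
  ext q
  unfold FS
  simp only [Set.mem_ofPred_eq]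
  constructor
  · rintro ⟨h1, h2, h3⟩
    exact ⟨h1, h2, fun x hx hit => h3 x (Pts_near ha hah ω ω' H h1 hx hit) hit⟩
  · rintro ⟨h1, h2, h3⟩
    exact ⟨h1, h2, fun x hx hit => h3 x
      (Pts_near ha hah ω' ω (fun v hv => (H v hv).symm) h1 hx hit) hit⟩

theorem Ph_anti {a h : ℝ} (hh : 0 < h) (ω ω' : Zd d → Cn d) (H : ∀ v, ω' v = ω v ∨ ω' v = e0) :
    Ph a h ω ≤ Ph a h ω' := by
  rw [Ph_eq, Ph_eq]
  refine div_le_div_of_nonneg_right ?_ (mul_nonneg (pow_nonneg hh.le _) measureReal_nonneg)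
  refine measureReal_mono ?_ (ne_top_of_le_ne_top (prod_ne h) (measure_mono (FS_sub a h ω')))
  rintro q ⟨h1, h2, h3⟩
  refine ⟨h1, h2, ?_⟩
  rintro x ⟨v, k, hk, hb, rfl⟩
  rcases H v with e | e
  · rw [e] at hk hb ⊢
    exact h3 _ ⟨v, k, hk, hb, rfl⟩
  · rw [e] at hk
    exact absurd hk (Nat.not_lt_zero k)

end Pool.Agent.Nbm
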