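import Pool.Agent.Lib.MP_09cbbd_ndm.BHsp

/-!
# The pressure of the pure hard spheres as a limit over cubes of real side
-/

set_option autoImplicit false

namespace Pool.Agent.Nbm

open MeasureTheory Finset Filter Topology Pool.Agent.SquareWellGas Pool.Agent.SquareWell
  Pool.Agent.SquareWell.ModA Pool.Agent.ConfinedGas Pool.Agent.NeedleGas Pool.Agent.Ndl
open Pool.Agent.StableGas hiding tr
open Pool.Agent.Mix (Ct Sys Qr mem_Qr)
open Pool.Agent.Mix.ModX (tr mp_tr sq_tr)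

variable {d : ℕ}

private theorem lgm {x y : ENNReal} (h0 : 1 ≤ x) (hy : y ≠ ⊤) (h : x ≤ y) :
    Real.log x.toReal ≤ Real.log y.toReal := by
  refine Real.log_le_log ?_ (ENNReal.toReal_mono hy h)
  exact ENNReal.toReal_pos (fun h => by simp [h] at h0) (ne_top_of_le_ne_top hy h)

private theorem flr {a : ℝ} (ha : 0 < a) (μ : ℝ) {s t : ℝ} (hs : 0 < s) (ht : 0 ≤ t) :
    (⌊t / (s + 2 * a)⌋₊ : ℝ) ^ d * Real.log (XH d a μ s).toReal ≤
      Real.log (XH d a μ t).toReal := by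
  have h1 := XH_super (d := d) ha μ hs ⌊t / (s + 2 * a)⌋₊
  have hpos : 0 < s + 2 * a := by positivity
  have h2 : (⌊t / (s + 2 * a)⌋₊ : ℝ) * (s + 2 * a) ≤ t := by
    have h3 := Nat.floor_le (show 0 ≤ t / (s + 2 * a) by positivity)
    rwa [le_div_iff₀ hpos] at h3
  have h4 := h1.trans (XH_mono (d := d) (a := a) (le_refl μ) h2)
  have h5 := lgm (one_le_pow₀ (one_le_XH (d := d) a μ s)) (XH_ne_top a μ t) h4
  rw [ENNReal.toReal_pow, Real.log_pow] at h5
  push_cast at h5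
  exact h5

theorem PH_lim_real {a : ℝ} (ha : 0 < a) (μ : ℝ) :
    Tendsto (fun t : ℝ => Real.log (XH d a μ t).toReal / t ^ d) atTop (𝓝 (PH d a μ)) := by
  rw [tendsto_order]
  constructor
  · intro b hb
    obtain ⟨s, h2⟩ := exists_lt_of_lt_ciSup (show b < ⨆ s : Set.Ioi (0 : ℝ),
      Real.log (XH d a μ s).toReal / ((s : ℝ) + 2 * a) ^ d from hb)
    have hs : (0 : ℝ) < s := s.2
    have hpos : 0 < (s : ℝ) + 2 * a := by positivity
    have h3 : b < (1 / ((s : ℝ) + 2 * a)) ^ d * Real.log (XH d a μ s).toReal := by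
      rw [div_pow, one_pow]
      calc b < Real.log (XH d a μ s).toReal / ((s : ℝ) + 2 * a) ^ d := h2
        _ = _ := by ring
    have h4 : Tendsto (fun t : ℝ => (⌊t / ((s : ℝ) + 2 * a)⌋₊ : ℝ) / t) atTop
        (𝓝 (1 / ((s : ℝ) + 2 * a))) := by
      have h5 := tendsto_nat_floor_mul_div_atTop (R := ℝ) (a := 1 / ((s : ℝ) + 2 * a))
        (by positivity)
      refine h5.congr fun t => ?_
      congr 3
      ring
    have h6 : Tendsto (fun t : ℝ => ((⌊t / ((s : ℝ) + 2 * a)⌋₊ : ℝ) / t) ^ d *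
        Real.log (XH d a μ s).toReal) atTop
        (𝓝 ((1 / ((s : ℝ) + 2 * a)) ^ d * Real.log (XH d a μ s).toReal)) :=
      (h4.pow d).mul_const _
    filter_upwards [h6.eventually_const_lt h3, eventually_gt_atTop 0] with t h7 ht
    refine lt_of_lt_of_le h7 ?_
    rw [le_div_iff₀ (pow_pos ht d), div_pow]
    have h8 := flr (d := d) ha μ hs ht.le
    calc (⌊t / ((s : ℝ) + 2 * a)⌋₊ : ℝ) ^ d / t ^ d *
          Real.log (XH d a μ s).toReal * t ^ d
        = (⌊t / ((s : ℝ) + 2 * a)⌋₊ : ℝ) ^ d * Real.log (XH d a μ s).toReal := by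
          field_simp
      _ ≤ _ := h8
  · intro b hb
    have h1 : Tendsto (fun t : ℝ => (1 + 2 * a / t) ^ d * PH d a μ) atTop
        (𝓝 ((1 + 0) ^ d * PH d a μ)) := by
      refine Tendsto.mul_const _ (Tendsto.pow (Tendsto.add tendsto_const_nhds ?_) d)
      exact tendsto_const_nhds.div_atTop tendsto_id
    rw [add_zero, one_pow, one_mul] at h1
    filter_upwards [h1.eventually_lt_const hb, eventually_gt_atTop 0] with t h2 ht
    refine lt_of_le_of_lt ?_ h2
    rw [div_le_iff₀ (pow_pos ht d)]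
    refine (PH_ge ha μ ht).trans (le_of_eq ?_)
    have h3 : t + 2 * a = t * (1 + 2 * a / t) := by
      field_simp
    rw [h3, mul_pow]
    ring

theorem XH_toReal (a μ s : ℝ) : (XH d a μ s).toReal =
    ∑' N : ℕ, Real.exp (μ * N) * (((N.factorial : ℝ))⁻¹ *
      volume.real {x : Fin N → Fin d → ℝ | (∀ i, x i ∈ Box d s) ∧
        ∀ i j, i ≠ j → (2 * a) ^ 2 ≤ ∑ k, (x i k - x j k) ^ 2}) := by
  unfold XH Xi
  have hV : volume (Box d s) ≠ ⊤ := by
    rw [volume_Box']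
    exact ENNReal.pow_ne_top ENNReal.ofReal_ne_top
  have hm : ∀ N : ℕ, mC (volume : Measure (Fin d → ℝ)) (2 * a) (Fin N) (Box d s) ≠ ⊤ := by
    intro N
    unfold mC
    rw [← volume_pi]
    refine ne_top_of_le_ne_top ?_ (volume_Cf_le (2 * a) (Fin N) (Box d s))
    exact ENNReal.pow_ne_top hV
  have hf : ∀ N : ℕ, ((N.factorial : ENNReal))⁻¹ ≠ ⊤ := fun N =>
    ENNReal.inv_ne_top.2 (by exact_mod_cast N.factorial_ne_zero)
  rw [ENNReal.tsum_toReal_eq fun N => ENNReal.mul_ne_top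
    (ENNReal.mul_ne_top (ENNReal.pow_ne_top (ex_ne_top μ)) (hf N)) (hm N)]
  refine tsum_congr fun N => ?_
  rw [ENNReal.toReal_mul, ENNReal.toReal_mul, ENNReal.toReal_pow, ex_toReal, ENNReal.toReal_inv,
    ENNReal.toReal_natCast, ← Real.exp_nat_mul, mul_comm μ, mul_assoc]
  rfl

end Pool.Agent.Nbm
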