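import Pool.Agent.Lib.MP_09cbbd_ndm.BMod

/-!
# The free volume of a box
-/

set_option autoImplicit false

namespace Pool.Agent.Nbm

open MeasureTheory Finset Filter Topology Pool.Agent.SquareWellGas Pool.Agent.SquareWell
  Pool.Agent.SquareWell.ModA Pool.Agent.ConfinedGas Pool.Agent.NeedleGas Pool.Agent.Ndl
open Pool.Agent.StableGas hiding tr
open Pool.Agent.Mix (Ct Sys Qr mem_Qr)
open Pool.Agent.Mix.ModX (tr mp_tr sq_tr)

variable {d : ℕ}

/-- The free positions with centre in `B`. -/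
private def GS (a L : ℝ) (B S : Set (Fin d → ℝ)) : Set ((Fin d → ℝ) × (Fin d → ℝ)) :=
  {q | q.1 ∈ B ∧ ∑ k, q.2 k ^ 2 ≤ 1 ∧ ∀ x ∈ S, ¬ Hit a L x q.1 q.2}

private theorem Hit_tr {a L h : ℝ} (i : Zd d) (x y g : Fin d → ℝ) :
    Hit a L x (tr h (-i) y) g ↔ Hit a L (tr h i x) y g := by
  unfold Hit pt tr
  refine exists_congr fun s => and_congr Iff.rfl ?_
  have e : ∑ k, (x k - (y k + h * ((-i) k : ℤ) + s * (g k / nrm g))) ^ 2 =
      ∑ k, (x k + h * (i k : ℤ) - (y k + s * (g k / nrm g))) ^ 2 := by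
    refine sum_congr rfl fun k _ => ?_
    rw [Pi.neg_apply]
    push_cast
    ring
  rw [e]

private theorem countable_PtsA (h : ℝ) (A : Finset (Zd d)) (ω : Zd d → Cn d) :
    (PtsA h A ω).Countable := by
  have h1 : PtsA h A ω ⊆ Set.range fun p : Zd d × ℕ => tr h p.1 ((ω p.1).2 p.2) := by
    rintro y ⟨v, _, k, _, _, rfl⟩
    exact ⟨(v, k), rfl⟩
  exact (Set.countable_range _).mono h1

private theorem measurableSet_GS {a L : ℝ} (hL : 0 < L) {B S : Set (Fin d → ℝ)}
    (hB : MeasurableSet B) (hS : S.Countable) : MeasurableSet (GS a L B S) := by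
  have e : GS a L B S = (Prod.fst ⁻¹' B) ∩ ((Prod.snd ⁻¹' {g : Fin d → ℝ | ∑ k, g k ^ 2 ≤ 1}) ∩
      ⋂ x ∈ S, {q : (Fin d → ℝ) × (Fin d → ℝ) | Hit a L x q.1 q.2}ᶜ) := by
    ext q
    simp [GS]
  rw [e]
  refine (measurable_fst hB).inter ((measurable_snd measurableSet_ball1).inter
    (MeasurableSet.biInter hS fun x _ => ?_))
  have h1 : Measurable fun q : (Fin d → ℝ) × (Fin d → ℝ) => (x, q) :=
    measurable_const.prodMk measurable_id
  exact (h1 (measurableSet_Hit2 hL a)).compl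

private theorem mem_cell1 {l0 : ℝ} (hl : 0 < l0) (i : Zd d) (x : Fin d → ℝ) :
    tr l0 (-i) x ∈ Box d l0 ↔ ∀ k, i k = ⌊x k / l0⌋ := by
  unfold Box tr
  simp only [Set.mem_ofPred_eq]
  refine forall_congr' fun k => ?_
  have h1 : x k = x k / l0 * l0 := by field_simp
  obtain ⟨t, ht⟩ : ∃ t, t = x k / l0 := ⟨_, rfl⟩
  rw [← ht] at h1 ⊢
  rw [eq_comm, Int.floor_eq_iff, Set.mem_Ico]
  simp only [Pi.neg_apply, Int.cast_neg]
  rw [h1]
  constructor
  · rintro ⟨h2, h3⟩
    constructor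
    · by_contra h
      push Not at h
      have := mul_pos hl (sub_pos.2 h)
      linarith [this]
    · by_contra h
      push Not at h
      have := mul_nonneg hl.le (sub_nonneg.2 h)
      linarith [this]
  · rintro ⟨h2, h3⟩
    constructor
    · have := mul_nonneg hl.le (sub_nonneg.2 h2)
      linarith [this]
    · have := mul_pos hl (sub_pos.2 h3)
      linarith [this]

private theorem blk_box {h : ℝ} (hh : 0 < h) (n : ℕ) (y : Fin d → ℝ) :
    y ∈ Box d (n * h) ↔ ∃ i ∈ bx d n, tr h (-i) y ∈ Box d h := by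
  have h2 : (fun k => ⌊y k / h⌋) ∈ bx d n ↔ y ∈ Box d (n * h) := by
    unfold bx Box
    simp only [Fintype.mem_piFinset, Set.mem_ofPred_eq, Finset.mem_Ico, Set.mem_Ico]
    refine forall_congr' fun k => ?_
    rw [Int.floor_lt, Int.floor_nonneg, div_lt_iff₀ hh]
    refine and_congr ?_ Iff.rfl
    constructor
    · intro h0
      by_contra h'
      push Not at h'
      exact absurd h0 (not_le.2 (div_neg_of_neg_of_pos h' hh))
    · intro h0
      exact div_nonneg h0 hh.le
  constructor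
  · intro hy
    exact ⟨_, h2.2 hy, (mem_cell1 hh _ y).2 fun k => rfl⟩
  · rintro ⟨i, hi, hy⟩
    have h3 := (mem_cell1 hh i y).1 hy
    have h4 : i = fun k => ⌊y k / h⌋ := funext h3
    rw [h4] at hi
    exact h2.1 hi

private theorem Pts_sh {K : ℕ} {a l : ℝ} (H : Cel d K a l) (A : Finset (Zd d))
    (ω : Zd d → Cn d) (i : Zd d) (x : Fin d → ℝ) :
    x ∈ Pts (K * l) ((cellNx H).sh id A ω i) ↔ tr (K * l) i x ∈ PtsA (K * l) A ω := by
  classical
  have e : ∀ v, (cellNx H).sh id A ω i v = if i + v ∈ A then ω (i + v) else e0 := by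
    intro v
    unfold Nx.sh
    simp only [id]
    split_ifs <;> rfl
  unfold Pts PtsA
  simp only [Set.mem_ofPred_eq, e]
  constructor
  · rintro ⟨v, k, hk, hb, rfl⟩
    by_cases hv : i + v ∈ A
    · rw [if_pos hv] at hk hb ⊢
      refine ⟨i + v, hv, k, hk, hb, ?_⟩
      unfold tr
      ext j
      rw [Pi.add_apply]
      push_cast
      ring
    · rw [if_neg hv] at hk
      exact absurd hk (Nat.not_lt_zero k)
  · rintro ⟨w, hw, k, hk, hb, hx⟩
    have e1 : i + (w - i) = w := by abel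
    refine ⟨w - i, k, ?_⟩
    rw [e1, if_pos hw]
    refine ⟨hk, hb, ?_⟩
    ext j
    have h1 := congrFun hx j
    unfold tr at h1 ⊢
    rw [Pi.sub_apply]
    push_cast
    linarith

theorem sum_Fr {K : ℕ} {a l : ℝ} (H : Cel d K a l) (n : ℕ) (ω : Zd d → Cn d) :
    ∑ i ∈ bx d n, (cellNx H).Fr id (bx d n) ω i =
      fv d a (16 * d * (K * l)) (n * (K * l)) (PtsA (K * l) (bx d n) ω) /
        ((K * l) ^ d * kap d) := by
  obtain ⟨h, hh⟩ : ∃ h, h = (K : ℝ) * l := ⟨_, rfl⟩
  have hp : 0 < h := hh ▸ H.h_pos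
  have hd : (0 : ℝ) < d := by
    have := H.hd
    exact_mod_cast (show 0 < d by omega)
  have hL : 0 < 16 * (d : ℝ) * h := by positivity
  have hfr : ∀ i, (cellNx H).Fr id (bx d n) ω i =
      volume.real (GS a (16 * d * h) (Box d h) (Pts h ((cellNx H).sh id (bx d n) ω i))) /
        (h ^ d * kap d) := by
    intro i
    rw [hh]
    rfl
  rw [← hh]
  have hcnt := countable_PtsA h (bx d n) ω
  have hS : ∀ i, volume.real (GS a (16 * d * h) (Box d h)
      (Pts h ((cellNx H).sh id (bx d n) ω i))) =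
      volume.real (GS a (16 * d * h) {y | tr h (-i) y ∈ Box d h} (PtsA h (bx d n) ω)) := by
    intro i
    have hmp : MeasurePreserving (Prod.map (tr h (-i)) (id : (Fin d → ℝ) → Fin d → ℝ))
        (volume : Measure ((Fin d → ℝ) × (Fin d → ℝ))) volume := by
      rw [Measure.volume_eq_prod]
      exact (mp_tr h (-i)).prod (MeasurePreserving.id _)
    have hc2 : (Pts h ((cellNx H).sh id (bx d n) ω i)).Countable := by
      have h1 : Pts h ((cellNx H).sh id (bx d n) ω i) ⊆ Set.range fun p : Zd d × ℕ =>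
          tr h p.1 (((cellNx H).sh id (bx d n) ω i p.1).2 p.2) := by
        rintro y ⟨v, k, _, _, rfl⟩
        exact ⟨(v, k), rfl⟩
      exact (Set.countable_range _).mono h1
    have hm := measurableSet_GS (a := a) hL (measurableSet_Box' (d := d) h) hc2
    have h1 := hmp.measureReal_preimage hm.nullMeasurableSet
    rw [← h1]
    congr 1
    ext q
    unfold GS
    simp only [Set.mem_ofPred_eq, Set.mem_preimage, Prod.map_fst, Prod.map_snd, id]
    refine and_congr Iff.rfl (and_congr Iff.rfl ?_)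
    constructor
    · intro h2 x hx h3
      have h4 : tr h i (tr h (-i) x) = x := by
        unfold tr
        ext j
        rw [Pi.neg_apply]
        push_cast
        ring
      refine h2 (tr h (-i) x) ?_ ?_
      · have h5 := (Pts_sh H (bx d n) ω i (tr h (-i) x))
        rw [← hh] at h5
        rw [h5, h4]
        exact hx
      · rw [Hit_tr, h4]
        exact h3
    · intro h2 x hx h3
      have h5 := (Pts_sh H (bx d n) ω i x)
      rw [← hh] at h5
      exact h2 _ (h5.1 hx) ((Hit_tr i x q.1 q.2).1 h3)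
  have hU : GS a (16 * d * h) (Box d (n * h)) (PtsA h (bx d n) ω) =
      ⋃ i ∈ bx d n, GS a (16 * d * h) {y | tr h (-i) y ∈ Box d h} (PtsA h (bx d n) ω) := by
    ext q
    simp only [Set.mem_iUnion, GS, Set.mem_ofPred_eq, exists_prop]
    rw [blk_box hp]
    constructor
    · rintro ⟨⟨i, hi, h1⟩, h2, h3⟩
      exact ⟨i, hi, h1, h2, h3⟩
    · rintro ⟨i, hi, h1, h2, h3⟩
      exact ⟨⟨i, hi, h1⟩, h2, h3⟩
  have hfv : fv d a (16 * d * h) (n * h) (PtsA h (bx d n) ω) =
      volume.real (GS a (16 * d * h) (Box d (n * h)) (PtsA h (bx d n) ω)) := rfl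
  have hms : ∀ i : Zd d, MeasurableSet {y : Fin d → ℝ | tr h (-i) y ∈ Box d h} := fun i =>
    (mp_tr h (-i)).measurable (measurableSet_Box' h)
  have hfin : ∀ i ∈ bx d n, volume (GS a (16 * d * h) {y | tr h (-i) y ∈ Box d h}
      (PtsA h (bx d n) ω)) ≠ ⊤ := by
    intro i _
    refine ne_top_of_le_ne_top (b := volume ({y : Fin d → ℝ | tr h (-i) y ∈ Box d h} ×ˢ
      {g : Fin d → ℝ | ∑ k, g k ^ 2 ≤ 1})) ?_ (measure_mono fun q hq => ⟨hq.1, hq.2.1⟩)
    rw [Measure.volume_eq_prod, Measure.prod_prod]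
    refine ENNReal.mul_ne_top ?_ kap_ne
    have h1 : volume {y : Fin d → ℝ | tr h (-i) y ∈ Box d h} = volume (Box d h) :=
      (mp_tr h (-i)).measure_preimage (measurableSet_Box' h).nullMeasurableSet
    rw [h1, Pool.Agent.Mix.CanM.volume_Box h]
    exact ENNReal.pow_ne_top ENNReal.ofReal_ne_top
  simp only [hfr]
  rw [← Finset.sum_div, hfv, hU, measureReal_biUnion_finset]
  · simp only [hS]
  · intro i _ j _ hij
    refine Set.disjoint_left.2 fun q hq1 hq2 => hij ?_
    have h1 := (mem_cell1 hp i q.1).1 hq1.1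
    have h2 := (mem_cell1 hp j q.1).1 hq2.1
    exact funext fun k => (h1 k).trans (h2 k).symm
  · exact fun i _ => measurableSet_GS hL (hms i) hcnt

end Pool.Agent.Nbm
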