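import Pool.Agent.Lib.MP_09cbbd_ndm.BDef

/-!
# Pure hard spheres in a box

Row XH. Elementary facts on `XH d a μ s = Xi volume (2 a) (ex μ) (Box d s)`: use `CanM.Xi_le`,
`CanM.one_le_Xi`, `CanM.Xi_mono`, `CanM.Xi_le_diff` of `MP_09cbbd_mx/CanA.lean` (namespace
`Pool.Agent.Mix.CanM`). `XH_trim`: remove `Box d s \ Box d (s - c)` (volume
`s ^ d - (max (s - c) 0) ^ d ≤ c d s ^ (d - 1)`). `XH_ins`: the same for the centred inner box
(`CanM.Xi_shift`). `Xi_sub`: `Xi (A ∪ B) ≤ Xi A * Xi B` for disjoint measurable sets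
(`Xi_union'` of `MP_09cbbd_mp_h27`, `Xi_mono`). `XH_convex`: `μ ↦ log ∑ e ^ (μ N) c_N` is convex:
only finitely many `N` have `c_N ≠ 0` in a bounded box (`card_box_le`), or use Hoelder
(`ENNReal.inner_le_Lp_mul_Lq_tsum`), see `CvxD.lean` of `MP_09cbbd_mx` and `CgThermo`.
-/

set_option autoImplicit false

namespace Pool.Agent.Nbm

open MeasureTheory Finset Filter Topology Pool.Agent.SquareWellGas Pool.Agent.SquareWell
  Pool.Agent.SquareWell.ModA Pool.Agent.ConfinedGas Pool.Agent.NeedleGas Pool.Agent.Ndl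
open Pool.Agent.StableGas hiding tr
open Pool.Agent.Mix (Ct Sys Qr mem_Qr)
open Pool.Agent.Mix.ModX (tr mp_tr sq_tr)

variable {d : ℕ}

theorem volume_Box' {s : ℝ} : volume (Box d s) = ENNReal.ofReal s ^ d := by
  exact Pool.Agent.Mix.CanM.volume_Box s

theorem one_le_XH (a μ s : ℝ) : 1 ≤ XH d a μ s := by
  exact Pool.Agent.Mix.CanM.one_le_Xi _ _ _ _

theorem XH_le (a μ : ℝ) {s : ℝ} (hs : 0 ≤ s) : XH d a μ s ≤ ex (Real.exp μ * s ^ d) := by
  have hne : ex μ * volume (Box d s) ≠ ⊤ :=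
    ENNReal.mul_ne_top (ex_ne_top μ) (Pool.Agent.Mix.CanM.volume_Box_ne s)
  refine (Pool.Agent.Mix.CanM.Xi_le volume (2 * a) (ex μ) hne).trans (le_of_eq ?_)
  rw [ENNReal.toReal_mul, ex_toReal, volume_Box', ENNReal.toReal_pow, ENNReal.toReal_ofReal hs]

theorem XH_ne_top (a μ s : ℝ) : XH d a μ s ≠ ⊤ := by
  have hne : ex μ * volume (Box d s) ≠ ⊤ :=
    ENNReal.mul_ne_top (ex_ne_top μ) (Pool.Agent.Mix.CanM.volume_Box_ne s)
  exact ne_top_of_le_ne_top (ex_ne_top _) (Pool.Agent.Mix.CanM.Xi_le volume (2 * a) (ex μ) hne)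

theorem XH_mono {a μ μ' s s' : ℝ} (hμ : μ ≤ μ') (hs : s ≤ s') : XH d a μ s ≤ XH d a μ' s' := by
  refine le_trans ?_ (Pool.Agent.Mix.CanM.Xi_mono volume (2 * a) (ex μ')
    (Pool.Agent.Mix.CanM.Box_mono hs))
  unfold XH Xi
  refine ENNReal.tsum_le_tsum fun N => ?_
  exact mul_le_mul' (mul_le_mul' (pow_le_pow_left' (ex_le_ex.2 hμ) N) le_rfl) le_rfl

/-- One sphere. -/
theorem XH_ge (a μ : ℝ) {s : ℝ} (hs : 0 ≤ s) : ex μ * ENNReal.ofReal s ^ d ≤ XH d a μ s := by
  have h := ENNReal.le_tsum (f := fun N : ℕ => ex μ ^ N * ((N.factorial : ENNReal))⁻¹ *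
    mC (volume : Measure (Fin d → ℝ)) (2 * a) (Fin N) (Box d s)) 1
  refine le_trans (le_of_eq ?_) h
  simp only [pow_one, Nat.factorial_one, Nat.cast_one, inv_one, mul_one]
  rw [mC_one, volume_Box']

theorem Xi_sub (a μ : ℝ) {A B : Set (Fin d → ℝ)} (hA : MeasurableSet A) (hB : MeasurableSet B)
    (hdis : Disjoint A B) (hBf : volume B ≠ ⊤) :
    Xi volume (2 * a) (ex μ) (A ∪ B) ≤
      Xi volume (2 * a) (ex μ) A * Xi volume (2 * a) (ex μ) B := by
  rw [Xi_union' volume (2 * a) (ex μ) hA hB hdis]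
  have e : Xi volume (2 * a) (ex μ) A * Xi volume (2 * a) (ex μ) B =
      ∑' k : ℕ, ex μ ^ k * ((k.factorial : ENNReal))⁻¹ *
        mC (volume : Measure (Fin d → ℝ)) (2 * a) (Fin k) A * Xi volume (2 * a) (ex μ) B := by
    rw [ENNReal.tsum_mul_right]
    rfl
  rw [e]
  refine ENNReal.tsum_le_tsum fun k => ?_
  refine le_trans (mul_le_mul' le_rfl ?_) (le_of_eq (mul_assoc _ _ _).symm)
  have h2 : ∀ u : Fin k → Fin d → ℝ, (Cf (2 * a) (Fin k) A).indicator
      (fun u => Xi volume (2 * a) (ex μ) (B ∩ FarS (2 * a) u)) u ≤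
      (Cf (2 * a) (Fin k) A).indicator (fun _ => Xi volume (2 * a) (ex μ) B) u := by
    intro u
    by_cases hu : u ∈ Cf (2 * a) (Fin k) A
    · rw [Set.indicator_of_mem hu, Set.indicator_of_mem hu]
      exact Pool.Agent.Mix.CanM.Xi_mono volume (2 * a) (ex μ) Set.inter_subset_left
    · rw [Set.indicator_of_notMem hu, Set.indicator_of_notMem hu]
  refine (lintegral_mono h2).trans ?_
  rw [lintegral_indicator_const (measurableSet_Cf (2 * a) _ hA), mul_comm]
  exact le_rfl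

theorem Xi_tr (a μ s : ℝ) (v : Fin d → ℝ) :
    Xi volume (2 * a) (ex μ) {x | (fun k => x k - v k) ∈ Box d s} = XH d a μ s := by
  have h := Pool.Agent.Mix.CanM.Xi_shift (volume : Measure (Fin d → ℝ)) (2 * a) (ex μ)
    (fun k => - v k) (map_add_right_eq_self _ _) (measurableSet_Box' (d := d) s)
  have e : {x : Fin d → ℝ | (fun k => x k - v k) ∈ Box d s} =
      (fun y : Fin d → ℝ => y + fun k => - v k) ⁻¹' Box d s := by
    ext x
    simp only [Set.mem_ofPred_eq, Set.mem_preimage]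
    have : (x + fun k => - v k) = fun k => x k - v k := by
      funext k
      simp [sub_eq_add_neg]
    rw [this]
  rw [e, h]
  rfl

theorem XH_trim (hd : 1 ≤ d) (a μ : ℝ) {s c : ℝ} (hs : 0 < s) (hc : 0 ≤ c) :
    XH d a μ s ≤ ex (Real.exp μ * (c * d * s ^ (d - 1))) * XH d a μ (s - c) := by
  obtain ⟨t, ht⟩ : ∃ t : ℝ, t = max (s - c) 0 := ⟨_, rfl⟩
  have ht0 : 0 ≤ t := by rw [ht]; exact le_max_right _ _
  have hts : t ≤ s := by rw [ht]; exact max_le (by linarith) hs.le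
  have htc : s - c ≤ t := by rw [ht]; exact le_max_left _ _
  have hsub : Box d (s - c) ⊆ Box d s := Pool.Agent.Mix.CanM.Box_mono (by linarith)
  have hm1 := measurableSet_Box' (d := d) s
  have hm2 := measurableSet_Box' (d := d) (s - c)
  have hV : (volume (Box d s \ Box d (s - c))).toReal = s ^ d - t ^ d := by
    rw [measure_sdiff hsub hm2.nullMeasurableSet (Pool.Agent.Mix.CanM.volume_Box_ne _),
      ENNReal.toReal_sub_of_le (measure_mono hsub) (Pool.Agent.Mix.CanM.volume_Box_ne _),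
      volume_Box', volume_Box', ENNReal.toReal_pow, ENNReal.toReal_pow,
      ENNReal.toReal_ofReal hs.le, ENNReal.toReal_ofReal', ht]
  have hVne : volume (Box d s \ Box d (s - c)) ≠ ⊤ :=
    ne_top_of_le_ne_top (Pool.Agent.Mix.CanM.volume_Box_ne s) (measure_mono Set.sdiff_subset)
  have hne : ex μ * volume (Box d s \ Box d (s - c)) ≠ ⊤ :=
    ENNReal.mul_ne_top (ex_ne_top μ) hVne
  have h1 := Pool.Agent.Mix.CanM.Xi_le_diff volume (2 * a) (ex μ) hm1 (hm1.diff hm2) hne
  rw [Set.sdiff_sdiff_cancel_left hsub, ENNReal.toReal_mul, ex_toReal, hV] at h1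
  refine h1.trans (mul_le_mul' (ex_le_ex.2 ?_) le_rfl)
  refine mul_le_mul_of_nonneg_left ?_ (Real.exp_pos μ).le
  have hb := one_add_mul_le_pow (a := t / s - 1) (by
    have : 0 ≤ t / s := by positivity
    linarith) d
  have hb2 := mul_le_mul_of_nonneg_left hb (pow_nonneg hs.le d)
  rw [add_sub_cancel, div_pow, mul_div_cancel₀ _ (pow_pos hs d).ne'] at hb2
  have hd1 : s ^ d = s ^ (d - 1) * s := by
    rw [← pow_succ]
    congr 1
    omega
  have hb3 : s ^ d * (1 + d * (t / s - 1)) = s ^ d - s ^ (d - 1) * d * (s - t) := by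
    rw [hd1]
    field_simp
    ring
  rw [hb3] at hb2
  have hb4 : s ^ (d - 1) * d * (s - t) ≤ s ^ (d - 1) * d * c :=
    mul_le_mul_of_nonneg_left (by linarith) (by positivity)
  calc s ^ d - t ^ d ≤ s ^ (d - 1) * d * (s - t) := by linarith
    _ ≤ s ^ (d - 1) * d * c := hb4
    _ = c * d * s ^ (d - 1) := by ring

theorem XH_convex (hd : 1 ≤ d) {a : ℝ} (ha : 0 < a) (s : ℝ) :
    ConvexOn ℝ Set.univ fun μ => Real.log (XH d a μ s).toReal := by
  refine ⟨convex_univ, fun x _ y _ p q hp hq hpq => ?_⟩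
  simp only [smul_eq_mul]
  have key : XH d a (p * x + q * y) s ≤ XH d a x s ^ p * XH d a y s ^ q := by
    have h := ENNReal.lintegral_mul_norm_pow_le (μ := (Measure.count : Measure ℕ))
      (f := fun N => ex x ^ N * ((N.factorial : ENNReal))⁻¹ *
        mC (volume : Measure (Fin d → ℝ)) (2 * a) (Fin N) (Box d s))
      (g := fun N => ex y ^ N * ((N.factorial : ENNReal))⁻¹ *
        mC (volume : Measure (Fin d → ℝ)) (2 * a) (Fin N) (Box d s))
      (measurable_of_countable _).aemeasurable (measurable_of_countable _).aemeasurable hp hq hpq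
    rw [lintegral_count, lintegral_count, lintegral_count] at h
    refine le_trans (le_of_eq ?_) h
    unfold XH Xi
    refine tsum_congr fun N => ?_
    rw [mul_assoc, mul_assoc, mul_assoc, ENNReal.mul_rpow_of_nonneg _ _ hp,
      ENNReal.mul_rpow_of_nonneg _ _ hq, ex_pow, ex_pow, ex_pow, ex_rpow, ex_rpow]
    have h3 : ∀ c : ENNReal, c ^ p * c ^ q = c := fun c => by
      rw [← ENNReal.rpow_add_of_nonneg _ _ hp hq, hpq, ENNReal.rpow_one]
    rw [mul_mul_mul_comm, h3, ← ex_add]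
    congr 2
    ring
  have hpos : ∀ μ, 0 < (XH d a μ s).toReal := fun μ =>
    ENNReal.toReal_pos (fun h => by
      have := one_le_XH (d := d) a μ s
      rw [h] at this
      exact absurd this (by simp)) (XH_ne_top a μ s)
  have hx0 := hpos x
  have hy0 := hpos y
  have h1 : (XH d a (p * x + q * y) s).toReal ≤
      (XH d a x s).toReal ^ p * (XH d a y s).toReal ^ q := by
    have h2 := ENNReal.toReal_mono (ENNReal.mul_ne_top
      (ENNReal.rpow_ne_top_of_nonneg hp (XH_ne_top a x s))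
      (ENNReal.rpow_ne_top_of_nonneg hq (XH_ne_top a y s))) key
    rwa [ENNReal.toReal_mul, ← ENNReal.toReal_rpow, ← ENNReal.toReal_rpow] at h2
  calc Real.log (XH d a (p * x + q * y) s).toReal
      ≤ Real.log ((XH d a x s).toReal ^ p * (XH d a y s).toReal ^ q) :=
        Real.log_le_log (hpos _) h1
    _ = _ := by
      rw [Real.log_mul (Real.rpow_pos_of_pos hx0 p).ne' (Real.rpow_pos_of_pos hy0 q).ne',
        Real.log_rpow hx0, Real.log_rpow hy0]

end Pool.Agent.Nbm
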