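import Pool.Agent.Lib.MP_09cbbd_ndm.BFin
import Pool.Agent.Lib.MP_09cbbd_ndm.BReal
import Pool.Agent.Lib.MP_09cbbd_ndc.NcK

/-!
# The first-order transition of the mixture of hard spheres and needles
-/

set_option autoImplicit false

namespace Pool.Agent.Nbm

open MeasureTheory Finset Filter Topology Pool.Agent.SquareWellGas Pool.Agent.SquareWell
  Pool.Agent.NeedleGas Pool.Agent.Ndl

variable {d : ℕ}

private theorem trans_mono {a L z ρ₀ m₁ m₂ m₁' m₂' : ℝ} (h : Transition d a L z ρ₀ m₁ m₂)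
    (h1 : m₁ ≤ m₁') (h2 : m₂' ≤ m₂) : Transition d a L z ρ₀ m₁' m₂' := by
  obtain ⟨f, ρ₁, ρ₂, c, e, g1, g2, g3, g4, g5, g6⟩ := h
  exact ⟨f, ρ₁, ρ₂, c, e, g1, g2, g3, g4.trans h1, h2.trans g5, g6⟩

theorem needle_transition (hd : 3 ≤ d) {a ν : ℝ} (ha : 0 < a) (hν : 0 < ν) {μ' ρ' δ : ℝ}
    (hμ' : PH d a μ' < ν) (hρ0 : 0 < ρ') (hρ' : ∀ μ, PH d a μ' + ρ' * (μ - μ') ≤ PH d a μ)
    (hδ : 0 < δ) : ∃ L0 : ℝ, 0 < L0 ∧ ∀ L, L0 ≤ L →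
      Transition d a L ν (Ndc.rhoc d a) δ (ρ' - δ) := by
  obtain ⟨δ', hδ'⟩ : ∃ δ' : ℝ, δ' = min δ (ρ' / 4) := ⟨_, rfl⟩
  have h1 : 0 < δ' := by
    rw [hδ']
    exact lt_min hδ (by positivity)
  have h2 : δ' ≤ δ := by
    rw [hδ']
    exact min_le_left _ _
  have h3 : δ' ≤ ρ' / 4 := by
    rw [hδ']
    exact min_le_right _ _
  obtain ⟨L0, hL0, H⟩ := kink_needles hd ha hν hμ' hρ' h1
  refine ⟨L0, hL0, fun L hL => ?_⟩
  obtain ⟨q, hq, w, hw1, hw2⟩ := H L hL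
  have hd0 : (0 : ℝ) < d := by exact_mod_cast (show 0 < d by omega)
  have hLp : 0 < L := lt_of_lt_of_le hL0 hL
  obtain ⟨l0, hl0⟩ : ∃ l0 : ℝ, l0 = L / (16 * d) := ⟨_, rfl⟩
  have hl0p : 0 < l0 := by
    rw [hl0]
    positivity
  have hLl : 16 * (d : ℝ) * l0 = L := by
    rw [hl0]
    field_simp
  have hpd : 0 < l0 ^ d := pow_pos hl0p d
  rw [← hl0] at hq hw1 hw2
  have hlim : ∀ μ, Tendsto (fun n : ℕ => Real.log (∑' k : ℕ, ex (μ * k) *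
      ENNReal.ofReal (Z d a L ν (n * l0) k)).toReal / (n : ℝ) ^ d) atTop (𝓝 (q μ)) := by
    intro μ
    have h4 := hq μ
    unfold XiN at h4
    rw [hLl] at h4
    exact h4
  have h5 : Transition d a L ν (Ndc.rhoc d a) (δ' * l0 ^ d / l0 ^ d)
      ((ρ' - δ') * l0 ^ d / l0 ^ d) :=
    Ndc.trans_of_kink hd ha hLp hν hl0p hlim
      (mul_lt_mul_of_pos_right (by linarith) hpd) hw1 hw2
  rw [mul_div_cancel_right₀ _ hpd.ne', mul_div_cancel_right₀ _ hpd.ne'] at h5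
  exact trans_mono h5 h2 (by linarith)

/-- The pressure of the pure hard spheres. -/
theorem PH_is_pressure {a : ℝ} (ha : 0 < a) (μ : ℝ) :
    Tendsto (fun ℓ : ℝ => Real.log (∑' N : ℕ, Real.exp (μ * N) * (((N.factorial : ℝ))⁻¹ *
      volume.real {x : Fin N → Fin d → ℝ | (∀ i, x i ∈ Box d ℓ) ∧
        ∀ i j, i ≠ j → (2 * a) ^ 2 ≤ ∑ k, (x i k - x j k) ^ 2})) / ℓ ^ d) atTop
      (𝓝 (PH d a μ)) := by
  refine (PH_lim_real ha μ).congr fun t => ?_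
  rw [XH_toReal]

end Pool.Agent.Nbm
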