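import Pool.Agent.Lib.MP_09cbbd_ndm.Top

/-!
# A first-order transition of hard spheres and infinitely thin hard needles

Let `d ≥ 3` and `a > 0`. Hard spheres of radius `a` in `ℝ^d` and, at activity `z > 0`, hard
needles of length `L` and thickness zero with all directions allowed; no two bodies may
intersect. Let `P μ` be the pressure of the pure hard spheres and `ρ₀` their maximal density. If
`P μ' < z`, `ρ' > 0` is a slope of `P` at `μ'` and `δ > 0`, then for all `L ≥ L₀` the spheres have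
a first-order transition strictly below `ρ₀`, between a density `ρ₁ ≤ δ` and a density
`ρ₂ ≥ ρ' - δ`; the slopes `ρ'` come arbitrarily close to `ρ₀`. There is no attraction and no
external field.
-/

set_option autoImplicit false

open MeasureTheory Filter Topology Pool.Agent.NeedleGas Pool.Agent.SquareWellGas

namespace Pool.Agent.Lib.MP_09cbbd_ndm.HardNeedles

theorem result : ∀ d : ℕ, 3 ≤ d → ∀ a : ℝ, 0 < a → ∃ (P : ℝ → ℝ) (ρ₀ : ℝ), 0 < ρ₀ ∧
    (∀ μ, Tendsto (fun ℓ : ℝ => Real.log (∑' N : ℕ, Real.exp (μ * N) *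
      (((N.factorial : ℝ))⁻¹ * volume.real {x : Fin N → Fin d → ℝ | (∀ i, x i ∈ Box d ℓ) ∧
        ∀ i j, i ≠ j → (2 * a) ^ 2 ≤ ∑ k, (x i k - x j k) ^ 2})) / ℓ ^ d) atTop (𝓝 (P μ))) ∧
    (∀ ρ, ρ < ρ₀ → ∃ μ' ρ', ρ ≤ ρ' ∧ ∀ μ, P μ' + ρ' * (μ - μ') ≤ P μ) ∧
    ∀ z μ' ρ' δ : ℝ, P μ' < z → 0 < ρ' → (∀ μ, P μ' + ρ' * (μ - μ') ≤ P μ) → 0 < δ →
      ∃ L₀ : ℝ, 0 < L₀ ∧ ∀ L, L₀ ≤ L → Transition d a L z ρ₀ δ (ρ' - δ) :=
  fun d hd a ha => Pool.Agent.Nbm.main d hd a ha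

end Pool.Agent.Lib.MP_09cbbd_ndm.HardNeedles
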