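import Pool.Agent.Lib.MP_09cbbd_ndm.End
import Pool.Agent.Lib.MP_09cbbd_ndp.Sub

/-!
# Hard spheres and needles: the final theorem
-/

set_option autoImplicit false

namespace Pool.Agent.Nbm

open MeasureTheory Finset Filter Topology Pool.Agent.SquareWellGas Pool.Agent.SquareWell
  Pool.Agent.NeedleGas Pool.Agent.Ndl

theorem main (d : ℕ) (hd : 3 ≤ d) (a : ℝ) (ha : 0 < a) : ∃ (P : ℝ → ℝ) (ρ₀ : ℝ), 0 < ρ₀ ∧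
    (∀ μ, Tendsto (fun ℓ : ℝ => Real.log (∑' N : ℕ, Real.exp (μ * N) *
      (((N.factorial : ℝ))⁻¹ * volume.real {x : Fin N → Fin d → ℝ | (∀ i, x i ∈ Box d ℓ) ∧
        ∀ i j, i ≠ j → (2 * a) ^ 2 ≤ ∑ k, (x i k - x j k) ^ 2})) / ℓ ^ d) atTop (𝓝 (P μ))) ∧
    (∀ ρ, ρ < ρ₀ → ∃ μ' ρ', ρ ≤ ρ' ∧ ∀ μ, P μ' + ρ' * (μ - μ') ≤ P μ) ∧
    ∀ z μ' ρ' δ : ℝ, P μ' < z → 0 < ρ' → (∀ μ, P μ' + ρ' * (μ - μ') ≤ P μ) → 0 < δ →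
      ∃ L₀ : ℝ, 0 < L₀ ∧ ∀ L, L₀ ≤ L → Transition d a L z ρ₀ δ (ρ' - δ) := by
  refine ⟨PH d a, Ndc.rhoc d a, Ndc.rhoc_pos (by omega) ha, PH_is_pressure ha,
    fun ρ hρ => exists_sub (by omega) ha hρ, fun z μ' ρ' δ h1 h2 h3 h4 =>
      needle_transition hd ha (((hsp (by omega) ha).nonneg μ').trans_lt h1) h1 h2 h3 h4⟩

end Pool.Agent.Nbm
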